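import Mathlib

/-!
Project GQ part 4, module Compare: two factorisations of proportional symmetric matrices over a field.

From `Y'ᵀ B' Y' = κ Yᵀ B Y`: multiply by `Z'ᵀ` from the left (`Z'ᵀ Y'ᵀ = 1`): `B' Y' = κ Z'ᵀ Yᵀ B Y`,
so `Y' = T Y` with `T = B'⁻¹ (κ Z'ᵀ Yᵀ B)` (`b' × b`); symmetrically `Y = T' Y'`. `1 = Y Z = T' Y' Z = T' T Y Z = T' T`
and `1 = Y' Z' = T T'`, so `T` is a square matrix (`b = b'`, ranks or
`Matrix.square_of_invertible`-type lemma) and invertible. Then `Tᵀ B' T = κ B` (multiply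
`Yᵀ Tᵀ B' T Y = κ Yᵀ B Y` by `Zᵀ` and `Z`), so `det B' * (det T)^2 = κ^b det B`.
-/

namespace H60GQ

open Matrix

private lemma Compare_left {F : Type*} [Field F] {n b b' : ℕ} (Y : Matrix (Fin b) (Fin n) F)
    (B : Matrix (Fin b) (Fin b) F)
    (Y' : Matrix (Fin b') (Fin n) F) (Z' : Matrix (Fin n) (Fin b') F)
    (B' : Matrix (Fin b') (Fin b') F) (hYZ' : Y' * Z' = 1) (hB' : B'.det ≠ 0) (κ : F)
    (hh : Y'ᵀ * B' * Y' = κ • (Yᵀ * B * Y)) :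
    Y' = (B'⁻¹ * (κ • (Z'ᵀ * Yᵀ * B))) * Y := by
  have h1 : Z'ᵀ * Y'ᵀ = 1 := by rw [← Matrix.transpose_mul, hYZ', Matrix.transpose_one]
  have h2 : B' * Y' = (κ • (Z'ᵀ * Yᵀ * B)) * Y := by
    have h3 : Z'ᵀ * (Y'ᵀ * B' * Y') = Z'ᵀ * (κ • (Yᵀ * B * Y)) := by rw [hh]
    have h4 : Z'ᵀ * (Y'ᵀ * B' * Y') = (Z'ᵀ * Y'ᵀ) * (B' * Y') := by
      simp only [Matrix.mul_assoc]
    rw [h4, h1, Matrix.one_mul] at h3
    rw [h3, Matrix.mul_smul, Matrix.smul_mul]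
    simp only [Matrix.mul_assoc]
  rw [Matrix.mul_assoc, ← h2, ← Matrix.mul_assoc,
    Matrix.nonsing_inv_mul _ (Ne.isUnit hB'), Matrix.one_mul]

theorem compare {F : Type*} [Field F] {n b b' : ℕ} (Y : Matrix (Fin b) (Fin n) F)
    (Z : Matrix (Fin n) (Fin b) F) (B : Matrix (Fin b) (Fin b) F) (hYZ : Y * Z = 1) (hB : B.det ≠ 0)
    (Y' : Matrix (Fin b') (Fin n) F) (Z' : Matrix (Fin n) (Fin b') F)
    (B' : Matrix (Fin b') (Fin b') F) (hYZ' : Y' * Z' = 1) (hB' : B'.det ≠ 0) (κ : F) (hκ : κ ≠ 0)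
    (hh : Y'ᵀ * B' * Y' = κ • (Yᵀ * B * Y)) :
    b' = b ∧ ∃ t : F, t ≠ 0 ∧ B'.det * t ^ 2 = κ ^ b * B.det := by
  have hh' : Yᵀ * B * Y = κ⁻¹ • (Y'ᵀ * B' * Y') := by
    rw [hh, smul_smul, inv_mul_cancel₀ hκ, one_smul]
  obtain ⟨T, hT⟩ : ∃ T : Matrix (Fin b') (Fin b) F, Y' = T * Y :=
    ⟨_, Compare_left Y B Y' Z' B' hYZ' hB' κ hh⟩
  obtain ⟨T', hT'⟩ : ∃ T' : Matrix (Fin b) (Fin b') F, Y = T' * Y' :=
    ⟨_, Compare_left Y' B' Y Z B hYZ hB κ⁻¹ hh'⟩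
  have hTT : T' * T = 1 := by
    calc T' * T = T' * T * (Y * Z) := by rw [hYZ, Matrix.mul_one]
      _ = T' * (T * Y) * Z := by simp only [Matrix.mul_assoc]
      _ = 1 := by rw [← hT, ← hT', hYZ]
  have hTT' : T * T' = 1 := by
    calc T * T' = T * T' * (Y' * Z') := by rw [hYZ', Matrix.mul_one]
      _ = T * (T' * Y') * Z' := by simp only [Matrix.mul_assoc]
      _ = 1 := by rw [← hT', ← hT, hYZ']
  have hb : b' = b := by
    have := Matrix.square_of_invertible T T' hTT' hTT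
    simpa using this
  subst hb
  refine ⟨rfl, T.det, ?_, ?_⟩
  · intro h0
    have h := congrArg Matrix.det hTT
    rw [Matrix.det_mul, h0, mul_zero, Matrix.det_one] at h
    exact zero_ne_one h
  · have hZ : Zᵀ * Yᵀ = 1 := by rw [← Matrix.transpose_mul, hYZ, Matrix.transpose_one]
    have h5 : Tᵀ * B' * T = κ • B := by
      calc Tᵀ * B' * T = (Zᵀ * Yᵀ) * (Tᵀ * B' * T) * (Y * Z) := by
            rw [hZ, hYZ, Matrix.one_mul, Matrix.mul_one]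
        _ = Zᵀ * ((T * Y)ᵀ * B' * (T * Y)) * Z := by
            rw [Matrix.transpose_mul]; simp only [Matrix.mul_assoc]
        _ = Zᵀ * (κ • (Yᵀ * B * Y)) * Z := by rw [← hT, hh]
        _ = κ • ((Zᵀ * Yᵀ) * B * (Y * Z)) := by
            rw [Matrix.mul_smul, Matrix.smul_mul]; simp only [Matrix.mul_assoc]
        _ = κ • B := by rw [hZ, hYZ, Matrix.one_mul, Matrix.mul_one]
    have h6 := congrArg Matrix.det h5
    rw [Matrix.det_mul, Matrix.det_mul, Matrix.det_transpose, Matrix.det_smul,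
      Fintype.card_fin] at h6
    rw [← h6]
    ring

end H60GQ
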