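import Mathlib

/-!
Project GQ part 4, module Herm: Hermitian matrices over a principal ideal domain `O` with an involution
`c`. We write `Mᴴ` for `(M.map c)ᵀ` below.

Proof of `herm_fact`: the range of `M.mulVecLin : (Fin n → O) → (Fin n → O)` is a submodule of a free
module of finite rank, so it is free with a finite basis `x_1, ..., x_b`
(`Submodule.basisOfPid` or `Module.Free` + `Module.finBasis`). Let `X` be the `n × b` matrix with these columns; `X` is
injective on vectors. Every column of `M` is a unique combination of the `x_i`: `M = X Y` with `Y`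
of size `b × n`. Every `x_i` is in the range of `M`: `X = M Z0 = X Y Z0` with `Z0` of size `n × b`, so
`Y Z0 = 1` by injectivity of `X`; `Z = Z0`. `Mᴴ = M` gives `X Y = Yᴴ Xᴴ`, so `X = X Y Z = Yᴴ (Xᴴ Z)`;
`B = Xᴴ Z`: then `M = Yᴴ B Y` and, as `Y Z = 1` and `Zᴴ Yᴴ = 1`, `B = Zᴴ M Z`, so `Bᴴ = B`.
`B v = 0` implies `X v = Yᴴ B v = 0`, `v = 0`, so `det B ≠ 0` (domain).
If `M M = κ M` then `Yᴴ B (Y Yᴴ) B Y = κ Yᴴ B Y`; multiply by `Zᴴ` from the left and `Z` from the right: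
`B (Y Yᴴ) B = κ B`, hence `B ((Y Yᴴ) B - κ) = 0`, `(Y Yᴴ) B = κ` as `det B ≠ 0`, and similarly
`B (Y Yᴴ) = κ`.
-/

namespace H60GQ

open Matrix

variable {O : Type*} [CommRing O] [IsDomain O] [IsPrincipalIdealRing O]

private theorem Herm_rank {n : ℕ} (M : Matrix (Fin n) (Fin n) O) :
    ∃ (b : ℕ) (X : Matrix (Fin n) (Fin b) O) (Y : Matrix (Fin b) (Fin n) O)
      (Z : Matrix (Fin n) (Fin b) O),
      M = X * Y ∧ X = M * Z ∧ Y * Z = 1 ∧ ∀ v, X *ᵥ v = 0 → v = 0 := by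
  classical
  obtain ⟨b, bas⟩ := Submodule.basisOfPid (Pi.basisFun O (Fin n)) (LinearMap.range M.mulVecLin)
  have hcol : ∀ j : Fin n, M *ᵥ (Pi.single j 1) ∈ LinearMap.range M.mulVecLin := fun j =>
    ⟨Pi.single j 1, rfl⟩
  let X : Matrix (Fin n) (Fin b) O := fun i k => ((bas k : LinearMap.range M.mulVecLin) : Fin n → O) i
  let Y : Matrix (Fin b) (Fin n) O := fun k j => bas.repr ⟨M *ᵥ (Pi.single j 1), hcol j⟩ k
  have hXv : ∀ v : Fin b → O, X *ᵥ v = ((∑ k, v k • bas k : LinearMap.range M.mulVecLin) : Fin n → O) := by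
    intro v
    ext i
    simp only [Matrix.mulVec, dotProduct, X, Submodule.coe_sum, Submodule.coe_smul, Finset.sum_apply,
      Pi.smul_apply, smul_eq_mul]
    exact Finset.sum_congr rfl fun k _ => mul_comm _ _
  have hinj : ∀ v, X *ᵥ v = 0 → v = 0 := by
    intro v hv
    rw [hXv] at hv
    have hv' : (∑ k, v k • bas k) = 0 := by
      apply Subtype.ext; simpa using hv
    have := Fintype.linearIndependent_iff.mp bas.linearIndependent v hv'
    exact funext this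
  have hXY : M = X * Y := by
    ext i j
    have h1 : X *ᵥ (fun k => Y k j) = M *ᵥ (Pi.single j 1) := by
      rw [hXv]
      have := bas.sum_repr ⟨M *ᵥ (Pi.single j 1), hcol j⟩
      rw [show (∑ k, (fun k => Y k j) k • bas k) = ∑ k, bas.repr ⟨M *ᵥ (Pi.single j 1), hcol j⟩ k • bas k from rfl,
        this]
    have h2 := congrFun h1 i
    rw [Matrix.mulVec_single_one] at h2
    rw [Matrix.mul_apply]
    simpa [Matrix.mulVec, dotProduct] using h2.symm
  have hz : ∀ k : Fin b, ∃ z : Fin n → O, M *ᵥ z = ((bas k : LinearMap.range M.mulVecLin) : Fin n → O) := by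
    intro k
    obtain ⟨z, hz⟩ := (bas k).2
    exact ⟨z, hz⟩
  choose z hz using hz
  let Z : Matrix (Fin n) (Fin b) O := fun i k => z k i
  have hXZ : X = M * Z := by
    ext i k
    have := congrFun (hz k) i
    rw [Matrix.mul_apply]
    simpa [Matrix.mulVec, dotProduct, X, Z] using this.symm
  refine ⟨b, X, Y, Z, hXY, hXZ, ?_, hinj⟩
  have h3 : X * (Y * Z - 1) = 0 := by
    rw [Matrix.mul_sub, ← Matrix.mul_assoc, ← hXY, ← hXZ, Matrix.mul_one, sub_self]
  have h4 : Y * Z - 1 = 0 := by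
    ext i j
    have h5 : X *ᵥ (fun k => (Y * Z - 1 : Matrix (Fin b) (Fin b) O) k j) = 0 := by
      ext i'
      have := congrFun (congrFun h3 i') j
      rw [Matrix.mul_apply] at this
      simpa [Matrix.mulVec, dotProduct] using this
    exact congrFun (hinj _ h5) i
  exact sub_eq_zero.mp h4

theorem herm_fact (c : O →+* O) (hcc : ∀ x, c (c x) = x) {n : ℕ} (M : Matrix (Fin n) (Fin n) O)
    (hM : (M.map c)ᵀ = M) (κ : O) (hMM : M * M = κ • M) :
    ∃ (b : ℕ) (Y : Matrix (Fin b) (Fin n) O) (Z : Matrix (Fin n) (Fin b) O)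
      (B : Matrix (Fin b) (Fin b) O),
      Y * Z = 1 ∧ M = (Y.map c)ᵀ * B * Y ∧ B = (Z.map c)ᵀ * M * Z ∧ (B.map c)ᵀ = B ∧ B.det ≠ 0 ∧
      B * (Y * (Y.map c)ᵀ) = κ • (1 : Matrix (Fin b) (Fin b) O) := by
  classical
  obtain ⟨b, X, Y, Z, hXY, hXZ, hYZ, hinj⟩ := Herm_rank M
  have hmap : ∀ {p q r : ℕ} (A : Matrix (Fin p) (Fin q) O) (C : Matrix (Fin q) (Fin r) O),
      ((A * C).map c)ᵀ = (C.map c)ᵀ * (A.map c)ᵀ := by
    intro p q r A C
    rw [Matrix.map_mul, Matrix.transpose_mul]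
  have hinv : ∀ {p q : ℕ} (A : Matrix (Fin p) (Fin q) O), ((((A.map c)ᵀ).map c)ᵀ) = A := by
    intro p q A
    ext i j
    simp [hcc]
  have hone : ∀ {p : ℕ}, (((1 : Matrix (Fin p) (Fin p) O).map c)ᵀ) = 1 := by
    intro p
    rw [Matrix.map_one c (map_zero c) (map_one c), Matrix.transpose_one]
  -- M = Yᴴ Xᴴ
  have hM2 : M = (Y.map c)ᵀ * (X.map c)ᵀ := by
    rw [← hmap, ← hXY, hM]
  have hX : X = (Y.map c)ᵀ * ((X.map c)ᵀ * Z) := by
    rw [← Matrix.mul_assoc, ← hM2, hXY, Matrix.mul_assoc, hYZ, Matrix.mul_one]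
  have hZY : (Z.map c)ᵀ * (Y.map c)ᵀ = 1 := by
    rw [← hmap, hYZ, hone]
  refine ⟨b, Y, Z, (X.map c)ᵀ * Z, hYZ, ?_, ?_, ?_, ?_, ?_⟩
  · rw [← hX]; exact hXY
  · have : M * Z = X := by rw [hXY, Matrix.mul_assoc, hYZ, Matrix.mul_one]
    rw [Matrix.mul_assoc, this]
    calc (X.map c)ᵀ * Z = ((Z.map c)ᵀ * (Y.map c)ᵀ) * ((X.map c)ᵀ * Z) := by
          rw [hZY, Matrix.one_mul]
      _ = (Z.map c)ᵀ * ((Y.map c)ᵀ * ((X.map c)ᵀ * Z)) := by rw [Matrix.mul_assoc]
      _ = (Z.map c)ᵀ * X := by rw [← hX]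
  · have hB : (X.map c)ᵀ * Z = (Z.map c)ᵀ * M * Z := by
      have : M * Z = X := by rw [hXY, Matrix.mul_assoc, hYZ, Matrix.mul_one]
      rw [Matrix.mul_assoc, this]
      calc (X.map c)ᵀ * Z = ((Z.map c)ᵀ * (Y.map c)ᵀ) * ((X.map c)ᵀ * Z) := by
            rw [hZY, Matrix.one_mul]
        _ = (Z.map c)ᵀ * ((Y.map c)ᵀ * ((X.map c)ᵀ * Z)) := by rw [Matrix.mul_assoc]
        _ = (Z.map c)ᵀ * X := by rw [← hX]
    rw [hB, hmap, hmap, hinv, hM, Matrix.mul_assoc]
  · intro h0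
    obtain ⟨v, hv, hv0⟩ := Matrix.exists_mulVec_eq_zero_iff.mpr h0
    apply hv
    apply hinj
    have : X *ᵥ v = (Y.map c)ᵀ *ᵥ (((X.map c)ᵀ * Z) *ᵥ v) := by
      rw [Matrix.mulVec_mulVec, ← hX]
    rw [this, hv0, Matrix.mulVec_zero]
  · set B := (X.map c)ᵀ * Z with hBdef
    have hdet : B.det ≠ 0 := by
      intro h0
      obtain ⟨v, hv, hv0⟩ := Matrix.exists_mulVec_eq_zero_iff.mpr h0
      apply hv
      apply hinj
      have : X *ᵥ v = (Y.map c)ᵀ *ᵥ (B *ᵥ v) := by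
        rw [Matrix.mulVec_mulVec, hBdef, ← hX]
      rw [this, hv0, Matrix.mulVec_zero]
    have hMB : M = (Y.map c)ᵀ * B * Y := by
      rw [hBdef, ← hX]; exact hXY
    have h1 : B * (Y * (Y.map c)ᵀ) * B = κ • B := by
      have h2 := hMM
      have h3 : (Z.map c)ᵀ * (M * M) * Z = B * (Y * (Y.map c)ᵀ) * B := by
        rw [hMB]
        calc (Z.map c)ᵀ * ((Y.map c)ᵀ * B * Y * ((Y.map c)ᵀ * B * Y)) * Z
            = ((Z.map c)ᵀ * (Y.map c)ᵀ) * B * Y * ((Y.map c)ᵀ * B * (Y * Z)) := by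
              simp only [Matrix.mul_assoc]
          _ = B * (Y * (Y.map c)ᵀ) * B := by
              rw [hZY, hYZ, Matrix.one_mul, Matrix.mul_one]
              simp only [Matrix.mul_assoc]
      have h4 : (Z.map c)ᵀ * (κ • M) * Z = κ • B := by
        rw [Matrix.mul_smul, Matrix.smul_mul, hMB]
        congr 1
        calc (Z.map c)ᵀ * ((Y.map c)ᵀ * B * Y) * Z
            = ((Z.map c)ᵀ * (Y.map c)ᵀ) * B * (Y * Z) := by
              simp only [Matrix.mul_assoc]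
          _ = B := by rw [hZY, hYZ, Matrix.one_mul, Matrix.mul_one]
      rw [← h3, h2, h4]
    have h5 : (B * (Y * (Y.map c)ᵀ) - κ • (1 : Matrix (Fin b) (Fin b) O)) * B = 0 := by
      rw [Matrix.sub_mul, h1, Matrix.smul_mul, Matrix.one_mul, sub_self]
    have h6 : (B * (Y * (Y.map c)ᵀ) - κ • (1 : Matrix (Fin b) (Fin b) O)) * (B * B.adjugate) = 0 := by
      rw [← Matrix.mul_assoc, h5, Matrix.zero_mul]
    rw [Matrix.mul_adjugate, Matrix.mul_smul, Matrix.mul_one] at h6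
    have h7 : B * (Y * (Y.map c)ᵀ) - κ • (1 : Matrix (Fin b) (Fin b) O) = 0 := by
      ext i j
      have := congrFun (congrFun h6 i) j
      simp only [Matrix.smul_apply, Matrix.zero_apply, smul_eq_mul] at this
      exact (mul_eq_zero.mp this).resolve_left hdet
    exact sub_eq_zero.mp h7

end H60GQ
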