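import Mathlib

/-!
Project GQ part 4, module NoAR5: the integer matrix `R = 147 - 49 Q + 65 J` of the sums of the blocks for
an automorphism of order 5, `R R = 784 R` (as in NoAR).
-/

namespace H60GQ

open Finset Matrix

/-- the matrices over `ℤ` -/
theorem noA_R5 (a : Fin 49 → Fin 49 → ZMod 5 → ℤ) (h1 : ∀ i j k, a j i (-k) = a i j k)
    (h2 : ∀ i j k, ∑ l, ∑ m, a i l m * a l j (k - m) =
      39 * (if i = j ∧ k = 0 then 1 else 0) - 10 * a i j k + 13)
    (h3 : ∀ i, ∑ j, ∑ k, a i j k = 52) :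
    ∃ R : Matrix (Fin 49) (Fin 49) ℤ,
      (∀ i j, R i j = 147 * (if i = j then 1 else 0) - 49 * ∑ k, a i j k + 65) ∧
      Rᵀ = R ∧ R * R = (784 : ℤ) • R := by
  have hQs : ∀ i j, ∑ k, a j i k = ∑ k, a i j k := by
    intro i j
    rw [← Equiv.sum_comp (Equiv.neg (ZMod 5)) (fun k => a j i k)]
    exact Finset.sum_congr rfl fun k _ => h1 i j k
  have hQ2 : ∀ i j, ∑ l, (∑ k, a i l k) * (∑ k, a l j k) =
      39 * (if i = j then 1 else 0) - 10 * ∑ k, a i j k + 65 := by
    intro i j
    have e1 : ∑ l, (∑ k, a i l k) * (∑ k, a l j k) =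
        ∑ k, ∑ l, ∑ m, a i l m * a l j (k - m) := by
      rw [Finset.sum_comm]
      refine Finset.sum_congr rfl fun l _ => ?_
      rw [Finset.sum_comm, Finset.sum_mul]
      refine Finset.sum_congr rfl fun m _ => ?_
      rw [← Finset.mul_sum]
      congr 1
      exact (Equiv.sum_comp (Equiv.subRight m) (fun k => a l j k)).symm
    rw [e1, Finset.sum_congr rfl fun k _ => h2 i j k, Finset.sum_add_distrib,
      Finset.sum_sub_distrib, ← Finset.mul_sum, ← Finset.mul_sum]
    have e2 : ∑ k : ZMod 5, (if i = j ∧ k = 0 then (1 : ℤ) else 0) = if i = j then 1 else 0 := by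
      by_cases hij : i = j
      · simp [hij]
      · simp [hij]
    have e3 : ∑ _k : ZMod 5, (13 : ℤ) = 65 := by
      rw [Finset.sum_const, Finset.card_univ, ZMod.card]
      norm_num
    rw [e2, e3]
  have h3' : ∀ j, ∑ i, ∑ k, a i j k = 52 := by
    intro j
    rw [← h3 j]
    exact Finset.sum_congr rfl fun i _ => hQs j i
  refine ⟨Matrix.of fun i j => 147 * (if i = j then 1 else 0) - 49 * ∑ k, a i j k + 65,
    fun i j => rfl, ?_, ?_⟩
  · ext i j
    rw [Matrix.transpose_apply, Matrix.of_apply, Matrix.of_apply, hQs i j]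
    by_cases hij : i = j
    · simp [hij]
    · simp [hij, Ne.symm hij]
  · ext i j
    rw [Matrix.mul_apply, Matrix.smul_apply, smul_eq_mul, Matrix.of_apply]
    simp only [Matrix.of_apply]
    have e : ∀ l, (147 * (if i = l then (1 : ℤ) else 0) - 49 * ∑ k, a i l k + 65) *
        (147 * (if l = j then (1 : ℤ) else 0) - 49 * ∑ k, a l j k + 65) =
        21609 * ((if i = l then (1 : ℤ) else 0) * (if l = j then (1 : ℤ) else 0)) -
        7203 * ((if i = l then (1 : ℤ) else 0) * ∑ k, a l j k) +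
        9555 * (if i = l then (1 : ℤ) else 0) -
        7203 * ((∑ k, a i l k) * (if l = j then (1 : ℤ) else 0)) +
        2401 * ((∑ k, a i l k) * (∑ k, a l j k)) -
        3185 * (∑ k, a i l k) +
        9555 * (if l = j then (1 : ℤ) else 0) - 3185 * (∑ k, a l j k) + 4225 := by
      intro l
      ring
    rw [Finset.sum_congr rfl fun l _ => e l]
    simp only [Finset.sum_add_distrib, Finset.sum_sub_distrib, ← Finset.mul_sum]
    rw [hQ2 i j, h3 i, h3' j]
    have f1 : ∑ l, (if i = l then (1 : ℤ) else 0) * (if l = j then (1 : ℤ) else 0) =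
        if i = j then 1 else 0 := by
      simp [Finset.sum_ite_eq]
    have f2 : ∑ l, (if i = l then (1 : ℤ) else 0) * ∑ k, a l j k = ∑ k, a i j k := by
      simp [Finset.sum_ite_eq]
    have f3 : ∑ l, (∑ k, a i l k) * (if l = j then (1 : ℤ) else 0) = ∑ k, a i j k := by
      simp [Finset.sum_ite_eq']
    have f4 : ∑ l, (if i = l then (1 : ℤ) else 0) = 1 := by
      simp [Finset.sum_ite_eq]
    have f5 : ∑ l, (if l = j then (1 : ℤ) else 0) = 1 := by
      simp [Finset.sum_ite_eq']
    have f6 : ∑ _l : Fin 49, (4225 : ℤ) = 207025 := by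
      rw [Finset.sum_const, Finset.card_univ, Fintype.card_fin]
      norm_num
    rw [f1, f2, f3, f4, f5, f6]
    ring

end H60GQ
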