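import Pool.Agent.H60.GA.NoAM5
import Pool.Agent.H60.GA.NoAR5
import Pool.Agent.H60.GA.Herm
import Pool.Agent.H60.GA.Compare

/-!
Project GQ part 4, module Alpha5: the number of points mapped to a collinear point by an automorphism of
order 5 without fixed points.

`O`, `D` from `ring5`, `M` from `noA_M5` (`κ = 16`), `R` from `noA_R5` (`κ = 784`). `herm_fact` for `M` and for
`R` (`O = ℤ`, `c = RingHom.id ℤ`). `trace M = trace (Yᴴ B Y) = trace (B (Y Yᴴ)) = 16 b` in `O`,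
`trace R = 784 b'` in `ℤ`. Modulo 5 (`D.φ`, `Int.castRingHom (ZMod 5)`): `R = 49 φ(M)` (`65 = 0`,
`147 = 49 * 3`), the determinants are not 0 as they divide `16^b`, `784^b'`, so `compare` with
`κ = (49 : ZMod 5) ≠ 0` gives `b' = b` (see NoA.lean for all these steps, it is the same construction).
Let `α = ∑ i, a i i 1`, `β = ∑ i, a i i 2`; by `h1` `a i i 4 = a i i 1`, `a i i 3 = a i i 2`.
`trace R = 49 * 147 + 49 * 65 - 49 (2 α + 2 β) = 784 b`, so `212 - 2 α - 2 β = 16 b`.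
`trace M = 147 - α (z + z^4) - β (z^2 + z^3) = 16 b`, with `z^2 + z^3 = -1 - (z + z^4)`:
`(α - β) u = 147 + β - 16 b` for `u = z + z^4`, `u^2 = 1 - u`. With `d = α - β`, `m = 147 + β - 16 b`
(integers): `d^2 (1 - u) = m^2`, so `d^2 - d m = m^2` in `O`, and in `ℤ` (`D.inj`): `(2 d - m)^2 = 5 m^2`, so
`m = 0` (5 is not a square of a rational number; infinite descent or `Nat.Prime.irrational_sqrt`,
or `Int.sq_eq_...`) and `d = 0`. So `α = β`, `16 b = 147 + α = 212 - 4 α`, `α = 13`.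
-/

namespace H60GQ

open Finset Matrix

private theorem Alpha5_dvd {O : Type*} [CommRing O] {b : ℕ} (B G : Matrix (Fin b) (Fin b) O)
    (κ : O) (h : B * G = κ • (1 : Matrix (Fin b) (Fin b) O)) : B.det ∣ κ ^ b := by
  have h1 := congrArg Matrix.det h
  rw [Matrix.det_mul, Matrix.det_smul, Matrix.det_one, mul_one, Fintype.card_fin] at h1
  exact ⟨G.det, h1.symm⟩

private theorem Alpha5_map_ne {R : Type*} [CommRing R] (f : R →+* ZMod 5) {b : ℕ}
    (B : Matrix (Fin b) (Fin b) R) (κ : R) (hd : B.det ∣ κ ^ b) (hκ : f κ ≠ 0) :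
    (B.map f).det ≠ 0 := by
  have : Fact (Nat.Prime 5) := ⟨by norm_num⟩
  have h1 : (B.map f).det = f B.det := (RingHom.map_det f B).symm
  rw [h1]
  intro h0
  obtain ⟨x, hx⟩ := hd
  have h2 : f κ ^ b = 0 := by
    rw [← map_pow, hx, map_mul, h0, zero_mul]
  exact pow_ne_zero b hκ h2

/-- the trace of `Yᴴ B Y` -/
private theorem Alpha5_trace {O : Type*} [CommRing O] {n b : ℕ} (Y : Matrix (Fin b) (Fin n) O)
    (X : Matrix (Fin n) (Fin b) O) (B : Matrix (Fin b) (Fin b) O) (κ : O)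
    (h : B * (Y * X) = κ • (1 : Matrix (Fin b) (Fin b) O)) : (X * B * Y).trace = κ * b := by
  have h1 : (X * B * Y).trace = (B * (Y * X)).trace := by
    rw [Matrix.mul_assoc, Matrix.trace_mul_comm, Matrix.mul_assoc]
  rw [h1, h, Matrix.trace_smul, Matrix.trace_one, Fintype.card_fin, smul_eq_mul]

private theorem Alpha5_49 : (49 : ZMod 5) ≠ 0 := by decide

private theorem Alpha5_sum5 {R : Type*} [AddCommMonoid R] (f : ZMod 5 → R) :
    ∑ k, f k = f 0 + f 1 + f 2 + f 3 + f 4 := by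
  exact Fin.sum_univ_five f

private theorem Alpha5_irr (x y : ℤ) (h : x ^ 2 = 5 * y ^ 2) : y = 0 := by
  by_contra hy
  have hp : Nat.Prime 5 := by norm_num
  apply hp.irrational_sqrt
  refine ⟨|(x : ℚ) / y|, ?_⟩
  have hy' : (y : ℝ) ≠ 0 := by exact_mod_cast hy
  have h' : (x : ℝ) ^ 2 = 5 * (y : ℝ) ^ 2 := by exact_mod_cast h
  have h2 : ((x : ℝ) / y) ^ 2 = 5 := by
    rw [div_pow, h', mul_div_assoc, div_self (pow_ne_zero 2 hy'), mul_one]
  push_cast
  rw [← Real.sqrt_sq_eq_abs, h2]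

/-- the arithmetic in the ring -/
private theorem Alpha5_arith {O : Type} [CommRing O] (D : Ring5 O) (α β b : ℤ)
    (hM : 147 - (α : O) * (D.z + D.z ^ 4) - (β : O) * (D.z ^ 2 + D.z ^ 3) = 16 * (b : O)) :
    α = β ∧ 16 * b = 147 + β := by
  have hs := D.z_sum
  simp only [Finset.sum_range_succ, Finset.sum_range_zero, zero_add, pow_zero, pow_one] at hs
  have h5 : D.z ^ 5 = 1 := by linear_combination (D.z - 1) * hs
  obtain ⟨d, hd⟩ : ∃ d : ℤ, d = α - β := ⟨_, rfl⟩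
  obtain ⟨m, hm⟩ : ∃ m : ℤ, m = 147 + β - 16 * b := ⟨_, rfl⟩
  have e1 : (d : O) * (D.z + D.z ^ 4) = (m : O) := by
    rw [hd, hm]
    push_cast
    linear_combination (-1 : O) * hM - (β : O) * hs
  have e2 : (D.z + D.z ^ 4) ^ 2 = 1 - (D.z + D.z ^ 4) := by
    linear_combination hs + (2 + D.z ^ 3) * h5
  have e3 : ((d ^ 2 - d * m : ℤ) : O) = ((m ^ 2 : ℤ) : O) := by
    push_cast
    have e4 : (m : O) ^ 2 = (d : O) ^ 2 * (1 - (D.z + D.z ^ 4)) := by
      rw [← e1, mul_pow, e2]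
    rw [e4, ← e1]
    ring
  have e5 : d ^ 2 - d * m = m ^ 2 := D.inj e3
  have e6 : (2 * d - m) ^ 2 = 5 * m ^ 2 := by linarith
  have e7 : m = 0 := Alpha5_irr _ _ e6
  rw [e7] at e5
  have e8 : d = 0 := by
    have : d ^ 2 = 0 := by linarith
    exact pow_eq_zero_iff (two_ne_zero) |>.1 this
  constructor <;> omega

theorem alpha5 (a : Fin 49 → Fin 49 → ZMod 5 → ℤ) (h1 : ∀ i j k, a j i (-k) = a i j k)
    (h2 : ∀ i j k, ∑ l, ∑ m, a i l m * a l j (k - m) =
      39 * (if i = j ∧ k = 0 then 1 else 0) - 10 * a i j k + 13)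
    (h3 : ∀ i, ∑ j, ∑ k, a i j k = 52) (h0 : ∀ i, a i i 0 = 0) : ∑ i, a i i 1 = 13 := by
  obtain ⟨O, _, _, _, ⟨D⟩⟩ := ring5
  obtain ⟨R, hR, hRt, hRR⟩ := noA_R5 a h1 h2 h3
  obtain ⟨M, hM, hMφ, hMt, hMM⟩ := noA_M5 D a h1 h2
  obtain ⟨b, Y, Z, B, hYZ, hMf, hBZ, hBt, hBd, hBG⟩ := herm_fact D.c D.c_c M hMt 16 hMM
  have hRt' : (R.map (RingHom.id ℤ))ᵀ = R := by
    rw [show (R.map (RingHom.id ℤ)) = R from by ext i j; rfl]
    exact hRt
  obtain ⟨b', Y', Z', B', hYZ', hMf', hBZ', hBt', hBd', hBG'⟩ :=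
    herm_fact (RingHom.id ℤ) (fun _ => rfl) R hRt' 784 hRR
  have hYid : Y'.map (RingHom.id ℤ) = Y' := by ext i j; rfl
  rw [hYid] at hMf' hBG'
  have hdvd := Alpha5_dvd B _ 16 hBG
  have hdvd' := Alpha5_dvd B' _ 784 hBG'
  have hc16 : D.φ 16 ≠ 0 := by
    rw [map_ofNat]
    decide
  have hc784 : (Int.castRingHom (ZMod 5)) 784 ≠ 0 := by
    rw [map_ofNat]
    decide
  have hB0 := Alpha5_map_ne D.φ B 16 hdvd hc16
  have hB0' := Alpha5_map_ne (Int.castRingHom (ZMod 5)) B' 784 hdvd' hc784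
  have hYZm : Y.map D.φ * Z.map D.φ = 1 := by
    rw [← Matrix.map_mul, hYZ, Matrix.map_one _ (map_zero _) (map_one _)]
  have hYZm' : Y'.map (Int.castRingHom (ZMod 5)) * Z'.map (Int.castRingHom (ZMod 5)) = 1 := by
    rw [← Matrix.map_mul, hYZ', Matrix.map_one _ (map_zero _) (map_one _)]
  have hRm : R.map (Int.castRingHom (ZMod 5)) = (49 : ZMod 5) • M.map D.φ := by
    ext i j
    rw [Matrix.map_apply, Matrix.smul_apply, Matrix.map_apply, hMφ i j, hR i j]
    simp only [eq_intCast, smul_eq_mul]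
    push_cast
    have e147 : (147 : ZMod 5) = 49 * 3 := by decide
    have e65 : (65 : ZMod 5) = 0 := by decide
    rw [e147, e65]
    split_ifs <;> ring
  have hh : (Y'.map (Int.castRingHom (ZMod 5)))ᵀ * B'.map (Int.castRingHom (ZMod 5)) *
      Y'.map (Int.castRingHom (ZMod 5)) =
      (49 : ZMod 5) • ((Y.map D.φ)ᵀ * B.map D.φ * Y.map D.φ) := by
    have e1 : (Y'.map (Int.castRingHom (ZMod 5)))ᵀ * B'.map (Int.castRingHom (ZMod 5)) *
        Y'.map (Int.castRingHom (ZMod 5)) = R.map (Int.castRingHom (ZMod 5)) := by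
      conv_rhs => rw [hMf']
      rw [Matrix.map_mul, Matrix.map_mul, Matrix.transpose_map]
    have e2 : (Y.map D.φ)ᵀ * B.map D.φ * Y.map D.φ = M.map D.φ := by
      conv_rhs => rw [hMf]
      rw [Matrix.map_mul, Matrix.map_mul, Matrix.transpose_map, Matrix.map_map]
      have e3 : Y.map (D.φ ∘ D.c) = Y.map D.φ := by
        ext i j
        exact D.φ_c (Y i j)
      rw [e3]
    rw [e1, e2, hRm]
  have : Fact (Nat.Prime 5) := ⟨by norm_num⟩
  have h49 : (49 : ZMod 5) ≠ 0 := Alpha5_49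
  obtain ⟨hbb, -⟩ := compare (Y.map D.φ) (Z.map D.φ) (B.map D.φ) hYZm hB0
    (Y'.map (Int.castRingHom (ZMod 5))) (Z'.map (Int.castRingHom (ZMod 5)))
    (B'.map (Int.castRingHom (ZMod 5))) hYZm' hB0' 49 h49 hh
  subst hbb
  have tR : R.trace = 784 * (b' : ℤ) := by
    conv_lhs => rw [hMf']
    exact Alpha5_trace Y' Y'ᵀ B' 784 hBG'
  have tM : M.trace = 16 * (b' : O) := by
    conv_lhs => rw [hMf]
    exact Alpha5_trace Y (Y.map D.c)ᵀ B 16 hBG
  have h14 : ∀ i, a i i 4 = a i i 1 := fun i => h1 i i 1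
  have h23 : ∀ i, a i i 3 = a i i 2 := fun i => h1 i i 2
  have sR : R.trace = 49 * (147 + 65) - 49 * (2 * ∑ i, a i i 1 + 2 * ∑ i, a i i 2) := by
    have e1 : ∀ i, R i i = (147 + 65) - 49 * (2 * a i i 1 + 2 * a i i 2) := by
      intro i
      rw [hR i i, if_pos rfl, Alpha5_sum5, h0 i, h14 i, h23 i]
      ring
    rw [Matrix.trace]
    simp only [Matrix.diag_apply, e1]
    rw [Finset.sum_sub_distrib, Finset.sum_const, Finset.card_univ, Fintype.card_fin,
      ← Finset.mul_sum, Finset.sum_add_distrib, ← Finset.mul_sum, ← Finset.mul_sum]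
    simp
  have sM : M.trace = 147 - ((∑ i, a i i 1 : ℤ) : O) * (D.z + D.z ^ 4)
      - ((∑ i, a i i 2 : ℤ) : O) * (D.z ^ 2 + D.z ^ 3) := by
    have e1 : ∀ i, M i i = 3 - (a i i 1 : O) * (D.z + D.z ^ 4)
        - (a i i 2 : O) * (D.z ^ 2 + D.z ^ 3) := by
      intro i
      rw [hM i i, if_pos rfl, Alpha5_sum5, h0 i, h14 i, h23 i]
      have v0 : (0 : ZMod 5).val = 0 := rfl
      have v1 : (1 : ZMod 5).val = 1 := rfl
      have v2 : (2 : ZMod 5).val = 2 := rfl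
      have v3 : (3 : ZMod 5).val = 3 := rfl
      have v4 : (4 : ZMod 5).val = 4 := rfl
      rw [v0, v1, v2, v3, v4]
      push_cast
      ring
    rw [Matrix.trace]
    simp only [Matrix.diag_apply, e1]
    rw [Finset.sum_sub_distrib, Finset.sum_sub_distrib, Finset.sum_const, Finset.card_univ,
      Fintype.card_fin, ← Finset.sum_mul, ← Finset.sum_mul]
    push_cast
    ring
  obtain ⟨hab, hb⟩ := Alpha5_arith D (∑ i, a i i 1) (∑ i, a i i 2) (b' : ℤ) (by
    rw [← sM, tM]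
    push_cast
    ring)
  rw [sR] at tR
  omega

end H60GQ
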