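import Pool.Agent.H60.GA.FixCases

/-!
Project GQ part 4, module FixCases2: the fixed structure for the orders 11 and 13.

* `k ^ q = 1`: apply `IsAut.line_one` to `IsAut.pow`. Fixed lines are full by `fix_line_full`.
* `fix11`: `q = 11`. There is a fixed point since 11 does not divide 245 (`fix_card`, `IsGQ.card_points`; if
  `P` is empty then `g = 1`); fixed points are on `≡ 13 ≡ 2` mod 11 fixed lines (`fix_pt_lines`), so on 2 or
  13, at least 2. `fix_gq` gives `m` with `m + 1 ∈ {2, 13}`; if `m = 12` then `main_sub` (file
  GQ/MainSub.lean) gives `g = 1`.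
* `fix13`: `q = 13`. Fixed points are on 0 or 13 fixed lines. If there is a fixed line `l` then its points
  are fixed; a fixed point `x` not on `l` is on the fixed line which joins it to its projection on `l`
  (it is fixed by uniqueness); a fixed point on `l` is on the fixed line `l`. So every fixed point is on
  at least one, hence on 13 fixed lines, and `thick_one` gives `g = 1`.
* `fix13_card`: the number of fixed points is `≡ 245 ≡ 11` mod 13, so at least 11.
-/

namespace H60GQ

open Finset

universe u v

variable {P : Type u} {L : Type v} {I : P → L → Prop}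

theorem fix11 [Finite P] [Finite L] (h : IsGQ I 4 12) {g : Equiv.Perm P} {k : Equiv.Perm L}
    (ha : IsAut I g k) (h11 : g ^ 11 = 1) : g = 1 ∨ SubGQ I (FP g) {l | k l = l} 4 1 := by
  have hq : Nat.Prime 11 := by norm_num
  by_cases hP : Nonempty P
  · have hk : k ^ 11 = 1 := (ha.pow 11).line_one h (by norm_num) h11
    have hfull : ∀ l, k l = l → ∀ x, I x l → g x = x := fun l hl x hx =>
      fix_line_full h ha hq (by norm_num) h11 hl hx
    have hcard : Nat.card P = 245 := by
      rw [h.card_points]
    have hc := fix_card (g := g) hq h11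
    rw [hcard] at hc
    have hne : (FP g).Nonempty := by
      rw [Set.nonempty_iff_ne_empty]
      intro he
      rw [he, Set.ncard_empty] at hc
      unfold Nat.ModEq at hc
      omega
    have h2 : ∀ x, g x = x → 2 ≤ {l | k l = l ∧ I x l}.ncard := by
      intro x hx
      have h3 := fix_pt_lines h ha hq hk hx
      unfold Nat.ModEq at h3
      omega
    obtain ⟨m, hsub, hm⟩ := fix_gq h ha hfull hne h2
    obtain ⟨x, hx⟩ := hne
    have hx' : g x = x := hx
    have h4 := hm x hx'
    have h5 := fix_pt_lines h ha hq hk hx'
    have h6 : {l | k l = l ∧ I x l}.ncard ≤ {l | I x l}.ncard :=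
      Set.ncard_le_ncard (fun l hl => hl.2) (Set.toFinite _)
    rw [h.point_card, h4] at h6
    rw [h4] at h5
    unfold Nat.ModEq at h5
    have h7 : m = 1 ∨ m = 12 := by omega
    rcases h7 with h7 | h7
    · right
      rw [h7] at hsub
      exact hsub
    · left
      rw [h7] at hsub
      have h8 := (main_sub h (Or.inr rfl) hsub (by norm_num) (by norm_num)).1
      ext y
      have hy : y ∈ FP g := by
        rw [h8]
        exact Set.mem_univ y
      exact hy
  · left
    ext y
    exact (hP ⟨y⟩).elim

theorem fix13 [Finite P] [Finite L] (h : IsGQ I 4 12) {g : Equiv.Perm P} {k : Equiv.Perm L}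
    (ha : IsAut I g k) (h13 : g ^ 13 = 1) : g = 1 ∨ ∀ l, k l ≠ l := by
  have hq : Nat.Prime 13 := by norm_num
  by_cases hl : ∃ l, k l = l
  · left
    obtain ⟨l, hl⟩ := hl
    have hk : k ^ 13 = 1 := (ha.pow 13).line_one h (by norm_num) h13
    have hfull : ∀ l, k l = l → ∀ x, I x l → g x = x := fun l hl x hx =>
      fix_line_full h ha hq (by norm_num) h13 hl hx
    have hne : (FP g).Nonempty := by
      have h1 : {p | I p l}.ncard = 4 + 1 := h.line_card l
      have h2 : {p | I p l}.Nonempty := by
        rw [Set.nonempty_iff_ne_empty]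
        intro he
        rw [he, Set.ncard_empty] at h1
        omega
      obtain ⟨p, hp⟩ := h2
      exact ⟨p, hfull l hl p hp⟩
    refine thick_one h ha hfull hne ?_
    intro x hx
    have h3 := fix_pt_lines h ha hq hk hx
    have h4 : ∃ n, k n = n ∧ I x n := by
      by_cases hxl : I x l
      · exact ⟨l, hl, hxl⟩
      · obtain ⟨r, ⟨hr1, hr2, hr3⟩, hu⟩ := h.proj x l hxl
        refine ⟨r.2, ?_, hr2⟩
        have h5 : (g r.1, k r.2) = r := by
          apply hu
          refine ⟨?_, ?_, ?_⟩
          · have h6 := (ha r.1 l).2 hr1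
            rw [hl] at h6
            exact h6
          · have h6 := (ha x r.2).2 hr2
            rw [hx] at h6
            exact h6
          · exact (ha r.1 r.2).2 hr3
        exact congrArg Prod.snd h5
    obtain ⟨n, hn1, hn2⟩ := h4
    have h5 : 0 < {l | k l = l ∧ I x l}.ncard :=
      (Set.ncard_pos (Set.toFinite _)).2 ⟨n, hn1, hn2⟩
    unfold Nat.ModEq at h3
    omega
  · right
    intro l hl'
    exact hl ⟨l, hl'⟩

theorem fix13_card [Finite P] [Finite L] [Nonempty P] (h : IsGQ I 4 12) {g : Equiv.Perm P}
    (h13 : g ^ 13 = 1) : 11 ≤ (FP g).ncard := by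
  have hq : Nat.Prime 13 := by norm_num
  have hcard : Nat.card P = 245 := by
    rw [h.card_points]
  have hc := fix_card (g := g) hq h13
  rw [hcard] at hc
  unfold Nat.ModEq at hc
  omega

end H60GQ
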