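import Pool.Agent.H60.GA.Srg
import Pool.Agent.H60.GA.FixCases2

/-!
Project GQ part 4, module Case11: no automorphism of order 11.

Suppose `g ≠ 1`, `g^11 = 1`. By `fix11` the fixed structure is a subquadrangle of order `(4, 1)` (a grid
with 5 * 5 points; 10 lines, each point on 2 of them). Let `x` be a point which is not fixed. By `ovoid`
(file GQ/Full.lean) the set `O` of fixed points collinear with `x` meets every fixed line in exactly one
point and `|O| = 5` (`ovoid_card`). Put `b y = -4` for `y ∈ O`, `b y = 1` for the other 20 fixed points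
(so `b y = RR I x y`), `b = 0` outside the grid.
Facts: (1) for a fixed `y`: `∑_{y' fixed} RR I y y' b y' = 25 b y`.
  `y ∈ O`: 16 * (-4) + 8 collinear grid points, none in O (`y` is the only point of O on its two lines):
  (-4) * 8 * 1 = -32; 16 non-collinear grid points, 4 in O and 12 not: -16 + 12 = -4; total -100.
  `y ∉ O`: 16 + collinear: 2 in O, 6 not: -4 (-8 + 6) = 8; non-collinear: 3 in O, 13 not: 1; total 25.
  (In words: `∑ over a grid line of b = 0`: 4 * 1 - 4. So the sum over the collinear points `≠ y` is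
  `-2 b y` and the sum over all points is 0, the sum over the non-collinear ones is `b y`:
  `16 b + 8 b + b = 25 b`. This is the easiest way.)
(2) `∑ b y^2 = 5 * 16 + 20 = 100`, so `∑∑ b y b y' RR I y y' = 2500`.
(3) for the orbit: `∑_{i,j < 11} RR I (g^i x) (g^j x) ≤ 11 * (16 + 10) = 286`: for given `i` the points
  `g^j x` (`j < 11`) are different from each other (`g^j x = x` with `0 < j < 11` would give `g x = x`), so
  the term `j = i` is 16 and the others are at most 1.
(4) `∑_{i < 11} ∑_y b y RR I (g^i x) y = 11 * 100`, as `RR I (g^i x) y = RR I (g^i x) (g^i y) = b y`.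
Apply `gram_nonneg` to `c = 25 * (number of i < 11 with z = g^i x) - 11 * b z`:
`0 ≤ 625 * 286 - 2 * 25 * 11 * 1100 + 121 * 2500 = 178750 - 605000 + 302500 < 0`, a contradiction.
-/

namespace H60GQ

open Finset

universe u v

variable {P : Type u} {L : Type v} {I : P → L → Prop}

private lemma Case11_card {α : Type*} [Fintype α] (p : α → Prop) [DecidablePred p] :
    (Finset.univ.filter p).card = {x | p x}.ncard := by
  rw [Set.ncard_eq_toFinset_card', Set.toFinset_ofPred]

/-- powers of `g` below the order 11 are distinct at a point which is not fixed -/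
private lemma Case11_inj {g : Equiv.Perm P} (h11 : g ^ 11 = 1) {x : P} (hx : g x ≠ x) {i j : ℕ}
    (hi : i < 11) (hj : j < 11) (he : (g ^ i) x = (g ^ j) x) : i = j := by
  have hper : Function.IsPeriodicPt g 11 x := by
    change (g : P → P)^[11] x = x
    rw [Equiv.Perm.iterate_eq_pow, h11]
    rfl
  have hm := hper.minimalPeriod_dvd
  have hm1 : Function.minimalPeriod g x = 11 := by
    rcases (Nat.dvd_prime (by norm_num)).1 hm with h1 | h1
    · exfalso
      apply hx
      have := Function.minimalPeriod_eq_one_iff_isFixedPt.1 h1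
      exact this
    · exact h1
  have hinj := Function.iterate_injOn_Iio_minimalPeriod (f := g) (x := x)
  apply hinj
  · rw [hm1]; exact hi
  · rw [hm1]; exact hj
  · change (g : P → P)^[i] x = (g : P → P)^[j] x
    rw [Equiv.Perm.iterate_eq_pow, Equiv.Perm.iterate_eq_pow]
    exact he

private lemma Case11_RR_le (x y : P) (hxy : x ≠ y) : RR I x y ≤ 1 := by
  unfold RR
  rw [if_neg hxy]
  split_ifs <;> norm_num

open Classical in
/-- sums over the points of the subquadrangle and sums over its lines -/
private lemma Case11_double [Fintype P] [Fintype L] (h : IsGQ I 4 12) {P' : Set P} {L' : Set L}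
    (hs : SubGQ I P' L' 4 1) (f : P → ℤ) :
    ∑ l ∈ univ.filter (fun l => l ∈ L'), ∑ y ∈ univ.filter (fun y => I y l), f y =
      2 * ∑ y ∈ univ.filter (fun y => y ∈ P'), f y := by
  rw [Finset.sum_comm' (t' := univ.filter (fun y => y ∈ P'))
    (s' := fun y => univ.filter (fun l => l ∈ L' ∧ I y l))]
  · rw [Finset.mul_sum]
    refine Finset.sum_congr rfl fun y hy => ?_
    rw [Finset.sum_const, Case11_card, hs.pc (Finset.mem_filter.1 hy).2]
    simp
  · intro l y
    simp only [Finset.mem_filter, Finset.mem_univ, true_and]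
    constructor
    · rintro ⟨h1, h2⟩
      exact ⟨⟨h1, h2⟩, hs.full h h1 h2⟩
    · rintro ⟨⟨h1, h2⟩, h3⟩
      exact ⟨h1, h2⟩

open Classical in
/-- sums over the neighbours in the subquadrangle -/
private lemma Case11_nbr [Fintype P] [Fintype L] (h : IsGQ I 4 12) {P' : Set P} {L' : Set L}
    (hs : SubGQ I P' L' 4 1) (f : P → ℤ) (hf : ∀ y, y ∉ P' → f y = 0)
    (hl : ∀ l ∈ L', ∑ y ∈ univ.filter (fun y => I y l), f y = 0) {y : P} (hy : y ∈ P') :
    ∑ z, adj I y z * f z = -2 * f y := by
  have h1 : ∑ z, adj I y z * f z =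
      ∑ z ∈ univ.filter (fun z => z ∈ P' ∧ z ≠ y ∧ Col I y z), f z := by
    rw [Finset.sum_filter]
    refine Finset.sum_congr rfl fun z _ => ?_
    unfold adj
    by_cases hz : z ∈ P'
    · by_cases h2 : y ≠ z ∧ Col I y z
      · rw [if_pos h2, if_pos ⟨hz, h2.1.symm, h2.2⟩, one_mul]
      · rw [if_neg h2, if_neg (fun h3 => h2 ⟨h3.2.1.symm, h3.2.2⟩), zero_mul]
    · rw [hf z hz, mul_zero, if_neg (fun h3 => hz h3.1)]
  have h2 : univ.filter (fun z => z ∈ P' ∧ z ≠ y ∧ Col I y z) =
      (univ.filter (fun l => l ∈ L' ∧ I y l)).biUnion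
        (fun l => (univ.filter (fun z => I z l)).erase y) := by
    ext z
    simp only [Finset.mem_filter, Finset.mem_univ, true_and, Finset.mem_biUnion, Finset.mem_erase]
    constructor
    · rintro ⟨hz, hzy, l, h3, h4⟩
      exact ⟨l, ⟨hs.line_mem h hy hz hzy.symm h3 h4, h3⟩, hzy, h4⟩
    · rintro ⟨l, ⟨h3, h4⟩, h5, h6⟩
      exact ⟨hs.full h h3 h6, h5, l, h4, h6⟩
  rw [h1, h2, Finset.sum_biUnion]
  · have h3 : ∀ l ∈ univ.filter (fun l => l ∈ L' ∧ I y l),
        ∑ z ∈ (univ.filter (fun z => I z l)).erase y, f z = -f y := by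
      intro l hl'
      rw [Finset.mem_filter] at hl'
      have h4 := Finset.add_sum_erase (univ.filter (fun z => I z l)) f
        (Finset.mem_filter.2 ⟨Finset.mem_univ y, hl'.2.2⟩)
      rw [hl l hl'.2.1] at h4
      linarith
    rw [Finset.sum_congr rfl h3, Finset.sum_const, Case11_card, hs.pc hy]
    simp
  · intro l h3 l' h4 hne
    simp only [Finset.coe_filter, Set.mem_ofPred_eq, Finset.mem_univ, true_and] at h3 h4
    rw [Function.onFun, Finset.disjoint_left]
    intro z h5 h6
    simp only [Finset.mem_erase, Finset.mem_filter, Finset.mem_univ, true_and] at h5 h6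
    exact hne (h.unique y z l l' h5.1.symm h3.2 h5.2 h4.2 h6.2)

private lemma Case11_RR_eq [DecidableEq P] (x y : P) :
    RR I x y = 15 * (if x = y then 1 else 0) - 5 * adj I x y + 1 := by
  classical
  unfold RR adj
  by_cases h1 : x = y
  · subst h1
    simp
  · by_cases h2 : Col I x y
    · simp [h1, h2]
    · simp [h1, h2]

open Classical in
/-- the sum over a line of the grid -/
private lemma Case11_line [Fintype P] [Fintype L] (h : IsGQ I 4 12) {P' : Set P} {L' : Set L}
    (hs : SubGQ I P' L' 4 1) {x : P} (hx : x ∉ P') (F : ℤ → ℤ) {l : L} (hl : l ∈ L') :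
    ∑ y ∈ univ.filter (fun y => I y l), F (RR I x y) = F (-4) + 4 * F 1 := by
  obtain ⟨q, ⟨⟨hq1, hq2⟩, hq3⟩, hu⟩ := (ovoid h hs hx).2 l hl
  have hcard : (univ.filter (fun y => I y l)).card = 5 := by
    rw [Case11_card, h.line_card]
  have hqm : q ∈ univ.filter (fun y => I y l) := Finset.mem_filter.2 ⟨Finset.mem_univ _, hq3⟩
  rw [← Finset.add_sum_erase _ _ hqm]
  have h1 : RR I x q = -4 := by
    unfold RR
    rw [if_neg (fun e => hx (by rw [e]; exact hq1)), if_pos hq2.symm]
  have h2 : ∀ y ∈ (univ.filter (fun y => I y l)).erase q, F (RR I x y) = F 1 := by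
    intro y hy
    rw [Finset.mem_erase, Finset.mem_filter] at hy
    have hyP := hs.full h hl hy.2.2
    congr 1
    unfold RR
    rw [if_neg (fun e => hx (by rw [e]; exact hyP)), if_neg]
    intro hc
    exact hy.1 (hu y ⟨⟨hyP, hc.symm⟩, hy.2.2⟩)
  rw [h1, Finset.sum_congr rfl h2, Finset.sum_const, Finset.card_erase_of_mem hqm, hcard]
  simp

theorem case11 [Finite P] [Finite L] (h : IsGQ I 4 12) {g : Equiv.Perm P} {k : Equiv.Perm L}
    (ha : IsAut I g k) (h11 : g ^ 11 = 1) : g = 1 := by
  classical
  have := Fintype.ofFinite P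
  have := Fintype.ofFinite L
  rcases fix11 h ha h11 with h1 | hs
  · exact h1
  by_contra hg
  obtain ⟨x, hx⟩ : ∃ x, g x ≠ x := by
    by_contra hcon
    push Not at hcon
    apply hg
    ext y
    exact hcon y
  have hxP : x ∉ FP g := hx
  obtain ⟨b, hb⟩ : ∃ b : P → ℤ, b = fun y => if y ∈ FP g then RR I x y else 0 := ⟨_, rfl⟩
  have hb1 : ∀ y, y ∈ FP g → b y = RR I x y := by
    intro y hy
    rw [hb]
    exact if_pos hy
  have hb0 : ∀ y, y ∉ FP g → b y = 0 := by
    intro y hy
    rw [hb]
    exact if_neg hy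
  have hbl : ∀ (F : ℤ → ℤ) (l : L), l ∈ {l | k l = l} →
      ∑ y ∈ univ.filter (fun y => I y l), F (b y) = F (-4) + 4 * F 1 := by
    intro F l hl
    rw [← Case11_line h hs hxP F hl]
    refine Finset.sum_congr rfl fun y hy => ?_
    rw [hb1 y (hs.full h hl (Finset.mem_filter.1 hy).2)]
  have hline : ∀ l ∈ {l | k l = l}, ∑ y ∈ univ.filter (fun y => I y l), b y = 0 := by
    intro l hl
    have := hbl id l hl
    simp only [id] at this
    rw [this]
    norm_num
  -- the total sum is zero
  have htot : ∀ f : P → ℤ, (∀ y, y ∉ FP g → f y = 0) →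
      ∑ y, f y = ∑ y ∈ univ.filter (fun y => y ∈ FP g), f y := by
    intro f hf
    rw [Finset.sum_filter]
    refine Finset.sum_congr rfl fun y _ => ?_
    by_cases hy : y ∈ FP g
    · rw [if_pos hy]
    · rw [if_neg hy, hf y hy]
  have hsum0 : ∑ y, b y = 0 := by
    rw [htot b hb0]
    have h1 := Case11_double h hs b
    rw [Finset.sum_eq_zero (fun l hl => hline l (Finset.mem_filter.1 hl).2)] at h1
    linarith
  have hsq : ∑ y, b y * b y = 100 := by
    rw [htot (fun y => b y * b y) (fun y hy => by rw [hb0 y hy, mul_zero])]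
    have h1 := Case11_double h hs (fun y => b y * b y)
    have h2 : ∀ l ∈ univ.filter (fun l => l ∈ {l | k l = l}),
        ∑ y ∈ univ.filter (fun y => I y l), b y * b y = 20 := by
      intro l hl
      rw [hbl (fun v => v * v) l (Finset.mem_filter.1 hl).2]
      norm_num
    rw [Finset.sum_congr rfl h2, Finset.sum_const] at h1
    have h3 : (univ.filter (fun l => l ∈ {l | k l = l})).card = 10 := by
      rw [Case11_card]
      exact hs.card_lns
    rw [h3] at h1
    simp only [nsmul_eq_mul] at h1
    push_cast at h1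
    linarith
  -- the eigenvector equation
  have heig : ∀ y, y ∈ FP g → ∑ z, RR I y z * b z = 25 * b y := by
    intro y hy
    have h1 : ∀ z, RR I y z * b z =
        15 * ((if y = z then 1 else 0) * b z) - 5 * (adj I y z * b z) + b z := by
      intro z
      rw [Case11_RR_eq y z]
      ring
    simp only [h1]
    rw [Finset.sum_add_distrib, Finset.sum_sub_distrib, ← Finset.mul_sum, ← Finset.mul_sum, hsum0,
      Case11_nbr h hs b hb0 hline hy]
    simp
    ring
  have hbb : ∑ y, ∑ z, b y * b z * RR I y z = 2500 := by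
    have h1 : ∀ y, ∑ z, b y * b z * RR I y z = 25 * (b y * b y) := by
      intro y
      by_cases hy : y ∈ FP g
      · have h2 : ∑ z, b y * b z * RR I y z = b y * ∑ z, RR I y z * b z := by
          rw [Finset.mul_sum]
          exact Finset.sum_congr rfl fun z _ => by ring
        rw [h2, heig y hy]
        ring
      · simp [hb0 y hy]
    simp only [h1]
    rw [← Finset.mul_sum, hsq]
    norm_num
  -- the orbit
  obtain ⟨N, hN⟩ : ∃ N : P → ℤ, N = fun z => ∑ i ∈ range 11, if (g ^ i) x = z then 1 else 0 :=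
    ⟨_, rfl⟩
  have hNs : ∀ f : P → ℤ, ∑ z, N z * f z = ∑ i ∈ range 11, f ((g ^ i) x) := by
    intro f
    rw [hN]
    simp only [Finset.sum_mul]
    rw [Finset.sum_comm]
    refine Finset.sum_congr rfl fun i _ => ?_
    simp
  have hNN : ∑ y, ∑ z, N y * N z * RR I y z ≤ 286 := by
    have h1 : ∑ y, ∑ z, N y * N z * RR I y z =
        ∑ i ∈ range 11, ∑ j ∈ range 11, RR I ((g ^ i) x) ((g ^ j) x) := by
      have h2 : ∀ y, ∑ z, N y * N z * RR I y z = N y * ∑ j ∈ range 11, RR I y ((g ^ j) x) := by
        intro y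
        rw [← hNs (fun z => RR I y z), Finset.mul_sum]
        exact Finset.sum_congr rfl fun z _ => by ring
      simp only [h2]
      rw [hNs (fun y => ∑ j ∈ range 11, RR I y ((g ^ j) x))]
    rw [h1]
    have h3 : ∀ i ∈ range 11, ∑ j ∈ range 11, RR I ((g ^ i) x) ((g ^ j) x) ≤ 26 := by
      intro i hi
      rw [← Finset.add_sum_erase _ _ hi, RR_self]
      have h4 : ∑ j ∈ (range 11).erase i, RR I ((g ^ i) x) ((g ^ j) x) ≤
          ∑ j ∈ (range 11).erase i, (1 : ℤ) := by
        refine Finset.sum_le_sum fun j hj => ?_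
        rw [Finset.mem_erase] at hj
        apply Case11_RR_le
        intro he
        exact hj.1 (Case11_inj h11 hx (Finset.mem_range.1 hi) (Finset.mem_range.1 hj.2) he).symm
      have h5 : ∑ j ∈ (range 11).erase i, (1 : ℤ) = 10 := by
        rw [Finset.sum_const, Finset.card_erase_of_mem hi, Finset.card_range]
        norm_num
      rw [h5] at h4
      linarith
    refine (Finset.sum_le_sum h3).trans ?_
    rw [Finset.sum_const, Finset.card_range]
    norm_num
  have hNb : ∑ y, ∑ z, N y * b z * RR I y z = 1100 := by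
    have h2 : ∀ y, ∑ z, N y * b z * RR I y z = N y * ∑ z, b z * RR I y z := by
      intro y
      rw [Finset.mul_sum]
      exact Finset.sum_congr rfl fun z _ => by ring
    simp only [h2]
    rw [hNs (fun y => ∑ z, b z * RR I y z)]
    have h3 : ∀ i ∈ range 11, ∑ z, b z * RR I ((g ^ i) x) z = 100 := by
      intro i _
      rw [← hsq]
      refine Finset.sum_congr rfl fun z _ => ?_
      by_cases hz : z ∈ FP g
      · have h4 : (g ^ i) z = z := Equiv.Perm.pow_apply_eq_self_of_apply_eq_self hz i
        have h5 := (ha.pow i).RR x z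
        rw [h4] at h5
        rw [h5, hb1 z hz]
      · rw [hb0 z hz]
        ring
    rw [Finset.sum_congr rfl h3, Finset.sum_const, Finset.card_range]
    norm_num
  have hbN : ∑ y, ∑ z, b y * N z * RR I y z = 1100 := by
    rw [← hNb, Finset.sum_comm]
    refine Finset.sum_congr rfl fun y _ => Finset.sum_congr rfl fun z _ => ?_
    rw [RR_comm z y]
    ring
  have hfin := gram_nonneg h (fun z => 25 * N z - 11 * b z)
  have hexp : ∑ y, ∑ z, (25 * N y - 11 * b y) * (25 * N z - 11 * b z) * RR I y z =
      625 * ∑ y, ∑ z, N y * N z * RR I y z - 275 * ∑ y, ∑ z, N y * b z * RR I y z -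
        275 * ∑ y, ∑ z, b y * N z * RR I y z + 121 * ∑ y, ∑ z, b y * b z * RR I y z := by
    simp only [Finset.mul_sum, ← Finset.sum_sub_distrib, ← Finset.sum_add_distrib]
    refine Finset.sum_congr rfl fun y _ => Finset.sum_congr rfl fun z _ => ?_
    ring
  rw [hexp, hNb, hbN, hbb] at hfin
  linarith

end H60GQ
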