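import Pool.Agent.H60.GA.Srg
import Pool.Agent.H60.GA.FixCases2

/-!
Project GQ part 4, module Case13: no automorphism of order 13.

Suppose `g ≠ 1`, `g^13 = 1` (so `P` is nonempty). By `fix13` there is no fixed line, so two different
fixed points are not collinear (the line through them would be fixed). By `fix13_card` there are at least
11 fixed points; choose five different ones `y 0, ..., y 4`. Let `x` be a point collinear with `y 0` and
`y 1` (`IsGQ.common_card`: there are 13). `x` is not fixed (it is different from `y 0` and collinear with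
it). Let `b i = RR I x (y i)`: `b i = -4` if `Col I x (y i)`, `b i = 1` otherwise, `b 0 = b 1 = -4`; put
`σ = ∑ b i`. `RR I (y i) (y j)` is 16 if `i = j` and 1 otherwise.
Apply `gram_nonneg` to `c = 300 * (number of j < 13 with z = g^j x) - 13 * ∑_i (20 b i - σ) [z = y i]`.
With `w i = 20 b i - σ`:
* `∑_{i,j < 13} RR I (g^i x) (g^j x) ≤ 13 * (16 + 12) = 364` (as in Case11: `g^j x` are 13 different points);
* `∑_{j < 13} ∑_i w i RR I (g^j x) (y i) = 13 ∑ w i b i`;
* `∑∑ w i w j RR I (y i) (y j) = 15 ∑ w i^2 + (∑ w i)^2`.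
So `0 ≤ 90000 * 364 - 2 * 300 * 13 * 13 * ∑ w i b i + 169 * (15 ∑ w i^2 + (∑ w i)^2)`. Since
`∑ w i = 15 σ` and `15 ∑ w i^2 + (∑ w i)^2 = 300 ∑ w i b i` and `∑ w i b i = 20 ∑ b i^2 - σ^2`, this is
`0 ≤ 300 * (300 * 364 - 169 * (20 ∑ b i^2 - σ^2))`. With `r` = number of `i` with `b i = -4`
(2 ≤ r ≤ 5): `∑ b i^2 = 5 + 15 r`, `σ = 5 - 5 r`, `20 (5 + 15 r) - 25 (r - 1)^2` = 675, 900, 1075, 1200
for r = 2, 3, 4, 5, always ≥ 675, and 300 * 364 = 109200 < 169 * 675 = 114075. Contradiction.
(Case split on `b 2, b 3, b 4 ∈ {-4, 1}`.)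
-/

namespace H60GQ

open Finset

universe u v

variable {P : Type u} {L : Type v} {I : P → L → Prop}

/-- the quadratic form is nonnegative on weighted families of points -/
private theorem Case13_quad [Fintype P] [Finite L] (h : IsGQ I 4 12) {ι : Type} [Fintype ι]
    (f : ι → P) (u : ι → ℤ) : 0 ≤ ∑ a, ∑ b, u a * u b * RR I (f a) (f b) := by
  classical
  have h1 := gram_nonneg h (fun z => ∑ a, if f a = z then u a else 0)
  have h2 : (∑ x, ∑ y, (∑ a, if f a = x then u a else 0) * (∑ b, if f b = y then u b else 0) *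
      RR I x y) = ∑ a, ∑ b, u a * u b * RR I (f a) (f b) := by
    have h3 : ∀ x y, (∑ a, if f a = x then u a else 0) * (∑ b, if f b = y then u b else 0) *
        RR I x y = ∑ a, ∑ b, (if f a = x then u a else 0) * (if f b = y then u b else 0) *
          RR I x y := by
      intro x y
      rw [Finset.sum_mul_sum, Finset.sum_mul]
      exact Finset.sum_congr rfl fun a _ => Finset.sum_mul _ _ _
    simp only [h3]
    rw [Finset.sum_congr rfl fun x _ => Finset.sum_comm]
    rw [Finset.sum_comm]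
    refine Finset.sum_congr rfl fun a _ => ?_
    rw [Finset.sum_congr rfl fun x _ => Finset.sum_comm]
    rw [Finset.sum_comm]
    refine Finset.sum_congr rfl fun b _ => ?_
    rw [Finset.sum_eq_single (f a), Finset.sum_eq_single (f b)]
    · simp
    · intro y _ hy
      have hy2 : ¬ f b = y := fun e => hy e.symm
      rw [if_neg hy2]
      ring
    · intro hy
      exact absurd (Finset.mem_univ _) hy
    · intro x _ hx
      refine Finset.sum_eq_zero fun y _ => ?_
      have hx2 : ¬ f a = x := fun e => hx e.symm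
      rw [if_neg hx2]
      ring
    · intro hy
      exact absurd (Finset.mem_univ _) hy
  rw [← h2]
  exact h1

private theorem Case13_RR_le {x y : P} (hxy : x ≠ y) : RR I x y ≤ 1 := by
  unfold RR
  rw [if_neg hxy]
  split_ifs <;> norm_num

private theorem Case13_orbit {g : Equiv.Perm P} (h13 : g ^ 13 = 1) {x : P} (hx : g x ≠ x)
    {i j : ℕ} (hi : i < 13) (hj : j < 13) (hij : (g ^ i) x = (g ^ j) x) : i = j := by
  have h1 : Function.IsPeriodicPt g 13 x := by
    have : (g ^ 13) x = x := by rw [h13]; rfl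
    rw [Function.IsPeriodicPt, Function.IsFixedPt, Equiv.Perm.iterate_eq_pow]
    exact this
  have h2 : Function.minimalPeriod g x = 13 := by
    have h3 := h1.minimalPeriod_dvd
    rcases (Nat.dvd_prime (by norm_num : Nat.Prime 13)).1 h3 with h4 | h4
    · exact absurd (Function.minimalPeriod_eq_one_iff_isFixedPt.1 h4) hx
    · exact h4
  have h3 : Set.InjOn (fun n => (g : P → P)^[n] x) (Set.Iio (Function.minimalPeriod g x)) :=
    Function.iterate_injOn_Iio_minimalPeriod
  rw [h2] at h3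
  apply h3 (Set.mem_Iio.2 hi) (Set.mem_Iio.2 hj)
  simp only [Equiv.Perm.iterate_eq_pow]
  exact hij

private theorem Case13_five {S : Set P} (hS : 11 ≤ S.ncard) :
    ∃ y : Fin 5 → P, Function.Injective y ∧ ∀ i, y i ∈ S := by
  obtain ⟨T, hT, hc⟩ := Set.exists_subset_card_eq (s := S) (n := 5) (by omega)
  have hf : T.Finite := Set.finite_of_ncard_ne_zero (by omega)
  have := hf.fintype
  have hc2 : Fintype.card T = 5 := by
    rw [← hc, Set.ncard_eq_toFinset_card', Set.toFinset_card]
  let e := Fintype.equivFinOfCardEq hc2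
  exact ⟨fun i => (e.symm i).1, fun i j hij => e.symm.injective (Subtype.ext hij),
    fun i => hT (e.symm i).2⟩

private theorem Case13_num (S : ℤ) (hS : S ≤ 364) (b : Fin 5 → ℤ) (h0 : b 0 = -4) (h1 : b 1 = -4)
    (hb : ∀ i, b i = -4 ∨ b i = 1)
    (h : 0 ≤ 90000 * S - 2 * 300 * 13 * 13 * ∑ i, (20 * b i - ∑ j, b j) * b i +
      169 * (15 * ∑ i, (20 * b i - ∑ j, b j) ^ 2 + (∑ i, (20 * b i - ∑ j, b j)) ^ 2)) : False := by
  simp only [Fin.sum_univ_five, h0, h1] at h
  rcases hb 2 with h2 | h2 <;> rcases hb 3 with h3 | h3 <;> rcases hb 4 with h4 | h4 <;>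
    rw [h2, h3, h4] at h <;> norm_num at h <;> omega

theorem case13 [Finite P] [Finite L] (h : IsGQ I 4 12) {g : Equiv.Perm P} {k : Equiv.Perm L}
    (ha : IsAut I g k) (h13 : g ^ 13 = 1) : g = 1 := by
  classical
  have := Fintype.ofFinite P
  rcases fix13 h ha h13 with hg | hl
  · exact hg
  by_contra hg
  have hne : Nonempty P := by
    by_contra hP
    rw [not_nonempty_iff] at hP
    exact hg (Equiv.ext fun z => (hP.false z).elim)
  obtain ⟨y, hy1, hy2⟩ := Case13_five (fix13_card h h13)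
  have hfix : ∀ i, g (y i) = y i := fun i => hy2 i
  have hnc : ∀ p q : P, g p = p → g q = q → p ≠ q → ¬ Col I p q := by
    rintro p q hp hq hpq ⟨l, h1, h2⟩
    have h3 := (ha p l).2 h1
    have h4 := (ha q l).2 h2
    rw [hp] at h3
    rw [hq] at h4
    exact hl l (h.unique p q (k l) l hpq h3 h4 h1 h2)
  have hy01 : y 0 ≠ y 1 := fun e => by
    have := hy1 e
    exact absurd this (by decide)
  obtain ⟨x, hx0, hx1⟩ : {r | Col I (y 0) r ∧ Col I (y 1) r}.Nonempty := by
    apply Set.nonempty_of_ncard_ne_zero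
    rw [h.common_card (hnc _ _ (hfix 0) (hfix 1) hy01)]
    norm_num
  have hxf : g x ≠ x := by
    intro hx
    by_cases h1 : x = y 0
    · rw [h1] at hx1
      exact hnc _ _ (hfix 1) (hfix 0) hy01.symm hx1
    · exact hnc _ _ (hfix 0) hx (fun e => h1 e.symm) hx0
  have hxy : ∀ i, x ≠ y i := fun i e => hxf (by rw [e]; exact hfix i)
  have hb : ∀ i, RR I x (y i) = -4 ∨ RR I x (y i) = 1 := by
    intro i
    unfold RR
    rw [if_neg (hxy i)]
    by_cases hc : Col I x (y i)
    · rw [if_pos hc]; left; rfl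
    · rw [if_neg hc]; right; rfl
  have hb0 : RR I x (y 0) = -4 := by
    unfold RR
    rw [if_neg (hxy 0), if_pos (col_comm.1 hx0)]
  have hb1 : RR I x (y 1) = -4 := by
    unfold RR
    rw [if_neg (hxy 1), if_pos (col_comm.1 hx1)]
  have hfixp : ∀ (n : ℕ) i, (g ^ n) (y i) = y i := by
    intro n i
    induction n with
    | zero => rfl
    | succ n ih => rw [pow_succ, Equiv.Perm.mul_apply, hfix i, ih]
  have hR1 : ∀ (j : Fin 13) i, RR I ((g ^ (j : ℕ)) x) (y i) = RR I x (y i) := by
    intro j i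
    have := (ha.pow (j : ℕ)).RR x (y i)
    rwa [hfixp] at this
  have hR2 : ∀ i j, RR I (y i) (y j) = if i = j then 16 else 1 := by
    intro i j
    by_cases hij : i = j
    · rw [if_pos hij, hij, RR_self]
    · rw [if_neg hij]
      unfold RR
      have h1 : y i ≠ y j := fun e => hij (hy1 e)
      rw [if_neg h1, if_neg (hnc _ _ (hfix i) (hfix j) h1)]
  set S : ℤ := ∑ i : Fin 13, ∑ j : Fin 13, RR I ((g ^ (i : ℕ)) x) ((g ^ (j : ℕ)) x) with hSdef
  have hS : S ≤ 364 := by
    have h1 : ∀ i : Fin 13, ∑ j : Fin 13, RR I ((g ^ (i : ℕ)) x) ((g ^ (j : ℕ)) x) ≤ 28 := by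
      intro i
      rw [← Finset.add_sum_erase Finset.univ _ (Finset.mem_univ i), RR_self]
      have h2 : ∑ j ∈ Finset.univ.erase i, RR I ((g ^ (i : ℕ)) x) ((g ^ (j : ℕ)) x) ≤
          ∑ _j ∈ (Finset.univ : Finset (Fin 13)).erase i, (1 : ℤ) := by
        refine Finset.sum_le_sum fun j hj => Case13_RR_le fun e => ?_
        exact (Finset.ne_of_mem_erase hj) (Fin.ext (Case13_orbit h13 hxf i.2 j.2 e)).symm
      have h3 : ∑ _j ∈ (Finset.univ : Finset (Fin 13)).erase i, (1 : ℤ) = 12 := by
        rw [Finset.sum_const, Finset.card_erase_of_mem (Finset.mem_univ i), Finset.card_univ,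
          Fintype.card_fin]
        norm_num
      linarith
    have h2 : S ≤ ∑ _i : Fin 13, (28 : ℤ) := Finset.sum_le_sum fun i _ => h1 i
    rw [Finset.sum_const, Finset.card_univ, Fintype.card_fin] at h2
    norm_num at h2
    exact h2
  let b : Fin 5 → ℤ := fun i => RR I x (y i)
  have hq := Case13_quad h (ι := Fin 13 ⊕ Fin 5)
    (Sum.elim (fun j => (g ^ (j : ℕ)) x) y)
    (Sum.elim (fun _ => 300) (fun i => -13 * (20 * b i - ∑ j, b j)))
  rw [Fintype.sum_sum_type] at hq
  simp only [Fintype.sum_sum_type, Sum.elim_inl, Sum.elim_inr, hR1, hR2] at hq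
  refine Case13_num S hS b hb0 hb1 hb (le_trans hq (le_of_eq ?_))
  have e1 : ∀ i, RR I (y i) x = b i := fun i => RR_comm _ _
  have e2 : ∀ i (j : Fin 13), RR I (y i) ((g ^ (j : ℕ)) x) = b i := by
    intro i j
    rw [RR_comm, hR1]
  simp only [e2]
  have e3 : ∀ i, RR I x (y i) = b i := fun i => rfl
  simp only [e3]
  have e4 : ∑ i : Fin 13, ∑ j : Fin 13, (300 : ℤ) * 300 * RR I ((g ^ (i : ℕ)) x)
      ((g ^ (j : ℕ)) x) = 90000 * S := by
    rw [hSdef, Finset.mul_sum]
    refine Finset.sum_congr rfl fun i _ => ?_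
    rw [Finset.mul_sum]
    exact Finset.sum_congr rfl fun j _ => by ring
  rw [Finset.sum_add_distrib, Finset.sum_add_distrib, e4]
  simp only [Finset.sum_const, Finset.card_univ, Fintype.card_fin, Fin.sum_univ_five, nsmul_eq_mul]
  norm_num [Fin.ext_iff]
  ring

end H60GQ
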