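import Pool.Agent.H60.GQ.MainSub

/-!
Project GQ part 4 (MP_a3aa3c_co), helper60. Automorphisms of a generalized quadrangle of order (4, 12).
Definitions and small lemmas (complete).
-/

namespace H60GQ

open Finset

universe u v

variable {P : Type u} {L : Type v} {I : P → L → Prop} {s t : ℕ}

/-- `g`, `k` is an automorphism: permutations of the points and of the lines preserving incidence -/
def IsAut (I : P → L → Prop) (g : Equiv.Perm P) (k : Equiv.Perm L) : Prop :=
  ∀ p l, I (g p) (k l) ↔ I p l

/-- fixed points -/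
def FP (g : Equiv.Perm P) : Set P := {x | g x = x}

open Classical in
/-- the adjacency matrix of the collinearity graph, with integer entries -/
noncomputable def adj (I : P → L → Prop) (x y : P) : ℤ := if x ≠ y ∧ Col I x y then 1 else 0

open Classical in
/-- the matrix `15 - 5 A + J` -/
noncomputable def RR (I : P → L → Prop) (x y : P) : ℤ :=
  if x = y then 16 else if Col I x y then -4 else 1

theorem IsAut.pow {g : Equiv.Perm P} {k : Equiv.Perm L} (ha : IsAut I g k) (n : ℕ) :
    IsAut I (g ^ n) (k ^ n) := by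
  induction n with
  | zero => intro p l; simp
  | succ n ih =>
    intro p l
    rw [pow_succ, pow_succ, Equiv.Perm.mul_apply, Equiv.Perm.mul_apply]
    exact (ih _ _).trans (ha p l)

theorem IsAut.col {g : Equiv.Perm P} {k : Equiv.Perm L} (ha : IsAut I g k) (x y : P) :
    Col I (g x) (g y) ↔ Col I x y := by
  constructor
  · rintro ⟨l, h1, h2⟩
    refine ⟨k.symm l, ?_, ?_⟩
    · have := ha x (k.symm l)
      rw [Equiv.apply_symm_apply] at this
      exact this.1 h1
    · have := ha y (k.symm l)
      rw [Equiv.apply_symm_apply] at this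
      exact this.1 h2
  · rintro ⟨l, h1, h2⟩
    exact ⟨k l, (ha x l).2 h1, (ha y l).2 h2⟩

theorem IsAut.adj {g : Equiv.Perm P} {k : Equiv.Perm L} (ha : IsAut I g k) (x y : P) :
    adj I (g x) (g y) = adj I x y := by
  unfold H60GQ.adj
  have e : (g x ≠ g y ∧ Col I (g x) (g y)) ↔ (x ≠ y ∧ Col I x y) := by
    rw [ha.col x y]
    simp
  by_cases hc : x ≠ y ∧ Col I x y
  · rw [if_pos hc, if_pos (e.2 hc)]
  · rw [if_neg hc, if_neg (fun h => hc (e.1 h))]

theorem IsAut.RR {g : Equiv.Perm P} {k : Equiv.Perm L} (ha : IsAut I g k) (x y : P) :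
    RR I (g x) (g y) = RR I x y := by
  unfold H60GQ.RR
  by_cases h1 : x = y
  · rw [if_pos h1, if_pos (by rw [h1])]
  · rw [if_neg h1, if_neg (fun e => h1 (g.injective e))]
    by_cases hc : Col I x y
    · rw [if_pos hc, if_pos ((ha.col x y).2 hc)]
    · rw [if_neg hc, if_neg (fun h => hc ((ha.col x y).1 h))]

theorem adj_comm (x y : P) : adj I x y = adj I y x := by
  unfold adj
  have e : (x ≠ y ∧ Col I x y) ↔ (y ≠ x ∧ Col I y x) := by rw [col_comm, ne_comm]
  by_cases hc : x ≠ y ∧ Col I x y
  · rw [if_pos hc, if_pos (e.1 hc)]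
  · rw [if_neg hc, if_neg (fun h => hc (e.2 h))]

theorem RR_comm (x y : P) : RR I x y = RR I y x := by
  unfold RR
  by_cases h1 : x = y
  · subst h1; rfl
  · have h2 : ¬ y = x := fun e => h1 e.symm
    rw [if_neg h1, if_neg h2]
    by_cases hc : Col I x y
    · rw [if_pos hc, if_pos (col_comm.1 hc)]
    · rw [if_neg hc, if_neg (fun h => hc (col_comm.1 h))]

theorem RR_self (x : P) : RR I x x = 16 := by
  unfold RR
  rw [if_pos rfl]

/-- an automorphism which is trivial on the points is trivial on the lines -/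
theorem IsAut.line_one (h : IsGQ I s t) (hs : 1 ≤ s) {g : Equiv.Perm P} {k : Equiv.Perm L}
    (ha : IsAut I g k) (hg : g = 1) : k = 1 := by
  subst hg
  ext l
  rw [Equiv.Perm.coe_one, id_eq]
  have h1 : 1 < {p | I p l}.ncard := by rw [h.line_card]; omega
  obtain ⟨a, ha1, b, hb1, hab⟩ := (Set.one_lt_ncard (Set.finite_of_ncard_ne_zero (by omega))).1 h1
  have ha2 : I a l := ha1
  have hb2 : I b l := hb1
  exact h.unique a b (k l) l hab ((ha a l).2 ha2) ((ha b l).2 hb2) ha2 hb2

end H60GQ
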