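import Mathlib

/-!
Project GQ part 4, module Det5: the determinant of the form on the trivial side.

`B = Zᵀ R Z` with `R = Yᵀ B Y`, `Y Z = 1`, `R ≡ 2 J` modulo 5 (all entries are `≡ 2`), `B G = 80`.
Let `s i = ∑_j Z j i`. Then `B i j ≡ 2 s i s j` modulo 5: `B = 2 s sᵀ + 5 C` with an integer matrix `C`.
(i) `5 ∣ det B / 5^(b-1)`-type bound: `5^(b-1) ∣ det B` because `det (5 C + 2 s sᵀ)` is
`5^b det C + 2 * 5^(b-1) sᵀ adj(C) s` (matrix determinant lemma, see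
`Matrix.det_add_replicateCol_mul_replicateRow` or similar; it is also easy to avoid it: modulo 5 the matrix
`B` has rank at most 1, all rows are multiples of one row; or multilinearity).
(ii) `5^b ∤ det B`: `det B * det G = 80^b`. If `5^b ∣ det B` then `5 ∤ det G` (`80^b = 5^b * 16^b`), so
from `B G = 80 • 1`, modulo 5: `B G = 0` and `det G ≠ 0` in `ZMod 5`, `B = 0` in `ZMod 5`, `R = Yᵀ B Y = 0`
modulo 5, but the entries of `R` are `≡ 2` and `n > 0`.
(iii) `det B > 0` divides `80^b = 2^(4b) 5^b`, so `det B = 2^k 5^j` and `j = b - 1` by (i), (ii). `b ≥ 1`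
since `R ≠ 0`.
-/

namespace H60GQ

open Matrix

private lemma Det5_rank1 {b : ℕ} (C : Matrix (Fin b) (Fin b) ℤ) (u : Matrix (Fin b) Unit ℤ)
    (w : Matrix Unit (Fin b) ℤ) :
    ∃ c : ℤ, 5 * ((5 : ℤ) • C + u * w).det = 5 ^ b * c := by
  refine ⟨(fromBlocks ((5 : ℤ) • (1 : Matrix Unit Unit ℤ)) (-w) u C).det, ?_⟩
  have h1 : (fromBlocks (1 : Matrix Unit Unit ℤ) (-w) u ((5 : ℤ) • C)).det =
      ((5 : ℤ) • C + u * w).det := by
    rw [Matrix.det_fromBlocks_one₁₁, Matrix.mul_neg, sub_neg_eq_add]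
  have h2 : fromBlocks ((5 : ℤ) • (1 : Matrix Unit Unit ℤ)) 0 0 (1 : Matrix (Fin b) (Fin b) ℤ) *
      fromBlocks (1 : Matrix Unit Unit ℤ) (-w) u ((5 : ℤ) • C) =
      fromBlocks ((5 : ℤ) • (1 : Matrix Unit Unit ℤ)) (-w) u C *
        fromBlocks (1 : Matrix Unit Unit ℤ) 0 0 ((5 : ℤ) • (1 : Matrix (Fin b) (Fin b) ℤ)) := by
    rw [fromBlocks_multiply, fromBlocks_multiply]
    simp only [Matrix.smul_mul, Matrix.mul_smul, Matrix.one_mul, Matrix.mul_one, Matrix.zero_mul,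
      Matrix.mul_zero, add_zero, zero_add, smul_zero]
  have h3 := congrArg Matrix.det h2
  rw [Matrix.det_mul, Matrix.det_mul, h1, Matrix.det_fromBlocks_zero₂₁,
    Matrix.det_fromBlocks_zero₂₁, Matrix.det_smul, Matrix.det_smul] at h3
  simp only [Matrix.det_one, Fintype.card_unit, Fintype.card_fin, pow_one, mul_one, one_mul] at h3
  rw [h3]; ring

private lemma Det5_80 : Int.castRingHom (ZMod 5) 80 = 0 := by decide

private lemma Det5_2 : (2 : ZMod 5) ≠ 0 := by decide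

theorem det5 {n b : ℕ} (hn : 0 < n) (R : Matrix (Fin n) (Fin n) ℤ) (Y : Matrix (Fin b) (Fin n) ℤ)
    (Z : Matrix (Fin n) (Fin b) ℤ) (B G : Matrix (Fin b) (Fin b) ℤ) (hYZ : Y * Z = 1)
    (hR : R = Yᵀ * B * Y) (hB : B = Zᵀ * R * Z) (h5 : ∀ i j, (R i j : ZMod 5) = 2)
    (hG : B * G = (80 : ℤ) • (1 : Matrix (Fin b) (Fin b) ℤ)) (hpos : 0 < B.det) :
    1 ≤ b ∧ ∃ k : ℕ, B.det = 5 ^ (b - 1) * 2 ^ k := by
  -- b is positive
  have hb : 1 ≤ b := by
    rcases Nat.eq_zero_or_pos b with h | h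
    · subst h
      exfalso
      have h0 : R ⟨0, hn⟩ ⟨0, hn⟩ = 0 := by
        rw [hR, Matrix.mul_apply]; simp
      have := h5 ⟨0, hn⟩ ⟨0, hn⟩
      rw [h0] at this
      revert this; decide
    · exact h
  refine ⟨hb, ?_⟩
  -- decomposition of R
  obtain ⟨E, hE⟩ : ∃ E : Matrix (Fin n) (Fin n) ℤ, ∀ i j, R i j = 5 * E i j + 2 := by
    refine ⟨Matrix.of fun i j => (R i j - 2) / 5, fun i j => ?_⟩
    have h1 : ((R i j - 2 : ℤ) : ZMod 5) = 0 := by
      push_cast; rw [h5 i j]; ring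
    have h2 : (5 : ℤ) ∣ R i j - 2 := by
      have := (ZMod.intCast_zmod_eq_zero_iff_dvd (R i j - 2) 5).mp h1
      exact_mod_cast this
    have h3 := Int.mul_ediv_cancel' h2
    simp only [Matrix.of_apply]
    linarith
  set U : Matrix (Fin n) Unit ℤ := Matrix.of fun _ _ => 2 with hU
  set W : Matrix Unit (Fin n) ℤ := Matrix.of fun _ _ => 1 with hW
  have hR2 : R = (5 : ℤ) • E + U * W := by
    ext i j
    rw [hE i j, Matrix.add_apply, Matrix.smul_apply, Matrix.mul_apply, smul_eq_mul]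
    simp [hU, hW]
  have hB2 : B = (5 : ℤ) • (Zᵀ * E * Z) + (Zᵀ * U) * (W * Z) := by
    rw [hB, hR2]
    simp only [Matrix.mul_add, Matrix.add_mul, Matrix.mul_smul, Matrix.smul_mul, Matrix.mul_assoc]
  obtain ⟨c, hc⟩ := Det5_rank1 (Zᵀ * E * Z) (Zᵀ * U) (W * Z)
  rw [← hB2] at hc
  have hdvd : (5 : ℤ) ^ (b - 1) ∣ B.det := by
    refine ⟨c, ?_⟩
    have h1 : (5 : ℤ) ^ b = 5 * 5 ^ (b - 1) := by
      rw [← pow_succ']; congr 1; omega
    rw [h1, mul_assoc] at hc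
    exact mul_left_cancel₀ (by norm_num) hc
  -- determinants
  have hdet : B.det * G.det = 80 ^ b := by
    rw [← Matrix.det_mul, hG, Matrix.det_smul, Matrix.det_one, Fintype.card_fin, mul_one]
  have hndvd : ¬ (5 : ℤ) ^ b ∣ B.det := by
    rintro ⟨e, he⟩
    have h1 : e * G.det = 16 ^ b := by
      have h2 : (5 : ℤ) ^ b * (e * G.det) = 5 ^ b * 16 ^ b := by
        rw [← mul_pow, ← mul_assoc, ← he, hdet]; norm_num
      exact mul_left_cancel₀ (pow_ne_zero _ (by norm_num)) h2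
    have h3 : ((G.det : ℤ) : ZMod 5) ≠ 0 := by
      intro h0
      have h4 : ((e * G.det : ℤ) : ZMod 5) = ((16 ^ b : ℤ) : ZMod 5) := by rw [h1]
      rw [Int.cast_mul, h0, mul_zero, Int.cast_pow] at h4
      have h5' : ((16 : ℤ) : ZMod 5) = 1 := by decide
      rw [h5', one_pow] at h4
      exact absurd h4 (by decide)
    have hF5 : Fact (Nat.Prime 5) := ⟨by norm_num⟩
    let f := Int.castRingHom (ZMod 5)
    have h6 : B.map f * G.map f = 0 := by
      rw [← Matrix.map_mul, hG]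
      ext i j
      simp only [Matrix.map_apply, Matrix.smul_apply, smul_eq_mul, Matrix.zero_apply, map_mul]
      have : f 80 = 0 := Det5_80
      rw [this, zero_mul]
    have h7 : (G.map f).det ≠ 0 := by
      have : (G.map f).det = f G.det := by
        rw [RingHom.map_det]; rfl
      rw [this]; simpa [f] using h3
    have h8 : B.map f = 0 := by
      have hu : IsUnit (G.map f).det := isUnit_iff_ne_zero.mpr h7
      have := congrArg (fun M => M * (G.map f)⁻¹) h6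
      simp only [Matrix.zero_mul, Matrix.mul_assoc] at this
      rwa [Matrix.mul_nonsing_inv _ hu, Matrix.mul_one] at this
    have h9 : R.map f = 0 := by
      rw [hR, Matrix.map_mul, Matrix.map_mul, h8, Matrix.mul_zero, Matrix.zero_mul]
    have h10 := congrFun (congrFun h9 ⟨0, hn⟩) ⟨0, hn⟩
    simp only [Matrix.map_apply, Matrix.zero_apply] at h10
    have h11 := h5 ⟨0, hn⟩ ⟨0, hn⟩
    have h12 : f (R ⟨0, hn⟩ ⟨0, hn⟩) = ((R ⟨0, hn⟩ ⟨0, hn⟩ : ℤ) : ZMod 5) := rfl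
    rw [h12, h11] at h10
    exact Det5_2 h10
  -- factorisation
  obtain ⟨d, hd⟩ : ∃ d : ℕ, B.det = (d : ℤ) := ⟨B.det.toNat, (Int.toNat_of_nonneg hpos.le).symm⟩
  have hdd : d ∣ 2 ^ (4 * b) * 5 ^ b := by
    have h1 : (d : ℤ) ∣ ((2 ^ (4 * b) * 5 ^ b : ℕ) : ℤ) := by
      refine ⟨G.det, ?_⟩
      rw [← hd, hdet]; push_cast
      rw [pow_mul, ← mul_pow]; norm_num
    exact_mod_cast h1
  obtain ⟨y, z, hy, hz, hyz⟩ := (Nat.dvd_mul).mp hdd
  obtain ⟨k, -, hk⟩ := (Nat.dvd_prime_pow Nat.prime_two).mp hy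
  obtain ⟨j, -, hj⟩ := (Nat.dvd_prime_pow Nat.prime_five).mp hz
  have hdj : d = 2 ^ k * 5 ^ j := by rw [← hyz, hk, hj]
  have hj1 : b - 1 ≤ j := by
    have h1 : 5 ^ (b - 1) ∣ 2 ^ k * 5 ^ j := by
      rw [← hdj]
      rw [hd] at hdvd
      exact_mod_cast hdvd
    have h2 : Nat.Coprime (5 ^ (b - 1)) (2 ^ k) := Nat.Coprime.pow _ _ (by norm_num)
    have h3 := h2.dvd_of_dvd_mul_left h1
    exact (Nat.pow_dvd_pow_iff_le_right (by norm_num)).mp h3
  have hj2 : j < b := by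
    by_contra h
    push Not at h
    apply hndvd
    rw [hd, hdj]
    have : (5 : ℤ) ^ b ∣ 5 ^ j := pow_dvd_pow _ h
    push_cast
    exact Dvd.dvd.mul_left this _
  have hjb : j = b - 1 := by omega
  refine ⟨k, ?_⟩
  rw [hd, hdj, hjb]; push_cast; ring

end H60GQ
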