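import Mathlib

/-!
Project GQ part 4, module DetPos: positivity of the determinants.

* `det_pos_complex`: `N = M.map σ` is a Hermitian complex matrix (`σ ∘ c = conj ∘ σ`) with
  `N * N = 16 • N`, so `N = (1/16) Nᴴ N` is positive semidefinite
  (`Matrix.posSemidef_conjTranspose_mul_self`), and `B.map σ = (Z.map σ)ᴴ * N * (Z.map σ)` is positive
  semidefinite. Its determinant is `σ (det B) ≠ 0` because `det B ∣ 16^m` and `σ (16^m) = 16^m ≠ 0`. A
  positive semidefinite matrix with nonzero determinant has positive (real) determinant (positive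
  definite, `Matrix.PosDef.det_pos`; or the determinant is the product of the eigenvalues).
* `det_pos_int`: the same for a symmetric integer matrix with `M * M = κ • M`, `κ > 0`, mapped to `ℝ`.
-/

namespace H60GQ

open Matrix

open scoped ComplexOrder in
private theorem DetPos_aux {n b : ℕ} (W : Matrix (Fin n) (Fin b) ℂ) :
    0 ≤ (Wᴴ * W).det.re ∧ 0 = (Wᴴ * W).det.im := by
  have h := (Matrix.posSemidef_conjTranspose_mul_self W).det_nonneg
  rw [Complex.le_def] at h
  exact h

private theorem DetPos_sixteen {O : Type*} [CommRing O] (σ : O →+* ℂ) : σ (16 : O) = 16 := by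
  have h : ((16 : ℕ) : O) = (16 : O) := by norm_cast
  rw [← h, map_natCast]
  norm_cast

theorem det_pos_complex {O : Type*} [CommRing O] (c : O →+* O) (σ : O →+* ℂ)
    (hσ : ∀ x, σ (c x) = (starRingEnd ℂ) (σ x)) {n b : ℕ} (M : Matrix (Fin n) (Fin n) O)
    (hM : (M.map c)ᵀ = M) (hMM : M * M = (16 : O) • M) (Z : Matrix (Fin n) (Fin b) O)
    (B : Matrix (Fin b) (Fin b) O) (hB : B = (Z.map c)ᵀ * M * Z) (m : ℕ) (hd : B.det ∣ 16 ^ m) :
    ∃ r : ℝ, 0 < r ∧ σ B.det = r := by
  classical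
  have hdet : σ B.det ≠ 0 := by
    obtain ⟨w, hw⟩ := hd
    intro h0
    have h1 := congrArg σ hw
    rw [map_mul, h0, zero_mul, map_pow] at h1
    rw [DetPos_sixteen σ] at h1
    exact pow_ne_zero m (by norm_num) h1
  have hN : (M.map σ)ᴴ = M.map σ := by
    ext i j
    have h := congrFun (congrFun hM i) j
    simp only [Matrix.transpose_apply, Matrix.map_apply] at h
    simp only [Matrix.conjTranspose_apply, Matrix.map_apply]
    rw [← h, hσ]
    rfl
  have hNN : (M.map σ) * (M.map σ) = (16 : ℂ) • (M.map σ) := by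
    rw [← Matrix.map_mul, hMM]
    ext i j
    simp only [Matrix.map_apply, Matrix.smul_apply, smul_eq_mul, map_mul]
    rw [DetPos_sixteen σ]
  have hZ : ((Z.map c)ᵀ).map σ = (Z.map σ)ᴴ := by
    ext i j
    simp only [Matrix.conjTranspose_apply, Matrix.map_apply, Matrix.transpose_apply]
    rw [hσ]
    rfl
  have hBN : B.map σ = (Z.map σ)ᴴ * (M.map σ) * (Z.map σ) := by
    rw [hB, Matrix.map_mul, Matrix.map_mul, hZ]
  have heq : (M.map σ * Z.map σ)ᴴ * (M.map σ * Z.map σ) = (16 : ℂ) • (B.map σ) := by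
    rw [Matrix.conjTranspose_mul, hN, hBN, Matrix.mul_assoc, ← Matrix.mul_assoc (M.map σ), hNN,
      Matrix.smul_mul, Matrix.mul_smul, Matrix.mul_assoc]
  have hnn := DetPos_aux (M.map σ * Z.map σ)
  rw [heq, Matrix.det_smul] at hnn
  have hdm : (B.map σ).det = σ B.det := by
    rw [← RingHom.mapMatrix_apply, ← RingHom.map_det]
  rw [hdm] at hnn
  obtain ⟨hre, him⟩ := hnn
  have hp : ((16 : ℂ) ^ Fintype.card (Fin b)) = (((16 : ℝ) ^ Fintype.card (Fin b) : ℝ) : ℂ) := by
    push_cast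
    rfl
  have hpp : (0 : ℝ) < (16 : ℝ) ^ Fintype.card (Fin b) := by positivity
  rw [hp, Complex.re_ofReal_mul] at hre
  rw [hp, Complex.im_ofReal_mul] at him
  have him' : (σ B.det).im = 0 := by
    rcases mul_eq_zero.mp him.symm with h | h
    · exact absurd h hpp.ne'
    · exact h
  have hre' : 0 ≤ (σ B.det).re := nonneg_of_mul_nonneg_right hre hpp
  refine ⟨(σ B.det).re, lt_of_le_of_ne hre' ?_, ?_⟩
  · intro h
    apply hdet
    apply Complex.ext
    · rw [← h]; rfl
    · rw [him']; rfl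
  · apply Complex.ext
    · simp
    · simp [him']

theorem det_pos_int {n b : ℕ} (M : Matrix (Fin n) (Fin n) ℤ) (hM : Mᵀ = M) (κ : ℤ) (hκ : 0 < κ)
    (hMM : M * M = κ • M) (Z : Matrix (Fin n) (Fin b) ℤ) (B : Matrix (Fin b) (Fin b) ℤ)
    (hB : B = Zᵀ * M * Z) (hd : B.det ≠ 0) : 0 < B.det := by
  classical
  have h1 : (M * Z)ᵀ * (M * Z) = κ • B := by
    rw [Matrix.transpose_mul, hM, hB, Matrix.mul_assoc, ← Matrix.mul_assoc M, hMM,
      Matrix.smul_mul, Matrix.mul_smul, Matrix.mul_assoc]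
  let f : ℤ →+* ℝ := Int.castRingHom ℝ
  have hps : (((M * Z).map f)ᴴ * ((M * Z).map f)).PosSemidef :=
    Matrix.posSemidef_conjTranspose_mul_self _
  have hct : ((M * Z).map f)ᴴ = ((M * Z)ᵀ).map f := by
    ext i j
    simp only [Matrix.conjTranspose_apply, Matrix.map_apply, Matrix.transpose_apply, star_trivial]
  have heq : ((M * Z).map f)ᴴ * ((M * Z).map f) = (κ • B).map f := by
    rw [hct, ← Matrix.map_mul, h1]
  have hnn : (0 : ℝ) ≤ ((κ • B).map f).det := by
    rw [← heq]
    exact hps.det_nonneg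
  have hdm : ((κ • B).map f).det = f ((κ • B).det) := by
    rw [← RingHom.mapMatrix_apply, ← RingHom.map_det]
  rw [hdm, Matrix.det_smul] at hnn
  have h2 : (0 : ℤ) ≤ κ ^ Fintype.card (Fin b) * B.det := by
    have : (0 : ℝ) ≤ ((κ ^ Fintype.card (Fin b) * B.det : ℤ) : ℝ) := hnn
    exact_mod_cast this
  have h3 : (0 : ℤ) < κ ^ Fintype.card (Fin b) := by positivity
  have h4 : 0 ≤ B.det := nonneg_of_mul_nonneg_right h2 h3
  exact lt_of_le_of_ne h4 (Ne.symm hd)

end H60GQ
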