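import Pool.Agent.H60.GA.Defs

/-!
Project GQ part 4, module FixGQ: the fixed structure is a subquadrangle of order (4, m).

Hypotheses: all points of a fixed line are fixed (`hfull`), there is a fixed point, each fixed point is
on at least two fixed lines.
Let `N x` = number of fixed lines through the fixed point `x`. The claim is that `N` is constant, then
`m = N - 1` and the axioms of `IsGQ` for the fixed points and lines hold: lines have 5 points by `hfull`;
`unique` is inherited; `proj`: for a fixed point `p` not on the fixed line `l` the unique pair `(q, n)`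
of the axiom is mapped to `(g q, k n)` which satisfies the same conditions, so it is fixed.
`N` is constant:
(1) `x, y` fixed, not collinear: `N x = N y`. The lines `l` through `x` and the lines through `y` are in
bijection by concurrence (projection of `y` on `l`), and fixed lines go to fixed lines.
(2) `x ≠ y` fixed and collinear, on the line `n0` (which is fixed: `k n0` is also the line through `x`
and `y`). Take a fixed line `n ≠ n0` through `x` and a fixed line `m ≠ n0` through `y`, and fixed points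
`r` on `n`, `r'` on `m` with `r ≠ x`, `r' ≠ y`, `r, r'` not collinear (for given `r` at most one point
of `m` is collinear with `r`; `m` has 5 points). Then `r, y` and `x, r'` are not collinear (no
triangles), so `N x = N r' = N r = N y`.
-/

namespace H60GQ

open Finset

universe u v

variable {P : Type u} {L : Type v} {I : P → L → Prop} {t : ℕ}

/-- the line joining two distinct fixed collinear points is fixed -/
private theorem FixGQ_line_fixed (h : IsGQ I 4 t) {g : Equiv.Perm P} {k : Equiv.Perm L}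
    (ha : IsAut I g k) {x y : P} (hxy : x ≠ y) (hx : g x = x) (hy : g y = y) {n : L}
    (h1 : I x n) (h2 : I y n) : k n = n := by
  have e1 : I x (k n) := by
    have := (ha x n).2 h1
    rwa [hx] at this
  have e2 : I y (k n) := by
    have := (ha y n).2 h2
    rwa [hy] at this
  exact h.unique x y (k n) n hxy e1 e2 h1 h2

/-- the projection of a fixed point on a fixed line is fixed -/
private theorem FixGQ_proj_fixed (h : IsGQ I 4 t) {g : Equiv.Perm P} {k : Equiv.Perm L}
    (ha : IsAut I g k) {p : P} {l : L} (hp : g p = p) (hl : k l = l) (hpl : ¬ I p l)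
    {q : P} {m : L} (h1 : I q l) (h2 : I p m) (h3 : I q m) : g q = q ∧ k m = m := by
  have e1 : I (g q) l := by
    have := (ha q l).2 h1
    rwa [hl] at this
  have e2 : I p (k m) := by
    have := (ha p m).2 h2
    rwa [hp] at this
  have e3 : I (g q) (k m) := (ha q m).2 h3
  exact h.proj_unique hpl e1 e2 e3 h1 h2 h3

private theorem FixGQ_le [Finite L] (h : IsGQ I 4 t) {g : Equiv.Perm P}
    {k : Equiv.Perm L} (ha : IsAut I g k) {x y : P} (hy : g y = y)
    (hc : ¬ Col I x y) :
    {l | k l = l ∧ I x l}.ncard ≤ {l | k l = l ∧ I y l}.ncard := by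
  have key : ∀ l, ∃ m, (k l = l ∧ I x l) → ((k m = m ∧ I y m) ∧ ∃ q, I q l ∧ I q m) := by
    intro l
    by_cases hl : k l = l ∧ I x l
    · have hyl : ¬ I y l := fun e => hc ⟨l, hl.2, e⟩
      obtain ⟨q, m, h1, h2, h3⟩ := h.exists_proj hyl
      exact ⟨m, fun _ => ⟨⟨(FixGQ_proj_fixed h ha hy hl.1 hyl h1 h2 h3).2, h2⟩, q, h1, h3⟩⟩
    · exact ⟨l, fun e => absurd e hl⟩
  choose f hf using key
  refine Set.ncard_le_ncard_of_injOn f (fun l hl => (hf l hl).1) ?_ (Set.toFinite _)
  intro l hl l' hl' e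
  obtain ⟨⟨-, hym⟩, q, hql, hqm⟩ := hf l hl
  obtain ⟨⟨-, -⟩, q', hql', hqm'⟩ := hf l' hl'
  rw [← e] at hqm'
  have hxm : ¬ I x (f l) := fun e' => hc ⟨f l, e', hym⟩
  exact (h.proj_unique hxm hqm hl.2 hql hqm' hl'.2 hql').2

private theorem FixGQ_eq [Finite L] (h : IsGQ I 4 t) {g : Equiv.Perm P}
    {k : Equiv.Perm L} (ha : IsAut I g k) {x y : P} (hx : g x = x) (hy : g y = y)
    (hc : ¬ Col I x y) :
    {l | k l = l ∧ I x l}.ncard = {l | k l = l ∧ I y l}.ncard :=
  le_antisymm (FixGQ_le h ha hy hc) (FixGQ_le h ha hx (fun e => hc e.symm))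

private theorem FixGQ_pt (h : IsGQ I 4 t) (l : L) (a b : P) : ∃ r, I r l ∧ r ≠ a ∧ r ≠ b := by
  by_contra hcon
  push Not at hcon
  have hsub : {p | I p l} ⊆ {a, b} := by
    intro p hp
    by_cases hpa : p = a
    · exact Or.inl hpa
    · exact Or.inr (hcon p hp hpa)
  have h1 := Set.ncard_le_ncard hsub (Set.toFinite _)
  rw [h.line_card] at h1
  have h2 : ({a, b} : Set P).ncard ≤ 2 := Set.ncard_insert_le a {b} |>.trans (by simp)
  omega

private theorem FixGQ_const [Finite L] (h : IsGQ I 4 t) {g : Equiv.Perm P} {k : Equiv.Perm L}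
    (ha : IsAut I g k) (hfull : ∀ l, k l = l → ∀ x, I x l → g x = x)
    (h2 : ∀ x, g x = x → 2 ≤ {l | k l = l ∧ I x l}.ncard) {x y : P} (hx : g x = x)
    (hy : g y = y) :
    {l | k l = l ∧ I x l}.ncard = {l | k l = l ∧ I y l}.ncard := by
  by_cases hxy : x = y
  · rw [hxy]
  by_cases hc : Col I x y
  · obtain ⟨n0, hx0, hy0⟩ := hc
    obtain ⟨n, hn, hn0⟩ := Set.exists_ne_of_one_lt_ncard (h2 x hx) n0
    obtain ⟨m, hm, hm0⟩ := Set.exists_ne_of_one_lt_ncard (h2 y hy) n0
    obtain ⟨r, hrn, hrx, -⟩ := FixGQ_pt h n x x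
    have hyn : ¬ I y n := fun e => hn0 (h.unique x y n n0 hxy hn.2 e hx0 hy0)
    have hxm : ¬ I x m := fun e => hm0 (h.unique x y m n0 hxy e hm.2 hx0 hy0)
    have hyr : y ≠ r := fun e => hyn (by rw [e]; exact hrn)
    have hrm : ¬ I r m := fun e =>
      hn0 ((h.no_triangle hxy hrx.symm hyr hx0 hy0 hm.2 e hn.2 hrn).2).symm
    obtain ⟨q, s, hqm, hrs, hqs⟩ := h.exists_proj hrm
    obtain ⟨r', hr'm, hr'y, hr'q⟩ := FixGQ_pt h m y q
    have hgr : g r = r := hfull n hn.1 r hrn
    have hgr' : g r' = r' := hfull m hm.1 r' hr'm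
    have c1 : ¬ Col I r r' := fun e => hr'q (h.col_unique hrm hr'm hqm e ⟨s, hrs, hqs⟩)
    have c2 : ¬ Col I r y := fun e =>
      hrx (h.col_unique hyn hrn hn.2 e.symm ⟨n0, hy0, hx0⟩)
    have c3 : ¬ Col I x r' := fun e =>
      hr'y (h.col_unique hxm hr'm hm.2 e ⟨n0, hx0, hy0⟩)
    rw [FixGQ_eq h ha hx hgr' c3, ← FixGQ_eq h ha hgr hgr' c1, FixGQ_eq h ha hgr hy c2]
  · exact FixGQ_eq h ha hx hy hc

theorem fix_gq [Finite P] [Finite L] (h : IsGQ I 4 t) {g : Equiv.Perm P} {k : Equiv.Perm L}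
    (ha : IsAut I g k) (hfull : ∀ l, k l = l → ∀ x, I x l → g x = x) (hne : (FP g).Nonempty)
    (h2 : ∀ x, g x = x → 2 ≤ {l | k l = l ∧ I x l}.ncard) :
    ∃ m, SubGQ I (FP g) {l | k l = l} 4 m ∧
      ∀ x, g x = x → {l | k l = l ∧ I x l}.ncard = m + 1 := by
  obtain ⟨x0, hx0⟩ := hne
  have hx0' : g x0 = x0 := hx0
  have hcount : ∀ x, g x = x →
      {l | k l = l ∧ I x l}.ncard = ({l | k l = l ∧ I x0 l}.ncard - 1) + 1 := by
    intro x hx
    have h3 := h2 x0 hx0'
    rw [FixGQ_const h ha hfull h2 hx hx0']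
    omega
  refine ⟨{l | k l = l ∧ I x0 l}.ncard - 1, ?_, hcount⟩
  refine SubGQ.mk' h ⟨x0, hx0⟩ ?_ (fun p hp => hcount p hp) ?_
  · intro l hl
    have hl' : k l = l := hl
    have e : {p | p ∈ FP g ∧ I p l} = {p | I p l} := by
      ext p
      exact ⟨fun hp => hp.2, fun hp => ⟨hfull l hl' p hp, hp⟩⟩
    rw [e, h.line_card]
  · intro p hp l hl hpl
    obtain ⟨q, m, h3, h4, h5⟩ := h.exists_proj hpl
    obtain ⟨e1, e2⟩ := FixGQ_proj_fixed h ha hp hl hpl h3 h4 h5
    exact ⟨q, e1, m, e2, h3, h4, h5⟩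

end H60GQ
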