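import Pool.Agent.H60.GA.Fix
import Pool.Agent.H60.GA.FixGQ

/-!
Project GQ part 4, module El1: automorphisms of prime order `q ≥ 7`, `q ≠ 11`, of a quadrangle of order
(4, 11) are trivial.

`eleven_thick`: as `thick_one` (module FixCases): `fix_gq` gives a subquadrangle of order (4, m), `m ≥ 2`,
so `main_sub` (t = 11) gives `FP g = univ`.
`eleven_q`: if `P` is empty `g = 1`. The number of points is 225 = 3^2 5^2 (`h.card_points`), not divisible
by `q`, so by `fix_card` there is a fixed point. All points of a fixed line are fixed (`fix_line_full`).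
`fix_pt_lines`: the number of fixed lines through a fixed point is `≡ 12` modulo `q`; for `q = 7` it is at
least 5, for `q ≥ 13` at least 12. So `eleven_thick` applies. (`k ^ q = 1`: `IsAut.line_one` for the powers.)
-/

namespace H60GQ

open Finset

universe u v

variable {P : Type u} {L : Type v} {I : P → L → Prop}

theorem eleven_thick [Finite P] [Finite L] (h : IsGQ I 4 11) {g : Equiv.Perm P} {k : Equiv.Perm L}
    (ha : IsAut I g k) (hfull : ∀ l, k l = l → ∀ x, I x l → g x = x) (hne : (FP g).Nonempty)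
    (h3 : ∀ x, g x = x → 3 ≤ {l | k l = l ∧ I x l}.ncard) : g = 1 := by
  obtain ⟨m, hm, hcnt⟩ := fix_gq h ha hfull hne (fun x hx => by have := h3 x hx; omega)
  obtain ⟨x0, hx0⟩ := hne
  have hm2 : 2 ≤ m := by
    have e1 := hcnt x0 hx0
    have e2 := h3 x0 hx0
    omega
  have hu := (main_sub h (Or.inl rfl) hm (by norm_num) hm2).1
  ext x
  have hx : x ∈ FP g := by rw [hu]; trivial
  exact hx

theorem eleven_q [Finite P] [Finite L] (h : IsGQ I 4 11) {g : Equiv.Perm P} {k : Equiv.Perm L}
    (ha : IsAut I g k) {q : ℕ} (hq : q.Prime) (hq7 : 7 ≤ q) (hq11 : q ≠ 11) (hgq : g ^ q = 1) :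
    g = 1 := by
  rcases isEmpty_or_nonempty P with he | hne
  · ext x
    exact (he.false x).elim
  have hk : k ^ q = 1 := (ha.pow q).line_one h (by norm_num) hgq
  have hcard := h.card_points
  have hfix := fix_card hq hgq
  have hfull : ∀ l, k l = l → ∀ x, I x l → g x = x := fun l hl x hx =>
    fix_line_full h ha hq hq7 hgq hl hx
  have hnon : (FP g).Nonempty := by
    rw [Set.nonempty_iff_ne_empty]
    intro e
    rw [e, Set.ncard_empty, hcard] at hfix
    have hd : q ∣ (4 + 1) * (4 * 11 + 1) := (Nat.modEq_zero_iff_dvd).1 hfix.symm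
    have hd' : q ∣ 3 ^ 2 * 5 ^ 2 := by
      have e2 : (4 + 1) * (4 * 11 + 1) = 3 ^ 2 * 5 ^ 2 := by norm_num
      rwa [e2] at hd
    rcases (Nat.Prime.dvd_mul hq).1 hd' with h1 | h1
    · have := Nat.le_of_dvd (by norm_num) (hq.dvd_of_dvd_pow h1)
      omega
    · have := Nat.le_of_dvd (by norm_num) (hq.dvd_of_dvd_pow h1)
      omega
  refine eleven_thick h ha hfull hnon (fun x hx => ?_)
  have h1 := fix_pt_lines h ha hq hk hx
  by_contra hlt
  push Not at hlt
  have h2 : q ∣ (11 + 1) - {l | k l = l ∧ I x l}.ncard :=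
    (Nat.modEq_iff_dvd' (by omega)).1 h1
  set c := {l | k l = l ∧ I x l}.ncard with hc
  have h4 : q ≤ 11 + 1 - c := Nat.le_of_dvd (by omega) h2
  have hq12 : q < 13 := by omega
  have hc3 : c < 3 := hlt
  clear_value c
  interval_cases q
  · interval_cases c <;> omega
  · exact absurd hq (by norm_num)
  · exact absurd hq (by norm_num)
  · exact absurd hq (by norm_num)
  · omega
  · exact absurd hq (by norm_num)

end H60GQ
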