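import Pool.Agent.H60.GA.Fix
import Pool.Agent.H60.GA.FixGQ

/-!
Project GQ part 4, module El2: automorphisms of order 11 of a quadrangle of order (4, 11), fixed points.

All points of a fixed line are fixed (`fix_line_full`), the number of fixed lines through a fixed point is
`≡ 12 ≡ 1` modulo 11 and at most 12, so 1 or 12. There is a fixed point (`225 ≡ 5` modulo 11).
If some fixed point `x` is on 12 fixed lines then all lines through `x` are fixed and all points collinear
with `x` are fixed: second case. Otherwise each fixed point is on exactly one fixed line. Let `x` be a fixed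
point and `m` its fixed line. If `l ≠ m` is a fixed line: `l` and `m` have no common point (it would be a fixed
point on two fixed lines); for a point `p` of `l` (it is fixed) the projection of `p` on `m` is on a fixed
line through `p` different from `l`: contradiction. So `m` is the only fixed line; every fixed point is on a
fixed line, so on `m`, and the five points of `m` are fixed.
-/

namespace H60GQ

open Finset

universe u v

variable {P : Type u} {L : Type v} {I : P → L → Prop}

/-- the number of fixed lines through a fixed point is 1 or 12 -/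
private theorem El2_one_or_twelve [Finite P] [Finite L] (h : IsGQ I 4 11) {g : Equiv.Perm P}
    {k : Equiv.Perm L} (ha : IsAut I g k) (h11 : g ^ 11 = 1) {x : P} (hx : g x = x) :
    {l | k l = l ∧ I x l}.ncard = 1 ∨ {l | k l = l ∧ I x l}.ncard = 12 := by
  have hk : k ^ 11 = 1 := (ha.pow 11).line_one h (by norm_num) h11
  have h1 := fix_pt_lines h ha (by norm_num : (11 : ℕ).Prime) hk hx
  have h2 : {l | k l = l ∧ I x l}.ncard ≤ {l | I x l}.ncard :=
    Set.ncard_le_ncard (fun l hl => hl.2) (Set.toFinite _)
  rw [h.point_card] at h2
  unfold Nat.ModEq at h1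
  omega

/-- the projection of a fixed point on a fixed line is on a fixed line through the point -/
private theorem El2_proj (h : IsGQ I 4 11) {g : Equiv.Perm P} {k : Equiv.Perm L}
    (ha : IsAut I g k) {p : P} {l : L} (hp : g p = p) (hl : k l = l) (hpl : ¬ I p l)
    {q : P} {m : L} (h1 : I q l) (h2 : I p m) (h3 : I q m) : k m = m := by
  have e1 : I (g q) l := by
    have := (ha q l).2 h1
    rwa [hl] at this
  have e2 : I p (k m) := by
    have := (ha p m).2 h2
    rwa [hp] at this
  have e3 : I (g q) (k m) := (ha q m).2 h3
  exact (h.proj_unique hpl e1 e2 e3 h1 h2 h3).2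

theorem eleven_struct [Finite P] [Finite L] [Nonempty P] (h : IsGQ I 4 11) {g : Equiv.Perm P}
    {k : Equiv.Perm L} (ha : IsAut I g k) (h11 : g ^ 11 = 1) :
    ({l | k l = l}.ncard = 1 ∧ {x | g x = x}.ncard = 5) ∨ ∃ x, ∀ y, Col I x y → g y = y := by
  have hfull : ∀ l, k l = l → ∀ x, I x l → g x = x := fun l hl x hx =>
    fix_line_full h ha (by norm_num : (11 : ℕ).Prime) (by norm_num) h11 hl hx
  by_cases hc : ∃ x, g x = x ∧ {l | k l = l ∧ I x l}.ncard = 12
  · right
    obtain ⟨x, hx, hN⟩ := hc
    refine ⟨x, ?_⟩
    rintro y ⟨l, hxl, hyl⟩
    have hsub : {l | k l = l ∧ I x l} ⊆ {l | I x l} := fun l hl => hl.2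
    have heq : {l | k l = l ∧ I x l} = {l | I x l} := by
      refine Set.eq_of_subset_of_ncard_le hsub ?_ (Set.toFinite _)
      rw [hN, h.point_card]
    have hl : l ∈ {l | k l = l ∧ I x l} := by
      rw [heq]
      exact hxl
    exact hfull l hl.1 y hyl
  · left
    have hone : ∀ x, g x = x → {l | k l = l ∧ I x l}.ncard = 1 := by
      intro x hx
      rcases El2_one_or_twelve h ha h11 hx with h1 | h1
      · exact h1
      · exact absurd ⟨x, hx, h1⟩ hc
    have huniq : ∀ x, g x = x → ∀ l l', k l = l → I x l → k l' = l' → I x l' → l = l' := by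
      intro x hx l l' h1 h2 h3 h4
      obtain ⟨a, ha'⟩ := Set.ncard_eq_one.1 (hone x hx)
      have e1 : l ∈ ({a} : Set L) := by
        rw [← ha']
        exact ⟨h1, h2⟩
      have e2 : l' ∈ ({a} : Set L) := by
        rw [← ha']
        exact ⟨h3, h4⟩
      exact (Set.mem_singleton_iff.1 e1).trans (Set.mem_singleton_iff.1 e2).symm
    have hex : ∀ x, g x = x → ∃ l, k l = l ∧ I x l := by
      intro x hx
      have hne : {l | k l = l ∧ I x l}.ncard ≠ 0 := by
        rw [hone x hx]
        norm_num
      exact Set.nonempty_of_ncard_ne_zero hne
    obtain ⟨x0, hx0⟩ : ∃ x, g x = x := by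
      have h1 := fix_card (g := g) (by norm_num : (11 : ℕ).Prime) h11
      rw [h.card_points] at h1
      have hne : (FP g).ncard ≠ 0 := by
        intro e
        rw [e] at h1
        unfold Nat.ModEq at h1
        norm_num at h1
      exact Set.nonempty_of_ncard_ne_zero hne
    obtain ⟨m, hm, hxm⟩ := hex x0 hx0
    have hlines : ∀ l, k l = l → l = m := by
      intro l hl
      by_contra hlm
      obtain ⟨p, hp⟩ := h.exists_pt l
      have hgp := hfull l hl p hp
      have hpm : ¬ I p m := fun e => hlm (huniq p hgp l m hl hp hm e)
      obtain ⟨q, n, h1, h2, h3⟩ := h.exists_proj hpm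
      have hn := El2_proj h ha hgp hm hpm h1 h2 h3
      have hnl : n = l := huniq p hgp n l hn h2 hl hp
      rw [hnl] at h3
      exact hlm (huniq q (hfull m hm q h1) l m hl h3 hm h1)
    constructor
    · have e : {l | k l = l} = {m} := by
        ext l
        constructor
        · intro hl
          exact hlines l hl
        · rintro rfl
          exact hm
      rw [e, Set.ncard_singleton]
    · have e : {x | g x = x} = {p | I p m} := by
        ext x
        constructor
        · intro hx
          obtain ⟨l, hl, hxl⟩ := hex x hx
          have hlm := hlines l hl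
          rw [hlm] at hxl
          exact hxl
        · intro hx
          exact hfull m hm x hx
      rw [e, h.line_card]

end H60GQ
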