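import Pool.Agent.H60.GA.Fix
import Pool.Agent.H60.GA.FixGQ
import Pool.Agent.H60.GQ.Counts

/-!
Project GQ part 4, module El3: a quadrangle of order (4, 11) has no automorphism of order 11 which fixes all
points collinear with a point `x`.

Suppose `g ≠ 1`. There is `y` with `g y ≠ y`; it is not collinear with `x`. Let `T` be the set of the 12 points
collinear with `x` and `y` (one on each line through `x`: projections of `y`); they are fixed. Let
`H0 = {g^i y | i < 11}`: 11 different points (`g y ≠ y`, 11 prime), none collinear with `x` (`x` is fixed), each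
collinear with all points of `T` (`c = g^i c`, `Col I (g^i c) (g^i y)`). Points of `T` are pairwise not
collinear (if `c, c'` were on a line, it is the line through `x` (no triangle x c c'), and then `y`,
collinear with two points of it, is on it, so collinear with `x`). Points of `H0` are pairwise not
collinear: if `h ≠ h'` in `H0` are on a line `n` then for each `c` in `T` `c` is on `n` (no triangle), so two
different points `c, c'` of `T` would be collinear.
Fix `c0` in `T`, `m` the line through `x` and `c0`, `u` a point of `m`, `u ≠ x, c0`. For `a` in `H0` and `c` in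
`T \ {c0}` let `n` be the line through `a` and `c`. `u` is not on `n` (else `u` is collinear with `c` and `x` is
too, and `c` is on `m` (no triangle u x c), so collinear with `c0`). Let `w` be the point of `n` collinear
with `u`. `w ≠ a`: otherwise `u, a, c0` pairwise collinear, `a` on `m`, collinear with `x`. `w ≠ c`: otherwise
`u, x, c` again. The map `(a, c) ↦ w` is injective: let `w` be also the point for `(a', c')`. If `a ≠ a'` and
`c ≠ c'`: `w, a, c'` are pairwise collinear, so `c'` is on the line of `w` and `a`, which is `n`, together with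
`c`, contradiction. If `a = a'`, `c ≠ c'`: `w, a` are on both lines, which coincide, `c, c'` collinear. If
`a ≠ a'`, `c = c'`: `w, c` are on both lines, `a, a'` are collinear. So at least 11 * 11 = 121 points are
collinear with `u`, but there are only `1 + 12 * 4 = 49` of them.
-/

namespace H60GQ

open Finset

universe u v

variable {P : Type u} {L : Type v} {I : P → L → Prop}

private theorem El3_pt (h : IsGQ I 4 11) (l : L) (a b : P) : ∃ r, I r l ∧ r ≠ a ∧ r ≠ b := by
  by_contra hcon
  push Not at hcon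
  have hsub : {p | I p l} ⊆ {a, b} := by
    intro p hp
    by_cases hpa : p = a
    · exact Or.inl hpa
    · exact Or.inr (hcon p hp hpa)
  have h1 := Set.ncard_le_ncard hsub (Set.toFinite _)
  rw [h.line_card] at h1
  have h2 : ({a, b} : Set P).ncard ≤ 2 := Set.ncard_insert_le a {b} |>.trans (by simp)
  omega

/-- the orbit of a point which is not fixed, under a permutation of order 11 -/
private theorem El3_orbit {g : Equiv.Perm P} (h11 : g ^ 11 = 1) {y : P} (hy : g y ≠ y) :
    (Set.Iio 11).InjOn (fun i : ℕ => (g ^ i) y) := by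
  have hper : Function.IsPeriodicPt g 11 y := by
    unfold Function.IsPeriodicPt Function.IsFixedPt
    rw [Equiv.Perm.iterate_eq_pow, h11]
    rfl
  have hdvd := hper.minimalPeriod_dvd
  have hprime : Nat.Prime 11 := by norm_num
  have hmin : Function.minimalPeriod g y = 11 := by
    rcases (Nat.dvd_prime hprime).1 hdvd with h1 | h1
    · exfalso
      apply hy
      have := Function.isPeriodicPt_minimalPeriod g y
      rw [h1] at this
      exact this
    · exact h1
  have h2 := Function.iterate_injOn_Iio_minimalPeriod (f := g) (x := y)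
  rw [hmin] at h2
  intro i hi j hj hij
  apply h2 hi hj
  simp only [Equiv.Perm.iterate_eq_pow]
  exact hij

theorem no_elation [Finite P] [Finite L] (h : IsGQ I 4 11) {g : Equiv.Perm P} {k : Equiv.Perm L}
    (ha : IsAut I g k) (h11 : g ^ 11 = 1) {x : P} (hx : ∀ y, Col I x y → g y = y) : g = 1 := by
  classical
  by_contra hg
  have hex : ∃ y, g y ≠ y := by
    by_contra hcon
    push Not at hcon
    apply hg
    ext p
    rw [hcon p]
    rfl
  obtain ⟨y, hy⟩ := hex
  have hxy : ¬ Col I x y := fun e => hy (hx y e)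
  have hgx : g x = x := hx x (h.col_refl x)
  -- powers
  have hpow : ∀ (i : ℕ) (c : P), g c = c → (g ^ i) c = c := by
    intro i c hc
    induction i with
    | zero => simp
    | succ i ih => rw [pow_succ, Equiv.Perm.mul_apply, hc, ih]
  -- the set `T`
  set T : Set P := {r | Col I x r ∧ Col I y r} with hT
  have hTcard : T.ncard = 12 := h.common_card hxy
  have hTnc : ∀ c ∈ T, ∀ c' ∈ T, c ≠ c' → ¬ Col I c c' := by
    rintro c ⟨h1, h2⟩ c' ⟨h3, h4⟩ hne ⟨l, hcl, hcl'⟩
    exact hxy ⟨l, h.mem_of_col hne hcl hcl' h1 h3, h.mem_of_col hne hcl hcl' h2 h4⟩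
  -- the set `H0`
  set H : Set P := (fun i : ℕ => (g ^ i) y) '' Set.Iio 11 with hH
  have hHcard : H.ncard = 11 := by
    rw [hH, Set.ncard_image_of_injOn (El3_orbit h11 hy)]
    have : (Set.Iio 11 : Set ℕ) = ((Finset.range 11 : Finset ℕ) : Set ℕ) := by
      ext i
      simp
    rw [this, Set.ncard_coe_finset, Finset.card_range]
  have hHT : ∀ a ∈ H, ∀ c ∈ T, Col I a c := by
    rintro a ⟨i, -, rfl⟩ c ⟨h1, h2⟩
    have h3 := ((ha.pow i).col y c).2 h2
    rw [hpow i c (hx c h1)] at h3
    exact h3
  have hHx : ∀ a ∈ H, ¬ Col I x a := by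
    rintro a ⟨i, -, rfl⟩ hc
    apply hxy
    rw [← (ha.pow i).col x y, hpow i x hgx]
    exact hc
  have hHnc : ∀ a ∈ H, ∀ a' ∈ H, a ≠ a' → ¬ Col I a a' := by
    rintro a hA a' hA' hne ⟨l, hal, hal'⟩
    obtain ⟨c, hc, c', hc', hcc⟩ := (Set.one_lt_ncard (Set.toFinite T)).1
      (by rw [hTcard]; norm_num)
    refine hTnc c hc c' hc' hcc ⟨l, ?_, ?_⟩
    · exact h.mem_of_col hne hal hal' (hHT a hA c hc).symm (hHT a' hA' c hc).symm
    · exact h.mem_of_col hne hal hal' (hHT a hA c' hc').symm (hHT a' hA' c' hc').symm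
  -- the point `c0`, the line `m`, the point `u`
  obtain ⟨c0, hc0⟩ : T.Nonempty := Set.nonempty_of_ncard_ne_zero (by rw [hTcard]; norm_num)
  obtain ⟨m, hxm, hc0m⟩ := hc0.1
  obtain ⟨u, hum, hux, huc0⟩ := El3_pt h m x c0
  have hcm : ∀ c ∈ T, c ≠ c0 → ¬ I c m := fun c hc hne hcm =>
    hTnc c hc c0 hc0 hne ⟨m, hcm, hc0m⟩
  have key : ∀ p : P × P, ∃ w : P, p ∈ H ×ˢ (T \ {c0}) →
      (w ≠ u ∧ Col I u w ∧ ∃ n, I p.1 n ∧ I p.2 n ∧ I w n ∧ w ≠ p.1 ∧ w ≠ p.2) := by
    rintro ⟨a, c⟩
    by_cases hp : (a, c) ∈ H ×ˢ (T \ {c0})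
    · obtain ⟨hA, hC, hne⟩ := hp
      simp only at hA hC hne
      have hne' : c ≠ c0 := hne
      obtain ⟨n, han, hcn⟩ := hHT a hA c hC
      have hcx : Col I c x := hC.1.symm
      have hun : ¬ I u n := by
        intro hun
        apply hcm c hC hne'
        exact h.mem_of_col hux hum hxm ⟨n, hcn, hun⟩ hcx
      obtain ⟨w, l, hwn, hul, hwl⟩ := h.exists_proj hun
      have hwu : w ≠ u := by
        rintro rfl
        exact hun hwn
      refine ⟨w, fun _ => ⟨hwu, ⟨l, hul, hwl⟩, n, han, hcn, hwn, ?_, ?_⟩⟩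
      · rintro rfl
        apply hHx w hA
        refine ⟨m, hxm, ?_⟩
        exact h.mem_of_col huc0 hum hc0m ⟨l, hwl, hul⟩ (hHT w hA c0 hc0)
      · rintro rfl
        apply hcm w hC hne'
        exact h.mem_of_col hux hum hxm ⟨l, hwl, hul⟩ hcx
    · exact ⟨u, fun e => absurd e hp⟩
  choose f hf using key
  have hinj : (H ×ˢ (T \ {c0})).InjOn f := by
    rintro ⟨a, c⟩ hp ⟨a', c'⟩ hp' e
    obtain ⟨-, -, n, h1, h2, h3, h4, h5⟩ := hf _ hp
    obtain ⟨-, -, n', h1', h2', h3', h4', h5'⟩ := hf _ hp'
    obtain ⟨hA, hC, -⟩ := hp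
    obtain ⟨hA', hC', -⟩ := hp'
    rw [← e] at h3' h4' h5'
    simp only at h1 h2 h4 h5 h1' h2' h4' h5' hA hC hA' hC'
    by_cases hn : n = n'
    · subst hn
      have e1 : a = a' := by
        by_contra hne
        exact hHnc a hA a' hA' hne ⟨n, h1, h1'⟩
      have e2 : c = c' := by
        by_contra hne
        exact hTnc c hC c' hC' hne ⟨n, h2, h2'⟩
      rw [e1, e2]
    · exfalso
      obtain ⟨l, hl1, hl2⟩ := hHT a hA c' hC'
      have hac : a ≠ c' := by
        rintro rfl
        exact hHx a hA hC'.1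
      exact hn (h.no_triangle h4.symm hac h5' h1 h3 h3' h2' hl1 hl2).1
  have hle : (H ×ˢ (T \ {c0})).ncard ≤ {w | w ≠ u ∧ Col I u w}.ncard :=
    Set.ncard_le_ncard_of_injOn f (fun p hp => ⟨(hf p hp).1, (hf p hp).2.1⟩) hinj
      (Set.toFinite _)
  rw [h.nbr_card u, Set.ncard_prod, hHcard, Set.ncard_sdiff_singleton_of_mem hc0, hTcard] at hle
  omega

end H60GQ
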