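import Pool.Agent.H60.GA.Defs

/-!
Project GQ part 4, module Fix: fixed points and lines of an automorphism of prime order `q`.

The number of fixed points of a permutation `f` of a finite set `S` with `f^q = 1` is congruent to `|S|`
modulo `q`: Mathlib's `Equiv.Perm.card_fixedPoints_modEq` (with `n = 1`).
* `fix_card`: directly, for `g` on `P`.
* `fix_pt_lines`: for the restriction of `k` to the set of the `t + 1` lines through the fixed point `x`
  (`I x l ↔ I (g x) (k l) = I x (k l)`, use `Equiv.Perm.subtypePerm` or `Equiv.Perm.subtypeEquiv`).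
* `fix_line_full`: for the restriction of `g` to the 5 points of the fixed line `l`: the number of the
  points of `l` which are not fixed is divisible by `q ≥ 7` and at most 5, so it is 0.
-/

namespace H60GQ

open Finset

universe u v

variable {P : Type u} {L : Type v} {I : P → L → Prop} {t : ℕ}

/-- fixed points of a permutation of a finite type -/
theorem Fix_card_fixed {α : Type*} [Finite α] (f : Equiv.Perm α) {q : ℕ} (hq : q.Prime)
    (hf : f ^ q = 1) : {x | f x = x}.ncard ≡ Nat.card α [MOD q] := by
  classical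
  haveI : Fintype α := Fintype.ofFinite α
  haveI : Fact q.Prime := ⟨hq⟩
  have h := Equiv.Perm.card_compl_support_modEq (σ := f) (p := q) (n := 1) (by rw [pow_one]; exact hf)
  have e : {x | f x = x} = ((f.supportᶜ : Finset α) : Set α) := by
    ext x
    rw [Set.mem_ofPred_eq, Finset.mem_coe, Finset.mem_compl, Equiv.Perm.mem_support, not_not]
  rw [e, Set.ncard_coe_finset, Nat.card_eq_fintype_card]
  exact h

/-- fixed points of a permutation on an invariant set -/
theorem Fix_card_inv {α : Type*} [Finite α] (f : Equiv.Perm α) {q : ℕ} (hq : q.Prime)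
    (hf : f ^ q = 1) (A : α → Prop) (hA : ∀ x, A (f x) ↔ A x) :
    {x | f x = x ∧ A x}.ncard ≡ {x | A x}.ncard [MOD q] := by
  have h := Fix_card_fixed (f.subtypePerm hA) hq (by
    rw [Equiv.Perm.subtypePerm_pow]
    ext x
    rw [Equiv.Perm.subtypePerm_apply]
    simp [hf])
  have e1 : Nat.card {x // A x} = {x | A x}.ncard := rfl
  have e2 : {x | f x = x ∧ A x} = Subtype.val '' {x : {x // A x} | f.subtypePerm hA x = x} := by
    ext x
    constructor
    · rintro ⟨h1, h2⟩
      exact ⟨⟨x, h2⟩, Subtype.ext h1, rfl⟩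
    · rintro ⟨y, hy, rfl⟩
      exact ⟨congrArg Subtype.val hy, y.2⟩
  rw [e2, Set.ncard_image_of_injective _ Subtype.val_injective, ← e1]
  exact h

theorem fix_card [Finite P] {g : Equiv.Perm P} {q : ℕ} (hq : q.Prime) (hg : g ^ q = 1) :
    (FP g).ncard ≡ Nat.card P [MOD q] := by
  exact Fix_card_fixed g hq hg

theorem fix_pt_lines [Finite P] [Finite L] (h : IsGQ I 4 t) {g : Equiv.Perm P} {k : Equiv.Perm L}
    (ha : IsAut I g k) {q : ℕ} (hq : q.Prime) (hk : k ^ q = 1) {x : P} (hx : g x = x) :
    {l | k l = l ∧ I x l}.ncard ≡ t + 1 [MOD q] := by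
  have h1 := Fix_card_inv k hq hk (fun l => I x l) (fun l => by
    have := ha x l
    rw [hx] at this
    exact this)
  rw [h.point_card x] at h1
  exact h1

theorem fix_line_full [Finite P] [Finite L] (h : IsGQ I 4 t) {g : Equiv.Perm P} {k : Equiv.Perm L}
    (ha : IsAut I g k) {q : ℕ} (hq : q.Prime) (hq7 : 7 ≤ q) (hg : g ^ q = 1) {l : L} (hl : k l = l)
    {x : P} (hx : I x l) : g x = x := by
  have h1 := Fix_card_inv g hq hg (fun p => I p l) (fun p => by
    have := ha p l
    rw [hl] at this
    exact this)
  rw [h.line_card l] at h1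
  by_contra hne
  have hlt : {p | g p = p ∧ I p l}.ncard < {p | I p l}.ncard := by
    apply Set.ncard_lt_ncard
    · refine ⟨fun p hp => hp.2, fun hsub => hne ?_⟩
      exact (hsub (show x ∈ {p | I p l} from hx)).1
    · exact Set.toFinite _
  rw [h.line_card l] at hlt
  have h2 : {p | g p = p ∧ I p l}.ncard = 4 + 1 := by
    have := h1
    unfold Nat.ModEq at this
    rwa [Nat.mod_eq_of_lt (by omega), Nat.mod_eq_of_lt (by omega)] at this
  omega

end H60GQ
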