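import Pool.Agent.H60.GA.FixCases
import Pool.Agent.H60.GA.Fix
import Pool.Agent.H60.GA.FixGQ

/-!
Project GQ part 4, module Fix5: automorphisms of order 5.

* `full5`: if there is a fixed point then all points of a fixed line are fixed: the fixed line `l` has a fixed
  point `y` (the fixed point `x` if it is on `l`, otherwise the projection of `x` on `l`, which is fixed
  because the pair `(q, m)` of the axiom is mapped to a pair with the same properties); the number of
  fixed points on `l` is `≡ 5` modulo 5 (`Fix_card_inv`), it is positive and at most 5.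
* `fix5_12`: otherwise, by `full5`, and as the number of fixed lines through a fixed point is `≡ 13`
  modulo 5, at least 3, `thick_one` applies.
* `fix5_11`: the number of fixed lines through a fixed point is `≡ 12` modulo 5, at least 2; `fix_gq`; then
  `m + 1 ≡ 12` modulo 5, `m + 1 ≤ 12`; if `m ≥ 2` then `main_sub` gives that all points are fixed.
* `lines5`: the number of fixed lines is `≡ 637 ≡ 2` modulo 5 (`Fix_card_fixed` for `k`; `h.card_lines`),
  the fixed lines are pairwise disjoint (a common point `x` of two fixed lines would be fixed: `g x` is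
  on both) and the five points `x` of a fixed line satisfy `Col I x (g x)`, so `5 * #fixed lines ≤ 65`.
-/

namespace H60GQ

open Finset

universe u v

variable {P : Type u} {L : Type v} {I : P → L → Prop} {t : ℕ}

theorem full5 [Finite P] [Finite L] (h : IsGQ I 4 t) {g : Equiv.Perm P} {k : Equiv.Perm L}
    (ha : IsAut I g k) (h5 : g ^ 5 = 1) (hne : (FP g).Nonempty) :
    ∀ l, k l = l → ∀ x, I x l → g x = x := by
  intro l hl x hx
  obtain ⟨y, hy⟩ := hne
  have hy' : g y = y := hy
  have hex : ∃ z, g z = z ∧ I z l := by
    by_cases hyl : I y l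
    · exact ⟨y, hy', hyl⟩
    · obtain ⟨q, m, h1, h2, h3⟩ := h.exists_proj hyl
      refine ⟨q, ?_, h1⟩
      have e1 : I (g q) l := by
        have := (ha q l).2 h1
        rwa [hl] at this
      have e2 : I y (k m) := by
        have := (ha y m).2 h2
        rwa [hy'] at this
      have e3 : I (g q) (k m) := (ha q m).2 h3
      exact (h.proj_unique hyl e1 e2 e3 h1 h2 h3).1
  obtain ⟨z, hz1, hz2⟩ := hex
  have h1 := Fix_card_inv g Nat.prime_five h5 (fun p => I p l) (fun p => by
    have := ha p l
    rw [hl] at this
    exact this)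
  rw [h.line_card l] at h1
  have hpos : 0 < {p | g p = p ∧ I p l}.ncard :=
    (Set.ncard_pos (Set.toFinite _)).2 ⟨z, hz1, hz2⟩
  by_contra hne'
  have hlt : {p | g p = p ∧ I p l}.ncard < {p | I p l}.ncard := by
    apply Set.ncard_lt_ncard
    · refine ⟨fun p hp => hp.2, fun hsub => hne' ?_⟩
      exact (hsub (show x ∈ {p | I p l} from hx)).1
    · exact Set.toFinite _
  rw [h.line_card l] at hlt
  unfold Nat.ModEq at h1
  omega

theorem fix5_12 [Finite P] [Finite L] (h : IsGQ I 4 12) {g : Equiv.Perm P} {k : Equiv.Perm L}
    (ha : IsAut I g k) (h5 : g ^ 5 = 1) (hg : g ≠ 1) (x : P) : g x ≠ x := by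
  intro hx
  have hk : k ^ 5 = 1 := IsAut.line_one h (by norm_num) (ha.pow 5) h5
  have hne : (FP g).Nonempty := ⟨x, hx⟩
  refine hg (thick_one h ha (full5 h ha h5 hne) hne fun y hy => ?_)
  have h1 := fix_pt_lines h ha Nat.prime_five hk hy
  unfold Nat.ModEq at h1
  omega

theorem fix5_11 [Finite P] [Finite L] (h : IsGQ I 4 11) {g : Equiv.Perm P} {k : Equiv.Perm L}
    (ha : IsAut I g k) (h5 : g ^ 5 = 1) (hg : g ≠ 1) :
    (∀ x, g x ≠ x) ∨ SubGQ I (FP g) {l | k l = l} 4 1 := by
  by_cases hfree : ∀ x, g x ≠ x
  · exact Or.inl hfree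
  right
  push Not at hfree
  obtain ⟨x, hx⟩ := hfree
  have hk : k ^ 5 = 1 := IsAut.line_one h (by norm_num) (ha.pow 5) h5
  have hne : (FP g).Nonempty := ⟨x, hx⟩
  have hmod : ∀ y, g y = y → {l | k l = l ∧ I y l}.ncard % 5 = 2 := by
    intro y hy
    have h1 := fix_pt_lines h ha Nat.prime_five hk hy
    unfold Nat.ModEq at h1
    omega
  obtain ⟨m, hs, hm⟩ := fix_gq h ha (full5 h ha h5 hne) hne fun y hy => by
    have := hmod y hy
    omega
  have h1 := hm x hx
  have h2 := hmod x hx
  by_cases hm2 : 2 ≤ m
  · exfalso
    have h3 := (main_sub h (Or.inl rfl) hs (by norm_num) hm2).1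
    apply hg
    ext y
    have hy : y ∈ FP g := by rw [h3]; exact Set.mem_univ y
    have hy' : g y = y := hy
    rw [hy', Equiv.Perm.coe_one, id_eq]
  · have hm1 : m = 1 := by omega
    rw [hm1] at hs
    exact hs

theorem lines5 [Finite P] [Finite L] (h : IsGQ I 4 12) {g : Equiv.Perm P} {k : Equiv.Perm L}
    (ha : IsAut I g k) (h5 : g ^ 5 = 1) (hf : ∀ x, g x ≠ x)
    (h65 : {x | Col I x (g x)}.ncard = 65) :
    {l | k l = l}.ncard = 2 ∨ {l | k l = l}.ncard = 7 ∨ {l | k l = l}.ncard = 12 := by
  classical
  have hk : k ^ 5 = 1 := IsAut.line_one h (by norm_num) (ha.pow 5) h5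
  have hneC : {x | Col I x (g x)}.Nonempty :=
    Set.nonempty_of_ncard_ne_zero (by rw [h65]; norm_num)
  obtain ⟨x0, -⟩ := hneC
  have : Nonempty P := ⟨x0⟩
  have h1 := Fix_card_fixed k Nat.prime_five hk
  rw [h.card_lines] at h1
  unfold Nat.ModEq at h1
  have h2 : 5 * {l | k l = l}.ncard ≤ 65 := by
    have := Fintype.ofFinite P
    have := Fintype.ofFinite L
    have e1 : {l | k l = l}.ncard = (Finset.univ.filter fun l => k l = l).card := by
      rw [Set.ncard_eq_toFinset_card']
      congr 1
      ext l
      simp
    have e2 : ({x | Col I x (g x)} : Set P).ncard =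
        (Finset.univ.filter fun x => Col I x (g x)).card := by
      rw [Set.ncard_eq_toFinset_card']
      congr 1
      ext l
      simp
    have e3 : ∀ l, (Finset.univ.filter fun x => I x l).card = 5 := by
      intro l
      have := h.line_card l
      rw [Set.ncard_eq_toFinset_card'] at this
      have e0 : (Finset.univ.filter fun x => I x l) = {p | I p l}.toFinset := by
        ext x
        simp
      rw [e0, this]
    have e4 : ((Finset.univ.filter fun l => k l = l).biUnion fun l =>
        Finset.univ.filter fun x => I x l).card =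
        ∑ l ∈ Finset.univ.filter fun l => k l = l, (Finset.univ.filter fun x => I x l).card := by
      apply Finset.card_biUnion
      intro l hl m hm hlm
      rw [Finset.mem_coe, Finset.mem_filter] at hl hm
      simp only [Function.onFun]
      rw [Finset.disjoint_left]
      intro x hx hx'
      rw [Finset.mem_filter] at hx hx'
      apply hlm
      have f1 : I (g x) l := by
        have := (ha x l).2 hx.2
        rwa [hl.2] at this
      have f2 : I (g x) m := by
        have := (ha x m).2 hx'.2
        rwa [hm.2] at this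
      exact h.unique x (g x) l m (fun e => hf x e.symm) hx.2 f1 hx'.2 f2
    have e5 : ((Finset.univ.filter fun l => k l = l).biUnion fun l =>
        Finset.univ.filter fun x => I x l) ⊆ Finset.univ.filter fun x => Col I x (g x) := by
      intro x hx
      rw [Finset.mem_biUnion] at hx
      obtain ⟨l, hl, hx⟩ := hx
      rw [Finset.mem_filter] at hl hx ⊢
      refine ⟨Finset.mem_univ _, l, hx.2, ?_⟩
      have := (ha x l).2 hx.2
      rwa [hl.2] at this
    have e6 := Finset.card_le_card e5
    rw [e4, Finset.sum_congr rfl fun l _ => e3 l, Finset.sum_const, smul_eq_mul, ← e1, ← e2,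
      h65] at e6
    omega
  omega

end H60GQ
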