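import Pool.Agent.H60.GA.Fix
import Pool.Agent.H60.GA.FixGQ

/-!
Project GQ part 4, module FixCases: the fixed structure for the orders 7 and at least 17.

* `thick_one`: if all fixed lines are full, there is a fixed point and every fixed point is on at least 3
  fixed lines then, by `fix_gq`, the fixed structure is a subquadrangle of order `(4, m)` with `m + 1 ≥ 3`,
  so all points are fixed by `main_sub` (file GQ/MainSub.lean, with `s' = 4`, `t' = m ≥ 2`).
* `k ^ q = 1`: apply `IsAut.line_one` to `IsAut.pow`.
* `no_fix7`: a fixed point would be on `≡ 13 ≡ 6` mod 7 fixed lines (`fix_pt_lines`), so on at least 6;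
  every fixed line is full by `fix_line_full`; `thick_one` gives `g = 1`.
* `case_big`: `q ≥ 17`. `245 = 5 * 7 * 7` is not divisible by `q`, so there is a fixed point (`fix_card`,
  `IsGQ.card_points`; if `P` is empty then `g = 1` trivially); the number of fixed lines through a fixed
  point is at most 13 and congruent to 13 modulo `q`, so it is 13; `thick_one`.
-/

namespace H60GQ

open Finset

universe u v

variable {P : Type u} {L : Type v} {I : P → L → Prop}

theorem thick_one [Finite P] [Finite L] (h : IsGQ I 4 12) {g : Equiv.Perm P} {k : Equiv.Perm L}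
    (ha : IsAut I g k) (hfull : ∀ l, k l = l → ∀ x, I x l → g x = x) (hne : (FP g).Nonempty)
    (h3 : ∀ x, g x = x → 3 ≤ {l | k l = l ∧ I x l}.ncard) : g = 1 := by
  obtain ⟨m, hsub, hm⟩ := fix_gq h ha hfull hne (fun x hx => by
    have := h3 x hx
    omega)
  have hm2 : 2 ≤ m := by
    obtain ⟨x, hx⟩ := hne
    have e1 := hm x hx
    have e2 := h3 x hx
    omega
  have hu := (main_sub h (Or.inr rfl) hsub (by norm_num) hm2).1
  ext x
  have hx : x ∈ FP g := by
    rw [hu]
    exact Set.mem_univ x
  exact hx

theorem no_fix7 [Finite P] [Finite L] (h : IsGQ I 4 12) {g : Equiv.Perm P} {k : Equiv.Perm L}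
    (ha : IsAut I g k) (h7 : g ^ 7 = 1) (hg : g ≠ 1) (x : P) : g x ≠ x := by
  intro hx
  apply hg
  have h7p : Nat.Prime 7 := by norm_num
  have hk : k ^ 7 = 1 := IsAut.line_one h (by norm_num) (ha.pow 7) h7
  refine thick_one h ha (fun l hl y hy => fix_line_full h ha h7p le_rfl h7 hl hy) ⟨x, hx⟩
    (fun y hy => ?_)
  have e := fix_pt_lines h ha h7p hk hy
  unfold Nat.ModEq at e
  omega

theorem case_big [Finite P] [Finite L] (h : IsGQ I 4 12) {g : Equiv.Perm P} {k : Equiv.Perm L}
    (ha : IsAut I g k) {q : ℕ} (hq : q.Prime) (h17 : 17 ≤ q) (hgq : g ^ q = 1) : g = 1 := by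
  rcases isEmpty_or_nonempty P with hP | hP
  · ext x
    exact (hP.false x).elim
  have hk : k ^ q = 1 := IsAut.line_one h (by norm_num) (ha.pow q) hgq
  have hcard : Nat.card P = 245 := h.card_points
  have hne : (FP g).Nonempty := by
    by_contra hcon
    rw [Set.not_nonempty_iff_eq_empty] at hcon
    have e := fix_card hq hgq
    rw [hcon, Set.ncard_empty, hcard] at e
    have hd : q ∣ 245 := (Nat.modEq_zero_iff_dvd).1 e.symm
    rw [show (245 : ℕ) = 5 * (7 * 7) by norm_num, hq.dvd_mul, hq.dvd_mul] at hd
    rcases hd with hd | hd | hd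
    · have := Nat.le_of_dvd (by norm_num) hd
      omega
    · have := Nat.le_of_dvd (by norm_num) hd
      omega
    · have := Nat.le_of_dvd (by norm_num) hd
      omega
  refine thick_one h ha (fun l hl y hy => fix_line_full h ha hq (by omega) hgq hl hy) hne
    (fun y hy => ?_)
  have e := fix_pt_lines h ha hq hk hy
  have hle : {l | k l = l ∧ I y l}.ncard ≤ 13 := by
    have e13 := h.point_card y
    have e14 : {l | k l = l ∧ I y l}.ncard ≤ {l | I y l}.ncard :=
      Set.ncard_le_ncard (fun l hl => hl.2) (Set.toFinite _)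
    omega
  unfold Nat.ModEq at e
  rw [Nat.mod_eq_of_lt (by omega), Nat.mod_eq_of_lt (by omega)] at e
  omega

end H60GQ
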