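import Pool.Agent.H60.GA.Lift7

/-!
Project GQ part 4, module Key7: a totally positive element of `ℤ[ζ] ∩ ℝ`, `ζ` a primitive 7-th root of
unity, which divides a power of 2 is a square modulo the prime above 7.

Write `z = hζ.toInteger`, `c z = z^6`, `φ z = 1`. By `lift7` there is `ρ : 𝓞 K →+* 𝓞 K` with
`ρ z = z^3` (`∑ z^(3k) = 0` since `z^7 = 1`). Let `τ = ρ ∘ ρ`, so `τ z = z^9 = z^2`; `τ ∘ τ ∘ τ = id`
(`z^8 = z`) and `ρ ∘ ρ ∘ ρ = c` (`z^27 = z^6`) by `ext7`; `c, ρ, τ` commute (`ext7`).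
`ν = β * τ β * τ (τ β)` is fixed by `τ` and by `c`, so by `ρ`: `ρ ν = ρ (τ ν) = ρ (ρ (ρ ν)) = c ν = ν`.
By `int_of_fixed` `ν = N` with `N : ℤ`. For an embedding `σ : 𝓞 K →+* ℂ` (it exists, for example by `lift7`
or from `K →+* ℂ`) `σ ν = σ β * (σ ∘ τ) β * (σ ∘ τ ∘ τ) β` is a positive real number, so `N > 0`.
`β ∣ 16^n` gives `ν ∣ 16^(3n)` in `𝓞 K`: `N * x = 16^(3n)`; then `N * ρ x = N * x`, so `ρ x = x`
(`N ≠ 0`, domain) and `x` is an integer, `N ∣ 16^(3n)` in `ℤ`, `N = 2^m`.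
`φ ∘ τ = φ` by `ext7`, so `φ ν = (φ β)^3 = 2^m` in `ZMod 7`, and `2 = 3^2`: `(φ β)^3 = (3^m)^2`, so `φ β` is
`0` or `(3^m / φ β)^2`.
-/

namespace H60GQ

open NumberField Finset

variable {K : Type*} [Field K] [NumberField K] [IsCyclotomicExtension {7} ℚ K] {ζ : K}

theorem key7 (hζ : IsPrimitiveRoot ζ 7) (c : 𝓞 K →+* 𝓞 K) (hc : c hζ.toInteger = hζ.toInteger ^ 6)
    (φ : 𝓞 K →+* ZMod 7) (hφ : φ hζ.toInteger = 1) (β : 𝓞 K) (hβ : c β = β)
    (hpos : ∀ σ : 𝓞 K →+* ℂ, ∃ r : ℝ, 0 < r ∧ σ β = r) (n : ℕ) (hd : β ∣ 16 ^ n) :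
    IsSquare (φ β) := by
  have hprim : IsPrimitiveRoot hζ.toInteger 7 := hζ.toInteger_isPrimitiveRoot
  have hz7 : hζ.toInteger ^ 7 = 1 := hprim.pow_eq_one
  have hprim3 : IsPrimitiveRoot (hζ.toInteger ^ 3) 7 :=
    hprim.pow_of_coprime 3 (by norm_num)
  obtain ⟨ρ, hρ⟩ := lift7 hζ (hζ.toInteger ^ 3) (hprim3.geom_sum_eq_zero (by norm_num))
  have h9 : hζ.toInteger ^ 9 = hζ.toInteger ^ 2 := by
    have : hζ.toInteger ^ 9 = hζ.toInteger ^ 7 * hζ.toInteger ^ 2 := by ring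
    rw [this, hz7, one_mul]
  have h8 : hζ.toInteger ^ 8 = hζ.toInteger := by
    have : hζ.toInteger ^ 8 = hζ.toInteger ^ 7 * hζ.toInteger := by ring
    rw [this, hz7, one_mul]
  have h27 : hζ.toInteger ^ 27 = hζ.toInteger ^ 6 := by
    have : hζ.toInteger ^ 27 = (hζ.toInteger ^ 7) ^ 3 * hζ.toInteger ^ 6 := by ring
    rw [this, hz7, one_pow, one_mul]
  obtain ⟨τ, hτdef⟩ : ∃ τ : 𝓞 K →+* 𝓞 K, τ = ρ.comp ρ := ⟨_, rfl⟩
  have hτρ : ∀ x, τ x = ρ (ρ x) := fun x => by rw [hτdef]; rfl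
  have hτz : τ hζ.toInteger = hζ.toInteger ^ 2 := by
    rw [hτρ, hρ, map_pow, hρ, ← pow_mul]
    exact h9
  have hτ3 : ∀ x, τ (τ (τ x)) = x := by
    have h : (τ.comp (τ.comp τ)) = RingHom.id (𝓞 K) := by
      apply ext7 hζ
      simp only [RingHom.comp_apply, RingHom.id_apply, hτz, map_pow]
      rw [← pow_mul, ← pow_mul]
      exact h8
    intro x
    have := congrArg (fun f => f x) h
    simpa using this
  have hρ3 : ∀ x, ρ (ρ (ρ x)) = c x := by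
    have h : (ρ.comp (ρ.comp ρ)) = c := by
      apply ext7 hζ
      simp only [RingHom.comp_apply, hρ, map_pow, hc]
      rw [← pow_mul, ← pow_mul]
      exact h27
    intro x
    have := congrArg (fun f => f x) h
    simpa using this
  have hcτ : ∀ x, c (τ x) = τ (c x) := by
    have h : c.comp τ = τ.comp c := by
      apply ext7 hζ
      simp only [RingHom.comp_apply, hτz, hc, map_pow]
      rw [← pow_mul, ← pow_mul]
    intro x
    have := congrArg (fun f => f x) h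
    simpa using this
  have hφτ : ∀ x, φ (τ x) = φ x := by
    have h : φ.comp τ = φ := by
      apply ext7 hζ
      simp only [RingHom.comp_apply, hτz, hφ, map_pow, one_pow]
    intro x
    have := congrArg (fun f => f x) h
    simpa using this
  have key : ∀ y : 𝓞 K, τ (y * τ y * τ (τ y)) = y * τ y * τ (τ y) := by
    intro y
    rw [map_mul, map_mul, hτ3]
    ring
  have hντ := key β
  have hνc : c (β * τ β * τ (τ β)) = β * τ β * τ (τ β) := by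
    rw [map_mul, map_mul, hcτ, hcτ, hcτ, hβ]
  have hνρ : ρ (β * τ β * τ (τ β)) = β * τ β * τ (τ β) := by
    have h1 : ρ (ρ (ρ (β * τ β * τ (τ β)))) = ρ (β * τ β * τ (τ β)) := by
      rw [← hτρ (β * τ β * τ (τ β)) , hντ]
    rw [← h1, hρ3, hνc]
  obtain ⟨N, hN⟩ := int_of_fixed hζ ρ hρ _ hνρ
  have hNpos : 0 < N := by
    obtain ⟨σ, -⟩ := lift7 hζ (Complex.exp (2 * Real.pi * Complex.I / (7 : ℕ)))
      ((Complex.isPrimitiveRoot_exp 7 (by norm_num)).geom_sum_eq_zero (by norm_num))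
    obtain ⟨r1, hr1, h1⟩ := hpos σ
    obtain ⟨r2, hr2, h2⟩ := hpos (σ.comp τ)
    obtain ⟨r3, hr3, h3⟩ := hpos (σ.comp (τ.comp τ))
    simp only [RingHom.comp_apply] at h2 h3
    have h4 : σ (β * τ β * τ (τ β)) = σ (N : 𝓞 K) := by rw [hN]
    rw [map_mul, map_mul, h1, h2, h3, map_intCast] at h4
    have h5 : r1 * r2 * r3 = (N : ℝ) := by exact_mod_cast h4
    have h6 : (0 : ℝ) < N := by rw [← h5]; positivity
    exact_mod_cast h6
  obtain ⟨y, hy⟩ := hd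
  have hx : (N : 𝓞 K) * (y * τ y * τ (τ y)) = 16 ^ (3 * n) := by
    have e1 : τ β * τ y = 16 ^ n := by
      rw [← map_mul, ← hy, map_pow, map_ofNat]
    have e2 : τ (τ β) * τ (τ y) = 16 ^ n := by
      rw [← map_mul, e1, map_pow, map_ofNat]
    calc (N : 𝓞 K) * (y * τ y * τ (τ y))
        = (β * τ β * τ (τ β)) * (y * τ y * τ (τ y)) := by rw [hN]
      _ = (β * y) * (τ β * τ y) * (τ (τ β) * τ (τ y)) := by ring
      _ = 16 ^ n * 16 ^ n * 16 ^ n := by rw [e1, e2, ← hy]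
      _ = 16 ^ (3 * n) := by ring
  have hN0 : (N : 𝓞 K) ≠ 0 := by exact_mod_cast hNpos.ne'
  have hxρ : ρ (y * τ y * τ (τ y)) = y * τ y * τ (τ y) := by
    have h1 := congrArg ρ hx
    rw [map_mul, map_intCast, map_pow, map_ofNat, ← hx] at h1
    exact mul_left_cancel₀ hN0 h1
  obtain ⟨m, hm⟩ := int_of_fixed hζ ρ hρ _ hxρ
  rw [hm] at hx
  have hNm : N * m = 16 ^ (3 * n) := by exact_mod_cast hx
  have hdvd : N.natAbs ∣ 2 ^ (12 * n) := by
    have h1 : (N.natAbs : ℤ) ∣ ((2 ^ (12 * n) : ℕ) : ℤ) := by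
      rw [Int.natAbs_dvd]
      refine ⟨m, ?_⟩
      rw [hNm]
      push_cast
      rw [show (16 : ℤ) = 2 ^ 4 by norm_num, ← pow_mul]
      congr 1
      ring
    exact_mod_cast h1
  obtain ⟨k, -, hk⟩ := (Nat.dvd_prime_pow Nat.prime_two).1 hdvd
  have hNk : N = 2 ^ k := by
    have : (N.natAbs : ℤ) = N := Int.natAbs_of_nonneg hNpos.le
    rw [← this, hk]
    push_cast
    rfl
  have hφν : (φ β) ^ 3 = (3 ^ k) ^ 2 := by
    have h1 : φ (β * τ β * τ (τ β)) = φ (N : 𝓞 K) := by rw [hN]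
    rw [map_mul, map_mul, hφτ, hφτ, hφτ, map_intCast, hNk] at h1
    have h2 : ((3 : ZMod 7) ^ k) ^ 2 = 2 ^ k := by
      rw [← pow_mul, mul_comm, pow_mul]
      congr 1
    rw [h2]
    push_cast at h1
    rw [← h1]
    ring
  have : Fact (Nat.Prime 7) := ⟨by norm_num⟩
  by_cases hb : φ β = 0
  · rw [hb]
    exact ⟨0, by simp⟩
  · refine ⟨3 ^ k / φ β, ?_⟩
    field_simp
    rw [← hφν]

end H60GQ
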