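import Mathlib

/-!
Project GQ part 4, module Lift7: ring homomorphisms from `ℤ[ζ]`, `ζ` a primitive 7-th root of unity.

`𝓞 K` has the power basis `hζ.integralPowerBasis` over `ℤ` with generator `z = hζ.toInteger`
(`IsPrimitiveRoot.integralPowerBasis_gen`, dimension `φ(7) = 6`), and the minimal polynomial of `z` over
`ℤ` is `cyclotomic 7 ℤ = ∑_{k<7} X^k` (`Polynomial.cyclotomic_prime`).
* `z_sum`: `z ≠ 1`, `z^7 = 1`, `(z - 1) ∑ z^k = 0` (or `IsPrimitiveRoot.geom_sum_eq_zero`).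
* `lift7`: `PowerBasis.lift`.
* `ext7`: `PowerBasis.algHom_ext` (ring homomorphisms are `ℤ`-algebra homomorphisms).
* `int_of_fixed`: write `a = ∑_{i<6} a_i z^i`, `a_i ∈ ℤ`. As `1 = -(z + ... + z^6)` this is
  `a = ∑_{i=1..6} b_i z^i` with `b_i = a_i - a_0` (`a_6 = 0`), and such `b` are unique (`z, ..., z^6` are
  linearly independent over `ℤ`: if `∑_{i=1..6} b_i z^i = 0` divide by `z`). `ρ z^i = z^(3 i)`, and 3
  generates the units modulo 7 (1 → 3 → 2 → 6 → 4 → 5 → 1), so `ρ a = a` gives that all `b_i` are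
  equal, `a = b_1 (z + ... + z^6) = -b_1`.
  (Alternative: `ρ` extends to `K`, generates the Galois group, fixed field `ℚ`, integrally closed.)
-/

namespace H60GQ

open NumberField Finset

variable {K : Type*} [Field K] [NumberField K] [IsCyclotomicExtension {7} ℚ K] {ζ : K}

theorem z_sum (hζ : IsPrimitiveRoot ζ 7) : ∑ k ∈ range 7, hζ.toInteger ^ k = 0 :=
  hζ.toInteger_isPrimitiveRoot.geom_sum_eq_zero (by norm_num)

private theorem Lift7_minpoly (hζ : IsPrimitiveRoot ζ 7) :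
    minpoly ℤ hζ.toInteger = Polynomial.cyclotomic 7 ℤ := by
  have h7 : (0 : ℕ) < 7 := by norm_num
  have h := Polynomial.cyclotomic_eq_minpoly hζ h7
  have h2 : minpoly ℤ (algebraMap (𝓞 K) K hζ.toInteger) = minpoly ℤ hζ.toInteger :=
    minpoly.algebraMap_eq RingOfIntegers.coe_injective _
  rw [← h2, h]
  rfl

theorem lift7 (hζ : IsPrimitiveRoot ζ 7) {S : Type*} [CommRing S] (s : S)
    (hs : ∑ k ∈ range 7, s ^ k = 0) : ∃ f : 𝓞 K →+* S, f hζ.toInteger = s := by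
  have : Fact (Nat.Prime 7) := ⟨by norm_num⟩
  have hy : Polynomial.aeval s (minpoly ℤ hζ.integralPowerBasis.gen) = 0 := by
    rw [hζ.integralPowerBasis_gen, Lift7_minpoly hζ, Polynomial.cyclotomic_prime]
    simpa using hs
  refine ⟨(hζ.integralPowerBasis.lift s hy).toRingHom, ?_⟩
  have := hζ.integralPowerBasis.lift_gen s hy
  rw [hζ.integralPowerBasis_gen] at this
  exact this

theorem ext7 (hζ : IsPrimitiveRoot ζ 7) {S : Type*} [CommRing S] (f g : 𝓞 K →+* S)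
    (hfg : f hζ.toInteger = g hζ.toInteger) : f = g := by
  have h : f.toIntAlgHom = g.toIntAlgHom := by
    apply hζ.integralPowerBasis.algHom_ext
    rw [hζ.integralPowerBasis_gen]
    exact hfg
  ext x
  exact congrArg (fun F : 𝓞 K →ₐ[ℤ] S => F x) h

private theorem Lift7_indep (hζ : IsPrimitiveRoot ζ 7) (c0 c1 c2 c3 c4 c5 : ℤ)
    (h : (c0 : 𝓞 K) + c1 * hζ.toInteger + c2 * hζ.toInteger ^ 2 + c3 * hζ.toInteger ^ 3
      + c4 * hζ.toInteger ^ 4 + c5 * hζ.toInteger ^ 5 = 0) :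
    c0 = 0 ∧ c1 = 0 ∧ c2 = 0 ∧ c3 = 0 ∧ c4 = 0 ∧ c5 = 0 := by
  classical
  let g : Polynomial ℤ := ∑ i ∈ range 6,
    Polynomial.C ((![c0, c1, c2, c3, c4, c5] : Fin 6 → ℤ) (Fin.ofNat 6 i)) * Polynomial.X ^ i
  have hg : Polynomial.aeval hζ.toInteger g = 0 := by
    simp only [g, map_sum, map_mul, Polynomial.aeval_C, map_pow, Polynomial.aeval_X,
      Finset.sum_range_succ, Finset.sum_range_zero]
    simp only [eq_intCast]
    simpa [Fin.ofNat] using h
  have hz : IsIntegral ℤ hζ.toInteger := Algebra.IsIntegral.isIntegral _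
  have hdvd := minpoly.isIntegrallyClosed_dvd hz hg
  rw [Lift7_minpoly hζ] at hdvd
  have hdeg : g.natDegree < (Polynomial.cyclotomic 7 ℤ).natDegree := by
    rw [Polynomial.natDegree_cyclotomic]
    have h6 : Nat.totient 7 = 6 := by decide
    rw [h6]
    refine lt_of_le_of_lt (Polynomial.natDegree_sum_le_of_forall_le (n := 5) _ _ ?_) (by norm_num)
    intro i hi
    refine (Polynomial.natDegree_C_mul_X_pow_le _ _).trans ?_
    have := Finset.mem_range.1 hi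
    omega
  have hg0 : g = 0 := Polynomial.eq_zero_of_dvd_of_natDegree_lt hdvd hdeg
  have hc : ∀ i < 6, (![c0, c1, c2, c3, c4, c5] : Fin 6 → ℤ) (Fin.ofNat 6 i) = 0 := by
    intro i hi
    have h1 : g.coeff i = 0 := by rw [hg0]; simp
    simp only [g, Polynomial.finsetSum_coeff, Polynomial.coeff_C_mul_X_pow] at h1
    rw [Finset.sum_ite_eq] at h1
    simpa [hi] using h1
  refine ⟨?_, ?_, ?_, ?_, ?_, ?_⟩
  · simpa [Fin.ofNat] using hc 0 (by norm_num)
  · simpa [Fin.ofNat] using hc 1 (by norm_num)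
  · simpa [Fin.ofNat] using hc 2 (by norm_num)
  · simpa [Fin.ofNat] using hc 3 (by norm_num)
  · simpa [Fin.ofNat] using hc 4 (by norm_num)
  · simpa [Fin.ofNat] using hc 5 (by norm_num)

private theorem Lift7_repr (hζ : IsPrimitiveRoot ζ 7) (a : 𝓞 K) :
    ∃ c0 c1 c2 c3 c4 c5 : ℤ, a = (c0 : 𝓞 K) + c1 * hζ.toInteger + c2 * hζ.toInteger ^ 2
      + c3 * hζ.toInteger ^ 3 + c4 * hζ.toInteger ^ 4 + c5 * hζ.toInteger ^ 5 := by
  obtain ⟨f, hf, ha⟩ := hζ.integralPowerBasis.exists_eq_aeval a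
  rw [hζ.integralPowerBasis_gen] at ha
  rw [hζ.integralPowerBasis_dim] at hf
  have h6 : Nat.totient 7 = 6 := by decide
  rw [h6] at hf
  rw [Polynomial.aeval_eq_sum_range' hf] at ha
  refine ⟨f.coeff 0, f.coeff 1, f.coeff 2, f.coeff 3, f.coeff 4, f.coeff 5, ?_⟩
  rw [ha]
  simp [Finset.sum_range_succ, zsmul_eq_mul]

theorem int_of_fixed (hζ : IsPrimitiveRoot ζ 7) (ρ : 𝓞 K →+* 𝓞 K)
    (hρ : ρ hζ.toInteger = hζ.toInteger ^ 3) (a : 𝓞 K) (ha : ρ a = a) : ∃ n : ℤ, a = n := by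
  obtain ⟨c0, c1, c2, c3, c4, c5, hc⟩ := Lift7_repr hζ a
  have hs := z_sum hζ
  have h7 : hζ.toInteger ^ 7 = 1 := hζ.toInteger_isPrimitiveRoot.pow_eq_one
  simp only [Finset.sum_range_succ, Finset.sum_range_zero] at hs
  have h1 : ρ a = (c0 : 𝓞 K) + c1 * hζ.toInteger ^ 3 + c2 * (hζ.toInteger ^ 3) ^ 2
      + c3 * (hζ.toInteger ^ 3) ^ 3 + c4 * (hζ.toInteger ^ 3) ^ 4
      + c5 * (hζ.toInteger ^ 3) ^ 5 := by
    rw [hc]
    simp only [map_add, map_mul, map_pow, map_intCast, hρ]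
  rw [ha, hc] at h1
  set z := hζ.toInteger with hz
  have hind := Lift7_indep hζ (-c2) (c5 - c2 - c1) (c3 - c2 - c2) (c1 - c2 - c3) (-c2 - c4)
    (c4 - c2 - c5) (by
      rw [← hz]
      push_cast
      have e9 : z ^ 9 = z ^ 2 := by
        calc z ^ 9 = z ^ 7 * z ^ 2 := by ring
          _ = z ^ 2 := by rw [h7, one_mul]
      have e12 : z ^ 12 = z ^ 5 := by
        calc z ^ 12 = z ^ 7 * z ^ 5 := by ring
          _ = z ^ 5 := by rw [h7, one_mul]
      have e15 : z ^ 15 = z := by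
        calc z ^ 15 = z ^ 7 * z ^ 7 * z := by ring
          _ = z := by rw [h7, one_mul, one_mul]
      linear_combination (-1 : 𝓞 K) * h1 - (c2 : 𝓞 K) * hs + (-(c3 : 𝓞 K)) * e9
        - (c4 : 𝓞 K) * e12 - (c5 : 𝓞 K) * e15)
  obtain ⟨h0, h1', h2, h3, h4, h5⟩ := hind
  refine ⟨c0, ?_⟩
  have i2 : c2 = 0 := by omega
  have i4 : c4 = 0 := by omega
  have i5 : c5 = 0 := by omega
  have i1 : c1 = 0 := by omega
  have i3 : c3 = 0 := by omega
  rw [hc, i1, i2, i3, i4, i5]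
  simp

end H60GQ
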