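import Pool.Agent.H60.GA.Ring7

/-!
Project GQ part 4, module NoAM: the matrix `M = 3 - X`, `X i j = ∑_k a i j k z^(k.val)` over the ring `O`
with the data `D : Ring7 O`, `z = D.z`.

`z^7 = 1` (multiply `D.z_sum` by `z - 1`), so `z^(k.val) z^(m.val) = z^((k + m).val)` for `k m : ZMod 7`,
and `c (z^(k.val)) = z^(6 k.val) = z^((-k).val)`.
`(X.map c)ᵀ = X`: `c (X j i) = ∑_k a j i k z^((-k).val) = ∑_k a j i (-k) z^(k.val) = X i j`.
`X X = 39 - 10 X`: `∑_l X i l X l j = ∑_k (∑_l ∑_m a i l m a l j (k - m)) z^(k.val)`, insert (2):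
`= 39 [i = j] - 10 X i j + 13 ∑_k z^(k.val)` and the last sum is 0 (`D.z_sum`).
`M M = 9 - 6 X + 39 - 10 X = 48 - 16 X = 16 M`. `φ (z^(k.val)) = 1`.
-/

namespace H60GQ

open Finset Matrix

/-- the matrices over `O` -/
theorem noA_M {O : Type} [CommRing O] (D : Ring7 O) (a : Fin 35 → Fin 35 → ZMod 7 → ℤ)
    (h1 : ∀ i j k, a j i (-k) = a i j k)
    (h2 : ∀ i j k, ∑ l, ∑ m, a i l m * a l j (k - m) =
      39 * (if i = j ∧ k = 0 then 1 else 0) - 10 * a i j k + 13) :
    ∃ M : Matrix (Fin 35) (Fin 35) O,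
      (∀ i j, D.φ (M i j) = 3 * (if i = j then 1 else 0) - ∑ k, (a i j k : ZMod 7)) ∧
      (M.map D.c)ᵀ = M ∧ M * M = (16 : O) • M := by
  have hz7 : D.z ^ 7 = 1 := by
    have h := geom_sum_mul D.z 7
    rw [D.z_sum, zero_mul] at h
    exact (sub_eq_zero.1 h.symm)
  obtain ⟨e, he⟩ : ∃ e : ZMod 7 → O, ∀ k, e k = D.z ^ k.val := ⟨fun k => D.z ^ k.val, fun _ => rfl⟩
  have hmul : ∀ k m, e k * e m = e (k + m) := by
    intro k m
    rw [he, he, he, ← pow_add, pow_eq_pow_mod _ hz7, ZMod.val_add]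
  have hc : ∀ k, D.c (e k) = e (-k) := by
    intro k
    rw [he, he, map_pow, D.c_z, ← pow_mul, pow_eq_pow_mod _ hz7]
    congr 1
    revert k
    decide
  have hφ : ∀ k, D.φ (e k) = 1 := by
    intro k
    rw [he, map_pow, D.φ_z, one_pow]
  have h0 : e 0 = 1 := by
    rw [he, ZMod.val_zero, pow_zero]
  have hsum : ∑ k, e k = 0 := by
    have h := Fin.sum_univ_eq_sum_range (fun k => D.z ^ k) 7
    rw [D.z_sum] at h
    rw [← h]
    exact Finset.sum_congr rfl fun k _ => he k
  obtain ⟨X, hX⟩ : ∃ X : Matrix (Fin 35) (Fin 35) O, ∀ i j, X i j = ∑ k, (a i j k : O) * e k :=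
    ⟨fun i j => ∑ k, (a i j k : O) * e k, fun _ _ => rfl⟩
  have hXX : X * X = (39 : O) • (1 : Matrix (Fin 35) (Fin 35) O) - (10 : O) • X := by
    ext i j
    rw [Matrix.mul_apply]
    have hl : ∀ l, X i l * X l j =
        ∑ k, ((∑ m, a i l m * a l j (k - m) : ℤ) : O) * e k := by
      intro l
      rw [hX, hX, Finset.sum_mul_sum]
      have h3 : ∀ m, ∑ n, (a i l m : O) * e m * ((a l j n : O) * e n) =
          ∑ k, ((a i l m * a l j (k - m) : ℤ) : O) * e k := by
        intro m
        rw [← Equiv.sum_comp (Equiv.subRight m)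
          (fun n => (a i l m : O) * e m * ((a l j n : O) * e n))]
        refine Finset.sum_congr rfl fun k _ => ?_
        rw [Equiv.subRight_apply]
        have h4 : e k = e m * e (k - m) := by rw [hmul, add_sub_cancel]
        rw [h4]
        push_cast
        ring
      rw [Finset.sum_congr rfl fun m _ => h3 m, Finset.sum_comm]
      refine Finset.sum_congr rfl fun k _ => ?_
      rw [Int.cast_sum, Finset.sum_mul]
    rw [Finset.sum_congr rfl fun l _ => hl l, Finset.sum_comm]
    have h5 : ∀ k, ∑ l, ((∑ m, a i l m * a l j (k - m) : ℤ) : O) * e k =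
        39 * ((if i = j ∧ k = 0 then 1 else 0) * e k) - 10 * ((a i j k : O) * e k) +
          13 * e k := by
      intro k
      rw [← Finset.sum_mul, ← Int.cast_sum, h2]
      push_cast
      ring
    rw [Finset.sum_congr rfl fun k _ => h5 k, Finset.sum_add_distrib, Finset.sum_sub_distrib,
      ← Finset.mul_sum, ← Finset.mul_sum, ← Finset.mul_sum, hsum, ← hX i j]
    have h6 : ∑ k, (if i = j ∧ k = 0 then (1 : O) else 0) * e k = if i = j then 1 else 0 := by
      by_cases hij : i = j
      · simp [hij, h0]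
      · simp [hij]
    rw [h6, mul_zero, add_zero]
    simp [Matrix.sub_apply, Matrix.smul_apply, Matrix.one_apply]
  refine ⟨(3 : O) • (1 : Matrix (Fin 35) (Fin 35) O) - X, ?_, ?_, ?_⟩
  · intro i j
    rw [Matrix.sub_apply, Matrix.smul_apply, Matrix.one_apply, hX, map_sub, map_sum, smul_eq_mul,
      map_mul, map_ofNat]
    congr 1
    · congr 1
      split_ifs
      · exact map_one _
      · exact map_zero _
    · refine Finset.sum_congr rfl fun k _ => ?_
      rw [map_mul, hφ, mul_one, map_intCast]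
  · ext i j
    rw [Matrix.transpose_apply, Matrix.map_apply, Matrix.sub_apply, Matrix.sub_apply,
      Matrix.smul_apply, Matrix.smul_apply, Matrix.one_apply, Matrix.one_apply, hX, hX, map_sub,
      map_sum, smul_eq_mul, smul_eq_mul, map_mul, map_ofNat]
    congr 1
    · congr 1
      by_cases hij : i = j
      · rw [if_pos hij, if_pos hij.symm, map_one]
      · rw [if_neg hij, if_neg (fun h => hij h.symm), map_zero]
    · rw [← Equiv.sum_comp (Equiv.neg (ZMod 7))]
      refine Finset.sum_congr rfl fun k _ => ?_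
      rw [Equiv.neg_apply, map_mul, hc, neg_neg, map_intCast, h1]
  · have h7 : ((3 : O) • (1 : Matrix (Fin 35) (Fin 35) O) - X) *
        ((3 : O) • (1 : Matrix (Fin 35) (Fin 35) O) - X) =
        (9 : O) • (1 : Matrix (Fin 35) (Fin 35) O) - (6 : O) • X + X * X := by
      rw [sub_mul, mul_sub, mul_sub, smul_mul_assoc, one_mul, mul_smul_comm, mul_one,
        smul_mul_assoc, one_mul]
      module
    rw [h7, hXX]
    module

end H60GQ
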