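import Pool.Agent.H60.GA.NoAR
import Pool.Agent.H60.GA.NoAM
import Pool.Agent.H60.GA.Herm
import Pool.Agent.H60.GA.DetPos
import Pool.Agent.H60.GA.Det5
import Pool.Agent.H60.GA.Compare

/-!
Project GQ part 4, module NoA: there is no circulant block matrix `a` as in `matA`.

`R` from `noA_R` (all entries are `≡ 2` modulo 5) and, over the ring `O` of `ring7`, `M` from `noA_M`. In
`ZMod 7`: `R = 5 φ(M)` (`15 = 5 * 3`, `7 = 0`).
`herm_fact` for `M` (`κ = 16`) and for `R` (`O = ℤ`, `c = RingHom.id ℤ`, `κ = 80`); `det B ∣ 16^b`;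
`det_pos_complex` for all `σ` and `c (det B) = det B`, so `key`: `φ (det B)` is a square;
`det_pos_int` and `det5`: `det B' = 5^(b'-1) 2^k`. `compare` over `ZMod 7` for the images (the determinants
are not 0 in `ZMod 7` as they divide `16^b`, `80^b'`), `κ = 5`: `b' = b` and
`5^(b-1) 2^k t^2 = 5^b φ(det B)`, so `2^k t^2 = 5 φ(det B)` in `ZMod 7`; `2 = 3^2`, `φ (det B) = w^2 ≠ 0`:
`5` is a square in `ZMod 7`, which is false (`decide`).
-/

namespace H60GQ

open Finset Matrix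

/-- `det B` divides `κ^b` if `B G = κ` -/
private theorem det_dvd_of_mul {O : Type*} [CommRing O] {b : ℕ} (B G : Matrix (Fin b) (Fin b) O)
    (κ : O) (h : B * G = κ • (1 : Matrix (Fin b) (Fin b) O)) : B.det ∣ κ ^ b := by
  have h1 := congrArg Matrix.det h
  rw [Matrix.det_mul, Matrix.det_smul, Matrix.det_one, mul_one, Fintype.card_fin] at h1
  exact ⟨G.det, h1.symm⟩

/-- the arithmetic of the contradiction -/
private theorem noA_arith : ∀ w t : ZMod 7, w ≠ 0 → t ≠ 0 → ∀ u : ZMod 7, u * u * t ^ 2 = 5 * (w * w) →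
    False := by
  decide

private theorem five_ne_seven : (5 : ZMod 7) ≠ 0 := by decide

private theorem two_eq_seven : (2 : ZMod 7) = 3 * 3 := by decide

private theorem det_map_ne {R : Type*} [CommRing R] (f : R →+* ZMod 7) {b : ℕ}
    (B : Matrix (Fin b) (Fin b) R) (κ : R) (hd : B.det ∣ κ ^ b) (hκ : f κ ≠ 0) :
    (B.map f).det ≠ 0 := by
  have : Fact (Nat.Prime 7) := ⟨by norm_num⟩
  have h1 : (B.map f).det = f B.det := (RingHom.map_det f B).symm
  rw [h1]
  intro h0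
  obtain ⟨x, hx⟩ := hd
  have h2 : f κ ^ b = 0 := by
    rw [← map_pow, hx, map_mul, h0, zero_mul]
  exact pow_ne_zero b hκ h2

theorem noA (a : Fin 35 → Fin 35 → ZMod 7 → ℤ) (h1 : ∀ i j k, a j i (-k) = a i j k)
    (h2 : ∀ i j k, ∑ l, ∑ m, a i l m * a l j (k - m) =
      39 * (if i = j ∧ k = 0 then 1 else 0) - 10 * a i j k + 13)
    (h3 : ∀ i, ∑ j, ∑ k, a i j k = 52) : False := by
  obtain ⟨O, _, _, _, ⟨D⟩⟩ := ring7
  obtain ⟨R, hR, hRt, hRR⟩ := noA_R a h1 h2 h3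
  obtain ⟨M, hM, hMt, hMM⟩ := noA_M D a h1 h2
  obtain ⟨b, Y, Z, B, hYZ, hMf, hBZ, hBt, hBd, hBG⟩ := herm_fact D.c D.c_c M hMt 16 hMM
  have hRt' : (R.map (RingHom.id ℤ))ᵀ = R := by
    rw [show (R.map (RingHom.id ℤ)) = R from by ext i j; rfl]
    exact hRt
  obtain ⟨b', Y', Z', B', hYZ', hMf', hBZ', hBt', hBd', hBG'⟩ :=
    herm_fact (RingHom.id ℤ) (fun _ => rfl) R hRt' 80 hRR
  have hYid : Y'.map (RingHom.id ℤ) = Y' := by ext i j; rfl
  have hZid : Z'.map (RingHom.id ℤ) = Z' := by ext i j; rfl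
  rw [hYid] at hMf' hBG'
  rw [hZid] at hBZ'
  -- the side of `O`
  have hdvd := det_dvd_of_mul B _ 16 hBG
  have hcd : D.c B.det = B.det := by
    have e1 : D.c B.det = (B.map D.c).det := RingHom.map_det D.c B
    rw [e1, ← Matrix.det_transpose, hBt]
  have hsq : IsSquare (D.φ B.det) :=
    D.key B.det hcd (fun σ => det_pos_complex D.c σ (D.conj σ) M hMt hMM Z B hBZ b hdvd) ⟨b, hdvd⟩
  -- the side of `ℤ`
  have hpos : 0 < B'.det := det_pos_int R hRt 80 (by norm_num) hRR Z' B' hBZ' hBd'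
  have h5 : ∀ i j, (R i j : ZMod 5) = 2 := by
    intro i j
    rw [hR i j]
    push_cast
    have e5 : (5 : ZMod 5) = 0 := by decide
    have e15 : (15 : ZMod 5) = 0 := by decide
    have e7 : (7 : ZMod 5) = 2 := by decide
    rw [e5, e15, e7, zero_mul, zero_mul, sub_zero, zero_add]
  obtain ⟨hb1, k, hk⟩ := det5 (by norm_num) R Y' Z' B' (Y' * Y'ᵀ) hYZ' hMf' hBZ' h5 hBG' hpos
  have hdvd' := det_dvd_of_mul B' _ 80 hBG'
  -- comparison
  have hc16 : D.φ 16 ≠ 0 := by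
    rw [map_ofNat]
    decide
  have hc80 : (Int.castRingHom (ZMod 7)) 80 ≠ 0 := by
    rw [map_ofNat]
    decide
  have hB0 := det_map_ne D.φ B 16 hdvd hc16
  have hB0' := det_map_ne (Int.castRingHom (ZMod 7)) B' 80 hdvd' hc80
  have hYZm : Y.map D.φ * Z.map D.φ = 1 := by
    rw [← Matrix.map_mul, hYZ, Matrix.map_one _ (map_zero _) (map_one _)]
  have hYZm' : Y'.map (Int.castRingHom (ZMod 7)) * Z'.map (Int.castRingHom (ZMod 7)) = 1 := by
    rw [← Matrix.map_mul, hYZ', Matrix.map_one _ (map_zero _) (map_one _)]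
  have hRm : R.map (Int.castRingHom (ZMod 7)) = (5 : ZMod 7) • M.map D.φ := by
    ext i j
    rw [Matrix.map_apply, Matrix.smul_apply, Matrix.map_apply, hM i j, hR i j]
    simp only [eq_intCast, smul_eq_mul]
    push_cast
    have e15 : (15 : ZMod 7) = 5 * 3 := by decide
    have e7 : (7 : ZMod 7) = 0 := by decide
    rw [e15, e7]
    split_ifs <;> ring
  have hh : (Y'.map (Int.castRingHom (ZMod 7)))ᵀ * B'.map (Int.castRingHom (ZMod 7)) *
      Y'.map (Int.castRingHom (ZMod 7)) = (5 : ZMod 7) • ((Y.map D.φ)ᵀ * B.map D.φ * Y.map D.φ) := by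
    have e1 : (Y'.map (Int.castRingHom (ZMod 7)))ᵀ * B'.map (Int.castRingHom (ZMod 7)) *
        Y'.map (Int.castRingHom (ZMod 7)) = R.map (Int.castRingHom (ZMod 7)) := by
      conv_rhs => rw [hMf']
      rw [Matrix.map_mul, Matrix.map_mul, Matrix.transpose_map]
    have e2 : (Y.map D.φ)ᵀ * B.map D.φ * Y.map D.φ = M.map D.φ := by
      conv_rhs => rw [hMf]
      rw [Matrix.map_mul, Matrix.map_mul, Matrix.transpose_map, Matrix.map_map]
      have e3 : Y.map (D.φ ∘ D.c) = Y.map D.φ := by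
        ext i j
        exact D.φ_c (Y i j)
      rw [e3]
    rw [e1, e2, hRm]
  have : Fact (Nat.Prime 7) := ⟨by norm_num⟩
  obtain ⟨hbb, t, ht, hcomp⟩ := compare (Y.map D.φ) (Z.map D.φ) (B.map D.φ) hYZm hB0
    (Y'.map (Int.castRingHom (ZMod 7))) (Z'.map (Int.castRingHom (ZMod 7)))
    (B'.map (Int.castRingHom (ZMod 7))) hYZm' hB0' 5 five_ne_seven hh
  subst hbb
  have hd1 : (B.map D.φ).det = D.φ B.det := (RingHom.map_det D.φ B).symm
  have hd2 : (B'.map (Int.castRingHom (ZMod 7))).det = (Int.castRingHom (ZMod 7)) B'.det :=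
    (RingHom.map_det _ B').symm
  rw [hd1] at hB0
  rw [hd1, hd2, hk, map_mul, map_pow, map_pow, map_ofNat, map_ofNat] at hcomp
  obtain ⟨w, hw⟩ := hsq
  rw [hw] at hcomp hB0
  have hw0 : w ≠ 0 := by
    intro h0
    apply hB0
    rw [h0, mul_zero]
  have h50 : (5 : ZMod 7) ≠ 0 := five_ne_seven
  have e2 : (2 : ZMod 7) = 3 * 3 := two_eq_seven
  have hfin : (3 : ZMod 7) ^ k * 3 ^ k * t ^ 2 = 5 * (w * w) := by
    apply mul_left_cancel₀ (pow_ne_zero (b' - 1) h50)
    rw [← mul_pow, ← e2]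
    have e3 : (5 : ZMod 7) ^ (b' - 1) * (5 * (w * w)) = 5 ^ b' * (w * w) := by
      rw [← mul_assoc, ← pow_succ, Nat.sub_add_cancel hb1]
    rw [e3, ← hcomp]
    ring
  exact noA_arith w t hw0 ht _ hfin

end H60GQ
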