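import Pool.Agent.H60.GA.MatA
import Pool.Agent.H60.GA.FixCases
import Pool.Agent.H60.GA.NoA
import Pool.Agent.H60.GA.Case11
import Pool.Agent.H60.GA.Case13

/-!
Project GQ part 4, main theorem: a quadrangle of order (4, 12) has no automorphism of prime order `≥ 7`.
-/

namespace H60GQ

universe u v

variable {P : Type u} {L : Type v} {I : P → L → Prop}

theorem main_aut [Finite P] [Finite L] (h : IsGQ I 4 12) {g : Equiv.Perm P} {k : Equiv.Perm L}
    (ha : IsAut I g k) {q : ℕ} (hq : q.Prime) (hq7 : 7 ≤ q) (hg : g ^ q = 1) : g = 1 ∧ k = 1 := by
  have hg1 : g = 1 := by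
    rcases Nat.lt_or_ge q 17 with h17 | h17
    · interval_cases q
      · by_contra hne
        have : Nonempty P := by
          by_contra hP
          rw [not_nonempty_iff] at hP
          exact hne (Subsingleton.elim _ _)
        obtain ⟨a, h1, h2, h3⟩ := matA h ha hg (no_fix7 h ha hg hne)
        exact noA a h1 h2 h3
      · exact absurd hq (by norm_num)
      · exact absurd hq (by norm_num)
      · exact absurd hq (by norm_num)
      · exact case11 h ha hg
      · exact absurd hq (by norm_num)
      · exact case13 h ha hg
      · exact absurd hq (by norm_num)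
      · exact absurd hq (by norm_num)
      · exact absurd hq (by norm_num)
    · exact case_big h ha hq h17 hg
  exact ⟨hg1, ha.line_one h (by norm_num) hg1⟩

end H60GQ
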