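import Pool.Agent.H60.GA.Srg
import Pool.Agent.H60.GA.Orbits5

/-!
Project GQ part 4, module Mat5: the circulant blocks of the adjacency matrix for an automorphism of
order 5 without fixed points (as in Mat5), and the number of points mapped to a collinear point.
-/

namespace H60GQ

open Finset

universe u v

variable {P : Type u} {L : Type v} {I : P → L → Prop}

theorem mat5 [Finite P] [Finite L] [Nonempty P] (h : IsGQ I 4 12) {g : Equiv.Perm P}
    {k : Equiv.Perm L} (ha : IsAut I g k) (h5x : g ^ 5 = 1) (hf : ∀ x, g x ≠ x) :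
    ∃ a : Fin 49 → Fin 49 → ZMod 5 → ℤ,
      (∀ i j k, a j i (-k) = a i j k) ∧
      (∀ i j k, ∑ l, ∑ m, a i l m * a l j (k - m) =
        39 * (if i = j ∧ k = 0 then 1 else 0) - 10 * a i j k + 13) ∧
      (∀ i, ∑ j, ∑ k, a i j k = 52) ∧ (∀ i, a i i 0 = 0) ∧
      5 * ∑ i, a i i 1 = ({x | Col I x (g x)}.ncard : ℤ) := by
  classical
  have := Fintype.ofFinite P
  have hP : Nat.card P = 245 := by
    rw [h.card_points]
  obtain ⟨e, he⟩ := orbits5 hP g h5x hf
  have hpow : ∀ (n : ℕ) (i : Fin 49) (m : ZMod 5), (g ^ n) (e (i, m)) = e (i, m + n) := by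
    intro n
    induction n with
    | zero => intro i m; simp
    | succ n ih =>
      intro i m
      rw [pow_succ', Equiv.Perm.mul_apply, ih, he, Nat.cast_succ, add_assoc]
  have hshift : ∀ (i j : Fin 49) (m q : ZMod 5),
      adj I (e (i, m)) (e (j, m + q)) = adj I (e (i, 0)) (e (j, q)) := by
    intro i j m q
    have h1 : e (i, m) = (g ^ m.val) (e (i, 0)) := by
      rw [hpow, zero_add, ZMod.natCast_zmod_val]
    have h2 : e (j, m + q) = (g ^ m.val) (e (j, q)) := by
      rw [hpow, ZMod.natCast_zmod_val, add_comm]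
    rw [h1, h2]
    exact (ha.pow m.val).adj _ _
  refine ⟨fun i j q => adj I (e (i, 0)) (e (j, q)), ?_, ?_, ?_, ?_, ?_⟩
  · intro i j q
    have h1 := hshift j i q (-q)
    rw [add_neg_cancel] at h1
    change adj I (e (j, 0)) (e (i, -q)) = adj I (e (i, 0)) (e (j, q))
    rw [← h1, adj_comm]
  · intro i j q
    have h1 : ∀ (l : Fin 49) (m : ZMod 5),
        adj I (e (l, 0)) (e (j, q - m)) = adj I (e (l, m)) (e (j, q)) := by
      intro l m
      have h2 := hshift l j m (q - m)
      rw [add_sub_cancel] at h2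
      exact h2.symm
    have h3 : ∑ l : Fin 49, ∑ m : ZMod 5,
        adj I (e (i, 0)) (e (l, m)) * adj I (e (l, 0)) (e (j, q - m)) =
        ∑ z, adj I (e (i, 0)) z * adj I z (e (j, q)) := by
      rw [← e.sum_comp, Fintype.sum_prod_type]
      refine Finset.sum_congr rfl fun l _ => Finset.sum_congr rfl fun m _ => ?_
      rw [h1]
    have h4 : (e (i, 0) = e (j, q)) ↔ (i = j ∧ q = 0) := by
      rw [e.injective.eq_iff, Prod.mk.injEq]
      constructor
      · rintro ⟨h5, h6⟩
        exact ⟨h5, h6.symm⟩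
      · rintro ⟨h5, h6⟩
        exact ⟨h5, h6.symm⟩
    change ∑ l : Fin 49, ∑ m : ZMod 5,
        adj I (e (i, 0)) (e (l, m)) * adj I (e (l, 0)) (e (j, q - m)) =
      39 * (if i = j ∧ q = 0 then 1 else 0) - 10 * adj I (e (i, 0)) (e (j, q)) + 13
    rw [h3, adj_sq h]
    by_cases hc : i = j ∧ q = 0
    · rw [if_pos hc, if_pos (h4.2 hc)]
    · rw [if_neg hc, if_neg (fun h5 => hc (h4.1 h5))]
  · intro i
    have h3 : ∑ j : Fin 49, ∑ q : ZMod 5, adj I (e (i, 0)) (e (j, q)) =
        ∑ z, adj I (e (i, 0)) z := by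
      rw [← e.sum_comp, Fintype.sum_prod_type]
    change ∑ j : Fin 49, ∑ q : ZMod 5, adj I (e (i, 0)) (e (j, q)) = 52
    rw [h3, adj_row h]
  · intro i
    change adj I (e (i, 0)) (e (i, 0)) = 0
    unfold adj
    rw [if_neg (fun e => e.1 rfl)]
  · change 5 * ∑ i : Fin 49, adj I (e (i, 0)) (e (i, 1)) = _
    have e1 : ∀ i : Fin 49, ∑ m : ZMod 5, adj I (e (i, m)) (e (i, m + 1)) =
        5 * adj I (e (i, 0)) (e (i, 1)) := by
      intro i
      rw [Finset.sum_congr rfl fun m _ => hshift i i m 1, Finset.sum_const, Finset.card_univ,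
        ZMod.card]
      simp
    rw [Finset.mul_sum, ← Finset.sum_congr rfl fun i _ => e1 i]
    have e2 : ∑ i : Fin 49, ∑ m : ZMod 5, adj I (e (i, m)) (e (i, m + 1)) =
        ∑ z, adj I z (g z) := by
      rw [← e.sum_comp, Fintype.sum_prod_type]
      refine Finset.sum_congr rfl fun l _ => Finset.sum_congr rfl fun m _ => ?_
      rw [he]
    rw [e2]
    have e3 : ∀ z, adj I z (g z) = if Col I z (g z) then 1 else 0 := by
      intro z
      unfold adj
      by_cases hc : Col I z (g z)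
      · rw [if_pos hc, if_pos ⟨(hf z).symm, hc⟩]
      · rw [if_neg hc, if_neg (fun e => hc e.2)]
    rw [Finset.sum_congr rfl fun z _ => e3 z, Finset.sum_boole, Set.ncard_eq_toFinset_card']
    congr 1
    simp

end H60GQ
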