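import Pool.Agent.H60.GA.MainAut
import Pool.Agent.H60.GA.Alpha5
import Pool.Agent.H60.GA.Mat5
import Pool.Agent.H60.GA.Fix5
import Pool.Agent.H60.GA.El1
import Pool.Agent.H60.GA.El2
import Pool.Agent.H60.GA.El3

/-!
Project GQ part 4, main theorem: automorphisms of prime order at least 5 of the quadrangles of order
(4, 11) and (4, 12).
-/

namespace H60GQ

universe u v

variable {P : Type u} {L : Type v} {I : P → L → Prop} {t : ℕ}

theorem prime12 [Finite P] [Finite L] (h : IsGQ I 4 12) {g : Equiv.Perm P} {k : Equiv.Perm L}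
    (ha : IsAut I g k) {q : ℕ} (hq : q.Prime) (hq5 : 5 ≤ q) (hgq : g ^ q = 1) (hg : g ≠ 1) :
    q = 5 ∧ (∀ x, g x ≠ x) ∧
      ({l | k l = l}.ncard = 2 ∨ {l | k l = l}.ncard = 7 ∨ {l | k l = l}.ncard = 12) ∧
      {x | Col I x (g x)}.ncard = 65 := by
  have hP : Nonempty P := by
    by_contra hP
    rw [not_nonempty_iff] at hP
    exact hg (Subsingleton.elim _ _)
  have h5 : q = 5 := by
    by_contra hne
    rcases Nat.lt_or_ge q 7 with h7 | h7
    · have : q = 6 := by omega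
      subst this
      exact absurd hq (by norm_num)
    · exact hg (main_aut h ha hq h7 hgq).1
  subst h5
  have hf : ∀ x, g x ≠ x := fix5_12 h ha hgq hg
  obtain ⟨a, h1, h2, h3, h0, h4⟩ := mat5 h ha hgq hf
  have h6 := alpha5 a h1 h2 h3 h0
  rw [h6] at h4
  have h65 : {x | Col I x (g x)}.ncard = 65 := by
    have : (({x | Col I x (g x)}.ncard : ℕ) : ℤ) = 65 := by rw [← h4]; norm_num
    exact_mod_cast this
  exact ⟨rfl, hf, lines5 h ha hgq hf h65, h65⟩

theorem prime11 [Finite P] [Finite L] (h : IsGQ I 4 11) {g : Equiv.Perm P} {k : Equiv.Perm L}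
    (ha : IsAut I g k) {q : ℕ} (hq : q.Prime) (hq5 : 5 ≤ q) (hgq : g ^ q = 1) (hg : g ≠ 1) :
    (q = 11 ∧ {l | k l = l}.ncard = 1 ∧ {x | g x = x}.ncard = 5) ∨
      (q = 5 ∧ ((∀ x, g x ≠ x) ∨ SubGQ I (FP g) {l | k l = l} 4 1)) := by
  have hP : Nonempty P := by
    by_contra hP
    rw [not_nonempty_iff] at hP
    exact hg (Subsingleton.elim _ _)
  by_cases h11 : q = 11
  · subst h11
    rcases eleven_struct h ha hgq with h1 | ⟨x, hx⟩
    · exact Or.inl ⟨rfl, h1.1, h1.2⟩
    · exact absurd (no_elation h ha hgq hx) hg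
  · rcases Nat.lt_or_ge q 7 with h7 | h7
    · have : q = 5 ∨ q = 6 := by omega
      rcases this with rfl | rfl
      · exact Or.inr ⟨rfl, fix5_11 h ha hgq hg⟩
      · exact absurd hq (by norm_num)
    · exact absurd (eleven_q h ha hq h7 h11 hgq) hg

end H60GQ
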