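import Mathlib

/-!
Project GQ part 4, module Orbits7: a permutation of order 7 without fixed points on 245 points.

The relation `x ~ y :⇔ ∃ n : ℕ, y = g^n x` (Mathlib: `Equiv.Perm.SameCycle`, a `Setoid`) has classes of
7 elements `x, g x, ..., g^6 x` (they are different: if `g^i x = g^j x`, `0 ≤ i < j < 7`, then
`g^(j-i) x = x` and, as `j - i` is invertible modulo 7 and `g^7 = 1`, `g x = x`). Choose a representative
of each class (`Quotient.out`); the map `(class, k : ZMod 7) ↦ g^(k.val) (representative)` is a bijection,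
and `g` is `k ↦ k + 1` (as `g^7 = 1`). So `245 = 7 * #classes`, there are 35 classes; compose with a
bijection of `Fin 35` with the set of classes.
(Alternatively: `MulAction` of `Multiplicative (ZMod 7)` or `Equiv.Perm` cycle lemmas.)
-/

namespace H60GQ

private theorem Orbits7_fix {P : Type*} (g : Equiv.Perm P) (h7 : g ^ 7 = 1)
    (x : P) (d : ℕ) (hd : 0 < d) (hd7 : d < 7) (h : (g ^ d) x = x) : g x = x := by
  have h1 : Function.IsPeriodicPt g 7 x := by
    unfold Function.IsPeriodicPt Function.IsFixedPt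
    rw [Equiv.Perm.iterate_eq_pow, h7]; rfl
  have h2 : Function.IsPeriodicPt g d x := by
    unfold Function.IsPeriodicPt Function.IsFixedPt
    rw [Equiv.Perm.iterate_eq_pow, h]
  have h3 := h1.gcd h2
  have h4 : Nat.gcd 7 d = 1 := by
    have hp : Nat.Prime 7 := by norm_num
    exact (Nat.Prime.coprime_iff_not_dvd hp).2 (fun hdv => by
      have := Nat.le_of_dvd hd hdv
      omega)
  rw [h4] at h3
  unfold Function.IsPeriodicPt Function.IsFixedPt at h3
  simpa using h3

theorem orbits7 {P : Type*} [Finite P] (hP : Nat.card P = 245) (g : Equiv.Perm P) (h7 : g ^ 7 = 1)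
    (hf : ∀ x, g x ≠ x) :
    ∃ e : Fin 35 × ZMod 7 ≃ P, ∀ i k, g (e (i, k)) = e (i, k + 1) := by
  classical
  let Q := Quotient (Equiv.Perm.SameCycle.setoid g)
  let f : Q × ZMod 7 → P := fun p => (g ^ p.2.val) (Quotient.out p.1)
  have hval : ∀ k : ZMod 7, k.val < 7 := fun k => ZMod.val_lt k
  have hsc : ∀ (x : P) (n : ℕ), Equiv.Perm.SameCycle g x ((g ^ n) x) := fun x n => ⟨n, by simp⟩
  have hinj : Function.Injective f := by
    rintro ⟨c, k⟩ ⟨c', l⟩ h
    change (g ^ k.val) (Quotient.out c) = (g ^ l.val) (Quotient.out c') at h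
    have hcc : c = c' := by
      have h1 : Equiv.Perm.SameCycle g (Quotient.out c) (Quotient.out c') := by
        refine (hsc (Quotient.out c) k.val).trans ?_
        rw [h]
        exact (hsc (Quotient.out c') l.val).symm
      have h2 : (Quotient.mk (Equiv.Perm.SameCycle.setoid g) (Quotient.out c)) =
          Quotient.mk (Equiv.Perm.SameCycle.setoid g) (Quotient.out c') := Quotient.sound h1
      rwa [Quotient.out_eq, Quotient.out_eq] at h2
    subst hcc
    have key : ∀ (x : P) (a b : ℕ), a < 7 → b < 7 → a < b → (g ^ a) x = (g ^ b) x → False := by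
      intro x a b ha hb hab he
      have h1 : (g ^ (b - a)) x = x := by
        have h2 : (g ^ b) x = (g ^ a) ((g ^ (b - a)) x) := by
          rw [← Equiv.Perm.mul_apply, ← pow_add]
          congr 2
          omega
        rw [h2] at he
        exact ((g ^ a).injective he).symm
      exact hf x (Orbits7_fix g h7 x (b - a) (by omega) (by omega) h1)
    have hkl : k.val = l.val := by
      rcases lt_trichotomy k.val l.val with h1 | h1 | h1
      · exact (key _ _ _ (hval k) (hval l) h1 h).elim
      · exact h1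
      · exact (key _ _ _ (hval l) (hval k) h1 h.symm).elim
    have hkl' : k = l := ZMod.val_injective 7 hkl
    rw [hkl']
  have hsurj : Function.Surjective f := by
    intro x
    have h1 : Equiv.Perm.SameCycle g (Quotient.out (Quotient.mk (Equiv.Perm.SameCycle.setoid g) x)) x :=
      Quotient.exact (Quotient.out_eq (Quotient.mk (Equiv.Perm.SameCycle.setoid g) x))
    obtain ⟨i, hi⟩ := h1
    refine ⟨(Quotient.mk (Equiv.Perm.SameCycle.setoid g) x, (i : ZMod 7)), ?_⟩
    change (g ^ ((i : ZMod 7)).val) (Quotient.out (Quotient.mk (Equiv.Perm.SameCycle.setoid g) x)) = x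
    have h2 : (g ^ ((i : ZMod 7)).val : Equiv.Perm P) = g ^ i := by
      rw [← zpow_natCast, ZMod.val_intCast]
      have h3 : i = (7 : ℤ) * (i / 7) + i % 7 := (Int.mul_ediv_add_emod i 7).symm
      conv_rhs => rw [h3, zpow_add, zpow_mul]
      have h4 : (g ^ (7 : ℤ) : Equiv.Perm P) = 1 := by
        have : (7 : ℤ) = ((7 : ℕ) : ℤ) := rfl
        rw [this, zpow_natCast, h7]
      rw [h4, one_zpow, one_mul]
      rfl
    rw [h2]
    exact hi
  have hstep : ∀ (c : Q) (k : ZMod 7), g (f (c, k)) = f (c, k + 1) := by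
    intro c k
    change g ((g ^ k.val) (Quotient.out c)) = (g ^ (k + 1).val) (Quotient.out c)
    rw [← Equiv.Perm.mul_apply, ← pow_succ', ZMod.val_add, ← pow_eq_pow_mod _ h7]
    rfl
  let F : Q × ZMod 7 ≃ P := Equiv.ofBijective f ⟨hinj, hsurj⟩
  have hcard : Nat.card Q = 35 := by
    have h1 : Nat.card (Q × ZMod 7) = Nat.card P := Nat.card_congr F
    rw [Nat.card_prod, hP, Nat.card_zmod] at h1
    omega
  have : Finite Q := Quotient.finite _
  let eQ : Fin 35 ≃ Q := (Finite.equivFinOfCardEq hcard).symm
  refine ⟨(Equiv.prodCongr eQ (Equiv.refl (ZMod 7))).trans F, ?_⟩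
  intro i k
  exact hstep (eQ i) k

end H60GQ
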