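import Pool.Agent.H60.GA.Srg
import Pool.Agent.H60.GA.Orbits7

/-!
Project GQ part 4, module MatA: the adjacency matrix of a quadrangle of order (4, 12) with an
automorphism `g` of order 7 without fixed points, in 35 x 35 blocks which are circulant.

`e` from `orbits7` (`Nat.card P = 245` by `IsGQ.card_points`; if `P` is empty the conclusion fails, so `P` is nonempty by
`hP`: a hypothesis), `a i j k = adj I (e (i, 0)) (e (j, k))`.
By induction `g^n (e (i, k)) = e (i, k + n)`, so `adj I (e (i, m)) (e (j, m + k)) = a i j k` for all `m`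
(`IsAut.adj` for the powers of `g`).
* (1) `a j i (-k) = adj I (e (j, 0)) (e (i, -k)) = adj I (e (j, k)) (e (i, 0)) = a i j k` (`adj_comm`).
* (2) `∑_z adj I x z adj I z y` with `x = e (i, 0)`, `y = e (j, k)`, `z = e (l, m)` (sum over `P` by the
  bijection `e`): the summand is `a i l m * a l j (k - m)`; and `x = y ↔ i = j ∧ k = 0`.
* (3) row sum.
-/

namespace H60GQ

open Finset

universe u v

variable {P : Type u} {L : Type v} {I : P → L → Prop}

theorem matA [Finite P] [Finite L] [Nonempty P] (h : IsGQ I 4 12) {g : Equiv.Perm P}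
    {k : Equiv.Perm L} (ha : IsAut I g k) (h7 : g ^ 7 = 1) (hf : ∀ x, g x ≠ x) :
    ∃ a : Fin 35 → Fin 35 → ZMod 7 → ℤ,
      (∀ i j k, a j i (-k) = a i j k) ∧
      (∀ i j k, ∑ l, ∑ m, a i l m * a l j (k - m) =
        39 * (if i = j ∧ k = 0 then 1 else 0) - 10 * a i j k + 13) ∧
      (∀ i, ∑ j, ∑ k, a i j k = 52) := by
  classical
  have := Fintype.ofFinite P
  have hP : Nat.card P = 245 := by
    rw [h.card_points]
  obtain ⟨e, he⟩ := orbits7 hP g h7 hf
  have hpow : ∀ (n : ℕ) (i : Fin 35) (m : ZMod 7), (g ^ n) (e (i, m)) = e (i, m + n) := by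
    intro n
    induction n with
    | zero => intro i m; simp
    | succ n ih =>
      intro i m
      rw [pow_succ', Equiv.Perm.mul_apply, ih, he, Nat.cast_succ, add_assoc]
  have hshift : ∀ (i j : Fin 35) (m q : ZMod 7),
      adj I (e (i, m)) (e (j, m + q)) = adj I (e (i, 0)) (e (j, q)) := by
    intro i j m q
    have h1 : e (i, m) = (g ^ m.val) (e (i, 0)) := by
      rw [hpow, zero_add, ZMod.natCast_zmod_val]
    have h2 : e (j, m + q) = (g ^ m.val) (e (j, q)) := by
      rw [hpow, ZMod.natCast_zmod_val, add_comm]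
    rw [h1, h2]
    exact (ha.pow m.val).adj _ _
  refine ⟨fun i j q => adj I (e (i, 0)) (e (j, q)), ?_, ?_, ?_⟩
  · intro i j q
    have h1 := hshift j i q (-q)
    rw [add_neg_cancel] at h1
    change adj I (e (j, 0)) (e (i, -q)) = adj I (e (i, 0)) (e (j, q))
    rw [← h1, adj_comm]
  · intro i j q
    have h1 : ∀ (l : Fin 35) (m : ZMod 7),
        adj I (e (l, 0)) (e (j, q - m)) = adj I (e (l, m)) (e (j, q)) := by
      intro l m
      have h2 := hshift l j m (q - m)
      rw [add_sub_cancel] at h2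
      exact h2.symm
    have h3 : ∑ l : Fin 35, ∑ m : ZMod 7,
        adj I (e (i, 0)) (e (l, m)) * adj I (e (l, 0)) (e (j, q - m)) =
        ∑ z, adj I (e (i, 0)) z * adj I z (e (j, q)) := by
      rw [← e.sum_comp, Fintype.sum_prod_type]
      refine Finset.sum_congr rfl fun l _ => Finset.sum_congr rfl fun m _ => ?_
      rw [h1]
    have h4 : (e (i, 0) = e (j, q)) ↔ (i = j ∧ q = 0) := by
      rw [e.injective.eq_iff, Prod.mk.injEq]
      constructor
      · rintro ⟨h5, h6⟩
        exact ⟨h5, h6.symm⟩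
      · rintro ⟨h5, h6⟩
        exact ⟨h5, h6.symm⟩
    change ∑ l : Fin 35, ∑ m : ZMod 7,
        adj I (e (i, 0)) (e (l, m)) * adj I (e (l, 0)) (e (j, q - m)) =
      39 * (if i = j ∧ q = 0 then 1 else 0) - 10 * adj I (e (i, 0)) (e (j, q)) + 13
    rw [h3, adj_sq h]
    by_cases hc : i = j ∧ q = 0
    · rw [if_pos hc, if_pos (h4.2 hc)]
    · rw [if_neg hc, if_neg (fun h5 => hc (h4.1 h5))]
  · intro i
    have h3 : ∑ j : Fin 35, ∑ q : ZMod 7, adj I (e (i, 0)) (e (j, q)) =
        ∑ z, adj I (e (i, 0)) z := by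
      rw [← e.sum_comp, Fintype.sum_prod_type]
    change ∑ j : Fin 35, ∑ q : ZMod 7, adj I (e (i, 0)) (e (j, q)) = 52
    rw [h3, adj_row h]

end H60GQ
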