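import Mathlib

/-!
Project GQ part 4, module NoAR: the integer matrix `R` of the sums of the blocks.

`Q i j = ∑_k a i j k`. (1): `Q` is symmetric (`∑_k a j i k = ∑_k a j i (-k)`). (2), summed over `k`:
`∑_l Q i l Q l j = 39 [i = j] - 10 Q i j + 7 * 13` (the inner sum `∑_k ∑_m a i l m a l j (k - m)` is
`Q i l * Q l j`, shift the index). (3): `∑_j Q i j = 52`, and by symmetry `∑_i Q i j = 52`.
`R = 15 - 5 Q + 7 J`, `J J = 35 J`, `Q J = J Q = 52 J`:
`R R = 225 + 25 Q^2 + 49 * 35 J - 150 Q + 210 J - 2 * 35 * 52 J`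
`= 225 + 975 - 250 Q + 2275 J + 1715 J - 150 Q + 210 J - 3640 J = 1200 - 400 Q + 560 J = 80 R`.
-/

namespace H60GQ

open Finset Matrix

/-- the matrices over `ℤ` -/
theorem noA_R (a : Fin 35 → Fin 35 → ZMod 7 → ℤ) (h1 : ∀ i j k, a j i (-k) = a i j k)
    (h2 : ∀ i j k, ∑ l, ∑ m, a i l m * a l j (k - m) =
      39 * (if i = j ∧ k = 0 then 1 else 0) - 10 * a i j k + 13)
    (h3 : ∀ i, ∑ j, ∑ k, a i j k = 52) :
    ∃ R : Matrix (Fin 35) (Fin 35) ℤ,
      (∀ i j, R i j = 15 * (if i = j then 1 else 0) - 5 * ∑ k, a i j k + 7) ∧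
      Rᵀ = R ∧ R * R = (80 : ℤ) • R := by
  have hQs : ∀ i j, ∑ k, a j i k = ∑ k, a i j k := by
    intro i j
    rw [← Equiv.sum_comp (Equiv.neg (ZMod 7)) (fun k => a j i k)]
    exact Finset.sum_congr rfl fun k _ => h1 i j k
  have hQ2 : ∀ i j, ∑ l, (∑ k, a i l k) * (∑ k, a l j k) =
      39 * (if i = j then 1 else 0) - 10 * ∑ k, a i j k + 91 := by
    intro i j
    have e1 : ∑ l, (∑ k, a i l k) * (∑ k, a l j k) =
        ∑ k, ∑ l, ∑ m, a i l m * a l j (k - m) := by
      rw [Finset.sum_comm]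
      refine Finset.sum_congr rfl fun l _ => ?_
      rw [Finset.sum_comm, Finset.sum_mul]
      refine Finset.sum_congr rfl fun m _ => ?_
      rw [← Finset.mul_sum]
      congr 1
      exact (Equiv.sum_comp (Equiv.subRight m) (fun k => a l j k)).symm
    rw [e1, Finset.sum_congr rfl fun k _ => h2 i j k, Finset.sum_add_distrib,
      Finset.sum_sub_distrib, ← Finset.mul_sum, ← Finset.mul_sum]
    have e2 : ∑ k : ZMod 7, (if i = j ∧ k = 0 then (1 : ℤ) else 0) = if i = j then 1 else 0 := by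
      by_cases hij : i = j
      · simp [hij]
      · simp [hij]
    have e3 : ∑ _k : ZMod 7, (13 : ℤ) = 91 := by
      rw [Finset.sum_const, Finset.card_univ, ZMod.card]
      norm_num
    rw [e2, e3]
  have h3' : ∀ j, ∑ i, ∑ k, a i j k = 52 := by
    intro j
    rw [← h3 j]
    exact Finset.sum_congr rfl fun i _ => hQs j i
  refine ⟨Matrix.of fun i j => 15 * (if i = j then 1 else 0) - 5 * ∑ k, a i j k + 7,
    fun i j => rfl, ?_, ?_⟩
  · ext i j
    rw [Matrix.transpose_apply, Matrix.of_apply, Matrix.of_apply, hQs i j]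
    by_cases hij : i = j
    · simp [hij]
    · simp [hij, Ne.symm hij]
  · ext i j
    rw [Matrix.mul_apply, Matrix.smul_apply, smul_eq_mul, Matrix.of_apply]
    simp only [Matrix.of_apply]
    have e : ∀ l, (15 * (if i = l then (1 : ℤ) else 0) - 5 * ∑ k, a i l k + 7) *
        (15 * (if l = j then (1 : ℤ) else 0) - 5 * ∑ k, a l j k + 7) =
        225 * ((if i = l then (1 : ℤ) else 0) * (if l = j then (1 : ℤ) else 0)) -
        75 * ((if i = l then (1 : ℤ) else 0) * ∑ k, a l j k) +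
        105 * (if i = l then (1 : ℤ) else 0) -
        75 * ((∑ k, a i l k) * (if l = j then (1 : ℤ) else 0)) +
        25 * ((∑ k, a i l k) * (∑ k, a l j k)) -
        35 * (∑ k, a i l k) +
        105 * (if l = j then (1 : ℤ) else 0) - 35 * (∑ k, a l j k) + 49 := by
      intro l
      ring
    rw [Finset.sum_congr rfl fun l _ => e l]
    simp only [Finset.sum_add_distrib, Finset.sum_sub_distrib, ← Finset.mul_sum]
    rw [hQ2 i j, h3 i, h3' j]
    have f1 : ∑ l, (if i = l then (1 : ℤ) else 0) * (if l = j then (1 : ℤ) else 0) =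
        if i = j then 1 else 0 := by
      simp [Finset.sum_ite_eq]
    have f2 : ∑ l, (if i = l then (1 : ℤ) else 0) * ∑ k, a l j k = ∑ k, a i j k := by
      simp [Finset.sum_ite_eq]
    have f3 : ∑ l, (∑ k, a i l k) * (if l = j then (1 : ℤ) else 0) = ∑ k, a i j k := by
      simp [Finset.sum_ite_eq']
    have f4 : ∑ l, (if i = l then (1 : ℤ) else 0) = 1 := by
      simp [Finset.sum_ite_eq]
    have f5 : ∑ l, (if l = j then (1 : ℤ) else 0) = 1 := by
      simp [Finset.sum_ite_eq']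
    have f6 : ∑ _l : Fin 35, (49 : ℤ) = 1715 := by
      rw [Finset.sum_const, Finset.card_univ, Fintype.card_fin]
      norm_num
    rw [f1, f2, f3, f4, f5, f6]
    ring

end H60GQ
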