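import Mathlib

/-!
Project GQ part 4, module Pid7: the ring of integers of the 7-th cyclotomic field is a principal ideal
domain.

Use `RingOfIntegers.isPrincipalIdealRing_of_isPrincipal_of_norm_le_of_isPrime` (NumberTheory/NumberField/
ClassNumber.lean); compare `three_pid`, `five_pid` in NumberTheory/NumberField/Cyclotomic/PID.lean (their
criterion fails here). Minkowski bound: degree 6 (`IsCyclotomicExtension.finrank`), 3 complex places
(`IsCyclotomicExtension.Rat.nrComplexPlaces_eq_totient_div_two`), discriminant `-7^5`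
(`IsCyclotomicExtension.Rat.discr_prime`, as in PID.lean):
`(4/π)^3 * (720/46656) * √16807 < 5` (`π > 3.14`: `(4/3.14)^3 < 2.0674`, `√16807 < 129.65`; product 4.14).
So it is enough to see that a nonzero prime ideal `J` has norm at least 5. Otherwise `𝓞 K ⧸ J` is a finite
domain, so a field, with `q = absNorm J` elements, `q ≤ 4` (`q ≥ 2` as `J ≠ ⊤`; `q ≠ 0` as `J ≠ ⊥`).
The image `w` of `ζ` satisfies `w ^ 7 = 1` and `w ^ (q - 1) = 1` with `q - 1 ∈ {1, 2, 3}`, coprime to 7, so
`w = 1`. As `∑_{k<7} ζ^k = 0`, we get `7 = 0` in the quotient, which is a field with `q ∈ {2, 3, 4}`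
elements: also `q = 0` in it (`card` of a finite additive group annihilates it), and 7, q are coprime, so
`1 = 0`, a contradiction.
-/

namespace H60GQ

open NumberField

open scoped nonZeroDivisors Real

private theorem Pid7_num : (4 / π) ^ 3 * (((6 : ℕ).factorial : ℝ) / (6 : ℝ) ^ 6 * √16807) < 5 := by
  have hpi : (3.14 : ℝ) < π := Real.pi_gt_d2
  have h1 : (4 / π) ^ 3 ≤ (4 / 3.14 : ℝ) ^ 3 := by gcongr
  have h2 : √16807 ≤ (129.65 : ℝ) := by
    rw [Real.sqrt_le_left (by norm_num)]
    norm_num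
  have h3 : (((6 : ℕ).factorial : ℝ) / (6 : ℝ) ^ 6) = 720 / 46656 := by
    norm_num [Nat.factorial]
  rw [h3]
  have h4 : (0 : ℝ) ≤ √16807 := Real.sqrt_nonneg _
  calc (4 / π) ^ 3 * (720 / 46656 * √16807)
      ≤ (4 / 3.14 : ℝ) ^ 3 * (720 / 46656 * 129.65) := by gcongr
    _ < 5 := by norm_num

private theorem Pid7_quot {R : Type*} [CommRing R] (J : Ideal R) (hJ : J.IsMaximal)
    (z : R) (hz : z ^ 7 = 1) (hs : ∑ k ∈ Finset.range 7, z ^ k = 0)
    (hf : Finite (R ⧸ J)) (hc : Nat.card (R ⧸ J) ≤ 4) : False := by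
  let _ := Ideal.Quotient.field J
  let _ := Fintype.ofFinite (R ⧸ J)
  set w : R ⧸ J := Ideal.Quotient.mk J z with hw
  have hw7 : w ^ 7 = 1 := by
    rw [hw, ← map_pow, hz, map_one]
  have hw0 : w ≠ 0 := by
    intro h
    rw [h] at hw7
    norm_num at hw7
  have hsum : ∑ k ∈ Finset.range 7, w ^ k = 0 := by
    have := congrArg (Ideal.Quotient.mk J) hs
    rw [map_sum, map_zero] at this
    simpa [hw] using this
  have hq : Fintype.card (R ⧸ J) ≤ 4 := by
    rw [← Nat.card_eq_fintype_card]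
    exact hc
  have hq2 : 1 < Fintype.card (R ⧸ J) := Fintype.one_lt_card
  have hpow := FiniteField.pow_card_sub_one_eq_one w hw0
  have hcast : ((Fintype.card (R ⧸ J) : ℕ) : R ⧸ J) = 0 := Nat.cast_card_eq_zero _
  have key : ∀ q : ℕ, 1 < q → q ≤ 4 → w ^ (q - 1) = 1 → ((q : ℕ) : R ⧸ J) = 0 → False := by
    intro q h1 h4 hp hz0
    have hw1 : w = 1 := by
      interval_cases q
      · simpa using hp
      · have h2 : w ^ 2 = 1 := by simpa using hp
        calc w = (w ^ 2) ^ 3 * w := by rw [h2]; ring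
          _ = w ^ 7 := by ring
          _ = 1 := hw7
      · have h3 : w ^ 3 = 1 := by simpa using hp
        calc w = (w ^ 3) ^ 2 * w := by rw [h3]; ring
          _ = w ^ 7 := by ring
          _ = 1 := hw7
    have h7 : (7 : R ⧸ J) = 0 := by
      rw [hw1] at hsum
      simpa using hsum
    have hone : (1 : R ⧸ J) = 0 := by
      interval_cases q
      · have h2 : (2 : R ⧸ J) = 0 := by exact_mod_cast hz0
        linear_combination h7 - 3 * h2
      · have h3 : (3 : R ⧸ J) = 0 := by exact_mod_cast hz0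
        linear_combination h7 - 2 * h3
      · have h4' : (4 : R ⧸ J) = 0 := by exact_mod_cast hz0
        linear_combination 2 * h4' - h7
    exact one_ne_zero hone
  exact key _ hq2 hq hpow hcast

theorem seven_pid (K : Type*) [Field K] [NumberField K] [IsCyclotomicExtension {7} ℚ K] :
    IsPrincipalIdealRing (𝓞 K) := by
  have h7p : Fact (Nat.Prime 7) := ⟨by norm_num⟩
  refine RingOfIntegers.isPrincipalIdealRing_of_isPrincipal_of_norm_le_of_isPrime
    (fun I hI hN => ?_)
  exfalso
  have hne : (I : Ideal (𝓞 K)) ≠ ⊥ := nonZeroDivisors.coe_ne_zero I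
  have hmax : (I : Ideal (𝓞 K)).IsMaximal := hI.isMaximal hne
  have hfin : Finite (𝓞 K ⧸ (I : Ideal (𝓞 K))) :=
    (Ideal.absNorm_ne_zero_iff _).mp (Ideal.absNorm_ne_zero_of_nonZeroDivisors I)
  have hlt : (Ideal.absNorm (I : Ideal (𝓞 K)) : ℝ) < 5 := by
    refine lt_of_le_of_lt hN ?_
    rw [IsCyclotomicExtension.Rat.discr_prime 7 K, IsCyclotomicExtension.finrank (n := 7) K
      (Polynomial.cyclotomic.irreducible_rat (by norm_num)),
      IsCyclotomicExtension.Rat.nrComplexPlaces_eq_totient_div_two 7,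
      Nat.totient_prime h7p.out]
    have h := Pid7_num
    norm_num at h ⊢
    exact h
  have hle : Nat.card (𝓞 K ⧸ (I : Ideal (𝓞 K))) ≤ 4 := by
    have h5 : Ideal.absNorm (I : Ideal (𝓞 K)) < 5 := by exact_mod_cast hlt
    rw [Ideal.absNorm_apply, Submodule.cardQuot_apply] at h5
    omega
  have hζ := (IsCyclotomicExtension.zeta_spec 7 ℚ K).toInteger_isPrimitiveRoot
  exact Pid7_quot (I : Ideal (𝓞 K)) hmax _ hζ.pow_eq_one
    (hζ.geom_sum_eq_zero (by norm_num)) hfin hle

end H60GQ
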