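import Mathlib

/-!
Project GQ part 4, module Ring5: the properties of `ℤ[ζ]`, `ζ` a primitive 5-th root of unity, which are
used, as a structure; existence (as in Lift7 and Ring7).
-/

namespace H60GQ

open NumberField Finset

structure Ring5 (O : Type) [CommRing O] where
  z : O
  c : O →+* O
  φ : O →+* ZMod 5
  z_sum : ∑ k ∈ range 5, z ^ k = 0
  c_z : c z = z ^ 4
  c_c : ∀ x, c (c x) = x
  φ_z : φ z = 1
  φ_c : ∀ x, φ (c x) = φ x
  inj : Function.Injective (Int.castRingHom O)

section lift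

variable {K : Type*} [Field K] [NumberField K] [IsCyclotomicExtension {5} ℚ K] {ζ : K}

private theorem Ring5_z_sum (hζ : IsPrimitiveRoot ζ 5) : ∑ k ∈ range 5, hζ.toInteger ^ k = 0 :=
  hζ.toInteger_isPrimitiveRoot.geom_sum_eq_zero (by norm_num)

private theorem Ring5_minpoly (hζ : IsPrimitiveRoot ζ 5) :
    minpoly ℤ hζ.toInteger = Polynomial.cyclotomic 5 ℤ := by
  have h5 : (0 : ℕ) < 5 := by norm_num
  have h := Polynomial.cyclotomic_eq_minpoly hζ h5
  have h2 : minpoly ℤ (algebraMap (𝓞 K) K hζ.toInteger) = minpoly ℤ hζ.toInteger :=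
    minpoly.algebraMap_eq RingOfIntegers.coe_injective _
  rw [← h2, h]
  rfl

private theorem Ring5_lift (hζ : IsPrimitiveRoot ζ 5) {S : Type*} [CommRing S] (s : S)
    (hs : ∑ k ∈ range 5, s ^ k = 0) : ∃ f : 𝓞 K →+* S, f hζ.toInteger = s := by
  have : Fact (Nat.Prime 5) := ⟨by norm_num⟩
  have hy : Polynomial.aeval s (minpoly ℤ hζ.integralPowerBasis.gen) = 0 := by
    rw [hζ.integralPowerBasis_gen, Ring5_minpoly hζ, Polynomial.cyclotomic_prime]
    simpa using hs
  refine ⟨(hζ.integralPowerBasis.lift s hy).toRingHom, ?_⟩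
  have := hζ.integralPowerBasis.lift_gen s hy
  rw [hζ.integralPowerBasis_gen] at this
  exact this

private theorem Ring5_ext (hζ : IsPrimitiveRoot ζ 5) {S : Type*} [CommRing S] (f g : 𝓞 K →+* S)
    (hfg : f hζ.toInteger = g hζ.toInteger) : f = g := by
  have h : f.toIntAlgHom = g.toIntAlgHom := by
    apply hζ.integralPowerBasis.algHom_ext
    rw [hζ.integralPowerBasis_gen]
    exact hfg
  ext x
  exact congrArg (fun F : 𝓞 K →ₐ[ℤ] S => F x) h

end lift

private theorem Ring5_sum_pow_four {R : Type*} [CommRing R] {z : R} (h5 : z ^ 5 = 1)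
    (h : ∑ k ∈ range 5, z ^ k = 0) : ∑ k ∈ range 5, (z ^ 4) ^ k = 0 := by
  simp only [sum_range_succ, sum_range_zero, zero_add, pow_zero, pow_one] at h ⊢
  have e2 : (z ^ 4) ^ 2 = z ^ 3 := by
    calc (z ^ 4) ^ 2 = z ^ 5 * z ^ 3 := by ring
      _ = z ^ 3 := by rw [h5, one_mul]
  have e3 : (z ^ 4) ^ 3 = z ^ 2 := by
    calc (z ^ 4) ^ 3 = (z ^ 5) ^ 2 * z ^ 2 := by ring
      _ = z ^ 2 := by rw [h5, one_pow, one_mul]
  have e4 : (z ^ 4) ^ 4 = z := by
    calc (z ^ 4) ^ 4 = (z ^ 5) ^ 3 * z := by ring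
      _ = z := by rw [h5, one_pow, one_mul]
  rw [e2, e3, e4]
  linear_combination h

theorem ring5 : ∃ (O : Type) (_ : CommRing O) (_ : IsDomain O) (_ : IsPrincipalIdealRing O),
    Nonempty (Ring5 O) := by
  have : NeZero ((5 : ℕ) : ℚ) := ⟨by norm_num⟩
  let K := CyclotomicField 5 ℚ
  have : IsCyclotomicExtension {5} ℚ K := CyclotomicField.isCyclotomicExtension 5 ℚ
  have : NumberField K := IsCyclotomicExtension.numberField {5} ℚ K
  let ζ := IsCyclotomicExtension.zeta 5 ℚ K
  have hζ : IsPrimitiveRoot ζ 5 := IsCyclotomicExtension.zeta_spec 5 ℚ K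
  have hs := Ring5_z_sum hζ
  have h5 : hζ.toInteger ^ 5 = 1 := by
    have h1 := geom_sum_mul hζ.toInteger 5
    rw [hs, zero_mul] at h1
    exact (sub_eq_zero.1 h1.symm)
  obtain ⟨c, hc⟩ := Ring5_lift hζ (hζ.toInteger ^ 4) (Ring5_sum_pow_four h5 hs)
  obtain ⟨φ, hφ⟩ := Ring5_lift hζ (1 : ZMod 5) (by
    simp only [one_pow, sum_const, card_range]
    decide)
  have hcc : ∀ x, c (c x) = x := by
    have he : c.comp c = RingHom.id _ := by
      apply Ring5_ext hζ
      rw [RingHom.comp_apply, hc, map_pow, hc, RingHom.id_apply]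
      calc (hζ.toInteger ^ 4) ^ 4 = (hζ.toInteger ^ 5) ^ 3 * hζ.toInteger := by ring
        _ = hζ.toInteger := by rw [h5, one_pow, one_mul]
    intro x
    have := congrArg (fun f => f x) he
    exact this
  have hφc : ∀ x, φ (c x) = φ x := by
    have he : φ.comp c = φ := by
      apply Ring5_ext hζ
      rw [RingHom.comp_apply, hc, map_pow, hφ, one_pow]
    intro x
    have := congrArg (fun f => f x) he
    exact this
  refine ⟨NumberField.RingOfIntegers K, inferInstance, inferInstance,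
    IsCyclotomicExtension.Rat.five_pid K, ⟨?_⟩⟩
  exact
    { z := hζ.toInteger
      c := c
      φ := φ
      z_sum := hs
      c_z := hc
      c_c := hcc
      φ_z := hφ
      φ_c := hφc
      inj := by
        rw [injective_iff_map_eq_zero]
        intro a ha
        have h0 : (a : NumberField.RingOfIntegers K) = 0 := by simpa using ha
        exact_mod_cast h0 }

end H60GQ
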