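import Pool.Agent.H60.GA.Pid7
import Pool.Agent.H60.GA.Key7

/-!
Project GQ part 4, module Ring7: the properties of `ℤ[ζ]`, `ζ` a primitive 7-th root of unity, which are
used, as a structure; existence.

Proof of `ring7`: `O = 𝓞 (CyclotomicField 7 ℚ)`, `ζ = IsCyclotomicExtension.zeta 7 ℚ _` (give the instance
`IsCyclotomicExtension {7} ℚ (CyclotomicField 7 ℚ)` by hand if it is not found, with
`NeZero ((7 : ℕ) : ℚ)`), `z = hζ.toInteger`; `c` from `lift7` with `s = z^6`, `φ` from `lift7` with `s = 1`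
(`∑_{k<7} 1 = 7 = 0` in `ZMod 7`). `c_c`: `ext7` (`z^36 = z`). `conj`: `ext7` for `σ ∘ c` and
`(starRingEnd ℂ) ∘ σ`: `σ z ^ 6 = conj (σ z)` since `(σ z)^7 = 1`, so `‖σ z‖ = 1`. `key`: `key7`.
PID: `seven_pid`.
-/

namespace H60GQ

open Finset

structure Ring7 (O : Type) [CommRing O] where
  z : O
  c : O →+* O
  φ : O →+* ZMod 7
  z_sum : ∑ k ∈ range 7, z ^ k = 0
  c_z : c z = z ^ 6
  c_c : ∀ x, c (c x) = x
  φ_z : φ z = 1
  φ_c : ∀ x, φ (c x) = φ x
  conj : ∀ (σ : O →+* ℂ) (x : O), σ (c x) = (starRingEnd ℂ) (σ x)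
  key : ∀ β : O, c β = β → (∀ σ : O →+* ℂ, ∃ r : ℝ, 0 < r ∧ σ β = r) → (∃ n : ℕ, β ∣ 16 ^ n) →
    IsSquare (φ β)

/-- `z^7 = 1` from the vanishing sum of the first seven powers -/
private theorem pow_seven_of_sum {R : Type*} [CommRing R] {z : R}
    (h : ∑ k ∈ range 7, z ^ k = 0) : z ^ 7 = 1 := by
  have h1 := geom_sum_mul z 7
  rw [h, zero_mul] at h1
  exact (sub_eq_zero.1 h1.symm)

private theorem sum_pow_six {R : Type*} [CommRing R] {z : R} (h7 : z ^ 7 = 1)
    (h : ∑ k ∈ range 7, z ^ k = 0) : ∑ k ∈ range 7, (z ^ 6) ^ k = 0 := by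
  simp only [sum_range_succ, sum_range_zero, zero_add, pow_zero, pow_one] at h ⊢
  have e2 : (z ^ 6) ^ 2 = z ^ 5 := by
    calc (z ^ 6) ^ 2 = z ^ 7 * z ^ 5 := by ring
      _ = z ^ 5 := by rw [h7, one_mul]
  have e3 : (z ^ 6) ^ 3 = z ^ 4 := by
    calc (z ^ 6) ^ 3 = (z ^ 7) ^ 2 * z ^ 4 := by ring
      _ = z ^ 4 := by rw [h7, one_pow, one_mul]
  have e4 : (z ^ 6) ^ 4 = z ^ 3 := by
    calc (z ^ 6) ^ 4 = (z ^ 7) ^ 3 * z ^ 3 := by ring
      _ = z ^ 3 := by rw [h7, one_pow, one_mul]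
  have e5 : (z ^ 6) ^ 5 = z ^ 2 := by
    calc (z ^ 6) ^ 5 = (z ^ 7) ^ 4 * z ^ 2 := by ring
      _ = z ^ 2 := by rw [h7, one_pow, one_mul]
  have e6 : (z ^ 6) ^ 6 = z := by
    calc (z ^ 6) ^ 6 = (z ^ 7) ^ 5 * z := by ring
      _ = z := by rw [h7, one_pow, one_mul]
  rw [e2, e3, e4, e5, e6]
  linear_combination h

theorem ring7 : ∃ (O : Type) (_ : CommRing O) (_ : IsDomain O) (_ : IsPrincipalIdealRing O),
    Nonempty (Ring7 O) := by
  have : NeZero ((7 : ℕ) : ℚ) := ⟨by norm_num⟩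
  let K := CyclotomicField 7 ℚ
  have : IsCyclotomicExtension {7} ℚ K := CyclotomicField.isCyclotomicExtension 7 ℚ
  have : NumberField K := IsCyclotomicExtension.numberField {7} ℚ K
  let ζ := IsCyclotomicExtension.zeta 7 ℚ K
  have hζ : IsPrimitiveRoot ζ 7 := IsCyclotomicExtension.zeta_spec 7 ℚ K
  have hs := z_sum hζ
  have h7 : hζ.toInteger ^ 7 = 1 := pow_seven_of_sum hs
  obtain ⟨c, hc⟩ := lift7 hζ (hζ.toInteger ^ 6) (sum_pow_six h7 hs)
  obtain ⟨φ, hφ⟩ := lift7 hζ (1 : ZMod 7) (by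
    simp only [one_pow, sum_const, card_range]
    decide)
  have hcc : ∀ x, c (c x) = x := by
    have he : c.comp c = RingHom.id _ := by
      apply ext7 hζ
      rw [RingHom.comp_apply, hc, map_pow, hc, RingHom.id_apply]
      calc (hζ.toInteger ^ 6) ^ 6 = (hζ.toInteger ^ 7) ^ 5 * hζ.toInteger := by ring
        _ = hζ.toInteger := by rw [h7, one_pow, one_mul]
    intro x
    have := congrArg (fun f => f x) he
    exact this
  have hφc : ∀ x, φ (c x) = φ x := by
    have he : φ.comp c = φ := by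
      apply ext7 hζ
      rw [RingHom.comp_apply, hc, map_pow, hφ, one_pow]
    intro x
    have := congrArg (fun f => f x) he
    exact this
  have hconj : ∀ (σ : NumberField.RingOfIntegers K →+* ℂ) (x : NumberField.RingOfIntegers K),
      σ (c x) = (starRingEnd ℂ) (σ x) := by
    intro σ
    have he : σ.comp c = (starRingEnd ℂ).comp σ := by
      apply ext7 hζ
      rw [RingHom.comp_apply, RingHom.comp_apply, hc, map_pow]
      have h8 : (σ hζ.toInteger) ^ 7 = 1 := by rw [← map_pow, h7, map_one]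
      have hn : ‖σ hζ.toInteger‖ = 1 := Complex.norm_eq_one_of_pow_eq_one h8 (by norm_num)
      have h9 : σ hζ.toInteger ≠ 0 := by
        intro h0
        rw [h0, norm_zero] at hn
        exact zero_ne_one hn
      have h10 : σ hζ.toInteger * (starRingEnd ℂ) (σ hζ.toInteger) = 1 := by
        rw [Complex.mul_conj, Complex.normSq_eq_norm_sq, hn]
        norm_num
      apply mul_left_cancel₀ h9
      rw [h10, ← h8]
      ring
    intro x
    have := congrArg (fun f => f x) he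
    exact this
  refine ⟨NumberField.RingOfIntegers K, inferInstance, inferInstance, seven_pid K, ⟨?_⟩⟩
  exact
    { z := hζ.toInteger
      c := c
      φ := φ
      z_sum := hs
      c_z := hc
      c_c := hcc
      φ_z := hφ
      φ_c := hφc
      conj := hconj
      key := fun β h1 h2 h3 => by
        obtain ⟨n, hn⟩ := h3
        exact key7 hζ c hc φ hφ β h1 h2 n hn }

end H60GQ
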