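import Pool.Agent.H60.GA.Defs

/-!
Project GQ part 4, module Srg: the equations of the collinearity graph (order (4, 12)).

* `adj_row`: a point has 52 neighbours: `IsGQ.nbr_card` (file GQ/Counts.lean), 4 * 13.
* `adj_sq`: number of common neighbours. `x = y`: 52 = 39 + 13. `x, y` collinear, on the line `l`: a
  common neighbour is on `l` (`IsGQ.mem_of_col`), so there are 5 - 2 = 3 = -10 + 13. `x, y` not
  collinear: 13 by `IsGQ.common_card` (there `r` with `Col I x r ∧ Col I y r` is automatically different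
  from `x` and `y`).
* `RR_sq`: `RR I x y = 15 [x = y] - 5 adj I x y + 1` (use `IsGQ.col_refl` for `x = y`), expand and use
  `adj_row`, `adj_sq`, `Nat.card P = 245` (`IsGQ.card_points`: (4+1)(4*12+1)):
  `R^2 = 225 + 25 A^2 + 245 J - 150 A + 30 J - 2*5*52 J` with `A^2 = 39 - 10 A + 13 J` is
  `1200 - 400 A + 80 J = 80 R`.
* `gram_nonneg`: `80 * ∑∑ c x c y R x y = ∑_z (∑_x c x R x z)^2 ≥ 0` by `RR_sq` and `RR_comm`.
-/

namespace H60GQ

open Finset

universe u v

variable {P : Type u} {L : Type v} {I : P → L → Prop}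

private theorem Srg_conv {α : Type*} [Fintype α] (p : α → Prop) [DecidablePred p] :
    {x | p x}.ncard = (Finset.univ.filter p).card := by
  rw [Set.ncard_eq_toFinset_card', Set.toFinset_ofPred]

private theorem Srg_sum {α : Type*} [Fintype α] (p : α → Prop) [DecidablePred p] :
    ∑ x, (if p x then (1 : ℤ) else 0) = (({x | p x}.ncard : ℕ) : ℤ) := by
  rw [Srg_conv p, Finset.sum_boole]

theorem adj_row [Fintype P] [Finite L] (h : IsGQ I 4 12) (x : P) : ∑ z, adj I x z = 52 := by
  classical
  have h1 : {q | x ≠ q ∧ Col I x q} = {q | q ≠ x ∧ Col I x q} := by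
    ext q
    simp only [Set.mem_ofPred_eq, ne_comm]
  have h2 := h.nbr_card x
  have h3 : ∑ z, adj I x z = ∑ z, (if x ≠ z ∧ Col I x z then (1 : ℤ) else 0) := by
    refine Finset.sum_congr rfl (fun z _ => ?_)
    unfold adj
    congr
  rw [h3, Srg_sum (fun z => x ≠ z ∧ Col I x z), h1, h2]
  norm_num

private theorem Srg_adj_mul (x y z : P) [Decidable ((x ≠ z ∧ Col I x z) ∧ (z ≠ y ∧ Col I z y))] :
    adj I x z * adj I z y =
      if (x ≠ z ∧ Col I x z) ∧ (z ≠ y ∧ Col I z y) then 1 else 0 := by
  unfold adj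
  by_cases h1 : x ≠ z ∧ Col I x z
  · by_cases h2 : z ≠ y ∧ Col I z y
    · rw [if_pos h1, if_pos h2, if_pos ⟨h1, h2⟩]
      norm_num
    · rw [if_pos h1, if_neg h2, if_neg (fun e => h2 e.2)]
      norm_num
  · rw [if_neg h1, zero_mul, if_neg (fun e => h1 e.1)]

private theorem Srg_adj_self (x : P) : adj I x x = 0 := by
  unfold adj
  rw [if_neg (fun e => e.1 rfl)]

theorem adj_sq [Fintype P] [DecidableEq P] [Finite L] (h : IsGQ I 4 12) (x y : P) :
    ∑ z, adj I x z * adj I z y = 39 * (if x = y then 1 else 0) - 10 * adj I x y + 13 := by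
  classical
  by_cases hxy : x = y
  · subst hxy
    rw [if_pos rfl, Srg_adj_self]
    have h1 : ∀ z, adj I x z * adj I z x = adj I x z := by
      intro z
      rw [adj_comm z x]
      unfold adj
      split_ifs <;> norm_num
    rw [Finset.sum_congr rfl (fun z _ => h1 z), adj_row h x]
    norm_num
  · rw [if_neg hxy]
    rw [Finset.sum_congr rfl (fun z _ => Srg_adj_mul x y z),
      Srg_sum (fun z => (x ≠ z ∧ Col I x z) ∧ (z ≠ y ∧ Col I z y))]
    by_cases hc : Col I x y
    · have ha : adj I x y = 1 := by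
        unfold adj
        rw [if_pos ⟨hxy, hc⟩]
      rw [ha]
      obtain ⟨l, hx, hy⟩ := hc
      have hs : {z | (x ≠ z ∧ Col I x z) ∧ (z ≠ y ∧ Col I z y)} = ({z | I z l} \ {x}) \ {y} := by
        ext z
        simp only [Set.mem_ofPred_eq, Set.mem_sdiff, Set.mem_singleton_iff]
        constructor
        · rintro ⟨⟨h1, h2⟩, h3, h4⟩
          exact ⟨⟨h.mem_of_col hxy hx hy (col_comm.1 h2) h4, fun e => h1 e.symm⟩, h3⟩
        · rintro ⟨⟨h1, h2⟩, h3⟩
          exact ⟨⟨fun e => h2 e.symm, l, hx, h1⟩, h3, l, h1, hy⟩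
      have hfin : {z | I z l}.Finite := Set.toFinite _
      have h1 : ({z | I z l} \ {x}).ncard = 4 := by
        rw [Set.ncard_sdiff_singleton_of_mem (by exact hx), h.line_card]
      have h2 : (({z | I z l} \ {x}) \ {y}).ncard = 3 := by
        rw [Set.ncard_sdiff_singleton_of_mem (by exact ⟨hy, fun e => hxy e.symm⟩), h1]
      rw [hs, h2]
      norm_num
    · have ha : adj I x y = 0 := by
        unfold adj
        rw [if_neg (fun e => hc e.2)]
      rw [ha]
      have hs : {z | (x ≠ z ∧ Col I x z) ∧ (z ≠ y ∧ Col I z y)} =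
          {r | Col I x r ∧ Col I y r} := by
        ext z
        simp only [Set.mem_ofPred_eq]
        constructor
        · rintro ⟨⟨h1, h2⟩, h3, h4⟩
          exact ⟨h2, col_comm.1 h4⟩
        · rintro ⟨h1, h2⟩
          refine ⟨⟨?_, h1⟩, ?_, col_comm.1 h2⟩
          · rintro rfl
            exact hc (col_comm.1 h2)
          · rintro rfl
            exact hc h1
      rw [hs, h.common_card hc]
      norm_num

private theorem Srg_RR_eq [DecidableEq P] (x y : P) :
    RR I x y = 15 * (if x = y then 1 else 0) - 5 * adj I x y + 1 := by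
  by_cases hxy : x = y
  · subst hxy
    rw [RR_self, if_pos rfl, Srg_adj_self]
    norm_num
  · unfold RR adj
    rw [if_neg hxy, if_neg hxy]
    by_cases hc : Col I x y
    · rw [if_pos hc, if_pos ⟨hxy, hc⟩]
      norm_num
    · rw [if_neg hc, if_neg (fun e => hc e.2)]
      norm_num

theorem RR_sq [Fintype P] [Finite L] (h : IsGQ I 4 12) (x y : P) :
    ∑ z, RR I x z * RR I z y = 80 * RR I x y := by
  classical
  have hne : Nonempty P := ⟨x⟩
  have hcard : ∑ _z : P, (1 : ℤ) = 245 := by
    have h1 := h.card_points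
    rw [Nat.card_eq_fintype_card] at h1
    rw [Finset.sum_const, Finset.card_univ, h1]
    norm_num
  have hrow := adj_row h x
  have hcol : ∑ z, adj I z y = 52 := by
    rw [Finset.sum_congr rfl (fun z _ => adj_comm z y)]
    exact adj_row h y
  have hsq := adj_sq h x y
  have hd : ∑ z : P, (if x = z then (1 : ℤ) else 0) = 1 := by
    rw [Finset.sum_ite_eq]
    simp
  have hd' : ∑ z : P, (if z = y then (1 : ℤ) else 0) = 1 := by
    rw [Finset.sum_ite_eq']
    simp
  have hdd : ∑ z : P, (if x = z then (1 : ℤ) else 0) * (if z = y then 1 else 0) =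
      if x = y then 1 else 0 := by
    rw [Finset.sum_eq_single x]
    · rw [if_pos rfl, one_mul]
    · intro z _ hz
      rw [if_neg (fun e => hz e.symm), zero_mul]
    · intro hx
      exact absurd (Finset.mem_univ x) hx
  have hda : ∑ z : P, (if x = z then (1 : ℤ) else 0) * adj I z y = adj I x y := by
    rw [Finset.sum_eq_single x]
    · rw [if_pos rfl, one_mul]
    · intro z _ hz
      rw [if_neg (fun e => hz e.symm), zero_mul]
    · intro hx
      exact absurd (Finset.mem_univ x) hx
  have had : ∑ z : P, adj I x z * (if z = y then (1 : ℤ) else 0) = adj I x y := by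
    rw [Finset.sum_eq_single y]
    · rw [if_pos rfl, mul_one]
    · intro z _ hz
      rw [if_neg hz, mul_zero]
    · intro hx
      exact absurd (Finset.mem_univ y) hx
  have hexp : ∀ z, RR I x z * RR I z y =
      225 * ((if x = z then (1 : ℤ) else 0) * (if z = y then 1 else 0))
      - 75 * ((if x = z then (1 : ℤ) else 0) * adj I z y)
      + 15 * (if x = z then (1 : ℤ) else 0)
      - 75 * (adj I x z * (if z = y then (1 : ℤ) else 0))
      + 25 * (adj I x z * adj I z y)
      - 5 * adj I x z
      + 15 * (if z = y then (1 : ℤ) else 0)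
      - 5 * adj I z y
      + 1 := by
    intro z
    rw [Srg_RR_eq (I := I) x z, Srg_RR_eq (I := I) z y]
    ring
  rw [Finset.sum_congr rfl (fun z _ => hexp z)]
  simp only [Finset.sum_add_distrib, Finset.sum_sub_distrib, ← Finset.mul_sum]
  rw [hdd, hda, hd, had, hsq, hrow, hd', hcol, hcard, Srg_RR_eq (I := I) x y]
  ring

theorem gram_nonneg [Fintype P] [Finite L] (h : IsGQ I 4 12) (c : P → ℤ) :
    0 ≤ ∑ x, ∑ y, c x * c y * RR I x y := by
  have h1 : 80 * ∑ x, ∑ y, c x * c y * RR I x y = ∑ z, (∑ x, c x * RR I x z) ^ 2 := by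
    calc 80 * ∑ x, ∑ y, c x * c y * RR I x y
        = ∑ x, ∑ y, c x * c y * (80 * RR I x y) := by
          rw [Finset.mul_sum]
          refine Finset.sum_congr rfl (fun x _ => ?_)
          rw [Finset.mul_sum]
          refine Finset.sum_congr rfl (fun y _ => ?_)
          ring
      _ = ∑ x, ∑ y, ∑ z, (c x * RR I x z) * (c y * RR I y z) := by
          refine Finset.sum_congr rfl (fun x _ => ?_)
          refine Finset.sum_congr rfl (fun y _ => ?_)
          rw [← RR_sq h x y, Finset.mul_sum]
          refine Finset.sum_congr rfl (fun z _ => ?_)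
          rw [RR_comm z y]
          ring
      _ = ∑ x, ∑ z, ∑ y, (c x * RR I x z) * (c y * RR I y z) := by
          refine Finset.sum_congr rfl (fun x _ => ?_)
          exact Finset.sum_comm
      _ = ∑ z, ∑ x, ∑ y, (c x * RR I x z) * (c y * RR I y z) := Finset.sum_comm
      _ = ∑ z, (∑ x, c x * RR I x z) ^ 2 := by
          refine Finset.sum_congr rfl (fun z _ => ?_)
          rw [sq, Finset.sum_mul_sum]
  have h2 : 0 ≤ ∑ z, (∑ x, c x * RR I x z) ^ 2 := Finset.sum_nonneg (fun z _ => sq_nonneg _)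
  omega

end H60GQ
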